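import Pool.Agent.Helper78.Zd.Defs

/-! The finite group facts. -/

set_option autoImplicit false

namespace Pool.Agent.Helper78.Zd

open Equiv

/-- a permutation of one block of a window -/
def blk (b : Bool) : Perm (Fin 6) →* Perm (Bool × Fin 6) where
  toFun g := Equiv.Perm.prodExtendRight b g
  map_one' := by
    ext x
    · by_cases h : x.1 = b
      · simp [Perm.prodExtendRight, h]
      · simp [Perm.prodExtendRight, h]
    · by_cases h : x.1 = b
      · simp [Perm.prodExtendRight, h]
      · simp [Perm.prodExtendRight, h]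
  map_mul' g h := by
    ext x
    · by_cases hb : x.1 = b <;> simp [Perm.prodExtendRight, hb]
    · by_cases hb : x.1 = b <;> simp [Perm.prodExtendRight, hb]

lemma blk_apply (b : Bool) (g : Perm (Fin 6)) (x : Bool × Fin 6) :
    blk b g x = (x.1, if x.1 = b then g x.2 else x.2) := by
  show Equiv.Perm.prodExtendRight b g x = _
  by_cases hb : x.1 = b <;> simp [Perm.prodExtendRight, hb]

/-- the exchange of the two blocks of a window -/
def bsw : Perm (Bool × Fin 6) := Equiv.prodCongrLeft (fun _ : Fin 6 => Equiv.swap false true)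

lemma bsw_apply (x : Bool × Fin 6) : bsw x = (!x.1, x.2) := by
  rcases x with ⟨b, v⟩
  cases b <;> simp [bsw, Equiv.prodCongrLeft]

lemma bsw_even : bsw ∈ alternatingGroup (Bool × Fin 6) := by
  rw [Perm.mem_alternatingGroup, bsw, Perm.sign_prodCongrLeft]
  simp
  decide

def g6 : Perm (Fin 6) := swap 1 3 * swap 4 5
def h6 : Perm (Fin 6) := swap 0 1 * swap 2 3
def a6 : Perm (Fin 6) := g6 * h6 * g6⁻¹ * h6⁻¹

lemma a6_sq : a6 * a6 = 1 := by decide
lemma a6_eq : a6 = swap 0 2 * swap 1 3 := by decide

lemma blk_sign (b : Bool) (g : Perm (Fin 6)) (hg : Perm.sign g = 1) :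
    blk b g ∈ alternatingGroup (Bool × Fin 6) := by
  rw [Perm.mem_alternatingGroup]
  show Perm.sign (Equiv.Perm.prodExtendRight b g) = 1
  rw [Perm.sign_prodExtendRight, hg]

lemma g6_sign : Perm.sign g6 = 1 := by decide
lemma h6_sign : Perm.sign h6 = 1 := by decide
lemma a6_sign : Perm.sign a6 = 1 := by decide

/-- the exchange as an element of the alternating group -/
def bs : A12 := ⟨bsw, bsw_even⟩
def gg (b : Bool) : A12 := ⟨blk b g6, blk_sign b _ g6_sign⟩
def hh (b : Bool) : A12 := ⟨blk b h6, blk_sign b _ h6_sign⟩
def aa (b : Bool) : A12 := ⟨blk b a6, blk_sign b _ a6_sign⟩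

lemma aa_comm (b : Bool) : gg b * hh b * (gg b)⁻¹ * (hh b)⁻¹ = aa b := by
  apply Subtype.ext
  show blk b g6 * blk b h6 * (blk b g6)⁻¹ * (blk b h6)⁻¹ = blk b a6
  rw [a6, map_mul, map_mul, map_mul, map_inv, map_inv]

lemma aa_sq (b : Bool) : aa b * aa b = 1 := by
  apply Subtype.ext
  show blk b a6 * blk b a6 = 1
  rw [← map_mul, a6_sq, map_one]

/-- sub-products of conjugates of `a` -/
inductive SubProd (a : A12) : List A12 → A12 → Prop
  | nil : SubProd a [] 1
  | skip (x : A12) (l : List A12) (y : A12) : SubProd a l y → SubProd a (x :: l) y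
  | take (x : A12) (l : List A12) (y : A12) : SubProd a l y → SubProd a (x :: l) (x * a * x⁻¹ * y)

lemma SubProd.append_left {a : A12} {l : List A12} {y : A12} (h : SubProd a l y) (l' : List A12) :
    SubProd a (l' ++ l) y := by
  induction l' with
  | nil => exact h
  | cons x l' ih => exact SubProd.skip x _ _ ih

lemma SubProd.one (a : A12) (l : List A12) : SubProd a l 1 := by
  induction l with
  | nil => exact SubProd.nil
  | cons x l ih => exact SubProd.skip x _ _ ih

lemma SubProd.mul {a : A12} {l l' : List A12} {y y' : A12} (h : SubProd a l y)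
    (h' : SubProd a l' y') : SubProd a (l ++ l') (y * y') := by
  induction h with
  | nil => simpa using h'
  | skip x l y _ ih => exact SubProd.skip x _ _ ih
  | take x l y _ ih =>
    have := SubProd.take x _ _ ih
    rw [mul_assoc (x * a * x⁻¹)]
    exact this

lemma SubProd.append_right {a : A12} {l : List A12} {y : A12} (h : SubProd a l y)
    (l' : List A12) : SubProd a (l ++ l') y := by
  have := h.mul (SubProd.one a l')
  simpa using this

lemma cycleType_aa (b : Bool) : ((aa b : A12) : Perm (Bool × Fin 6)).cycleType = {2, 2} := by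
  show (blk b a6).cycleType = {2, 2}
  have h1 : blk b a6 = swap (b, (0 : Fin 6)) (b, 2) * swap (b, 1) (b, 3) := by
    rw [a6_eq, map_mul]
    congr 1
    · ext x
      · rw [blk_apply]; 
        rcases x with ⟨c, v⟩
        by_cases hc : c = b
        · subst hc
          simp only [swap_apply_def, Prod.mk.injEq, true_and]
          split_ifs <;> rfl
        · simp [swap_apply_def, hc]
      · rw [blk_apply]
        rcases x with ⟨c, v⟩
        by_cases hc : c = b
        · subst hc
          simp only [swap_apply_def, Prod.mk.injEq, true_and, if_true]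
          split_ifs <;> rfl
        · simp [swap_apply_def, hc]
    · ext x
      · rw [blk_apply]; 
        rcases x with ⟨c, v⟩
        by_cases hc : c = b
        · subst hc
          simp only [swap_apply_def, Prod.mk.injEq, true_and]
          split_ifs <;> rfl
        · simp [swap_apply_def, hc]
      · rw [blk_apply]
        rcases x with ⟨c, v⟩
        by_cases hc : c = b
        · subst hc
          simp only [swap_apply_def, Prod.mk.injEq, true_and, if_true]
          split_ifs <;> rfl
        · simp [swap_apply_def, hc]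
  rw [h1]
  apply Perm.cycleType_swap_mul_swap_of_nodup
  simp

lemma conj_of_cycleType (b : Bool) (g : A12) (hg : (g : Perm (Bool × Fin 6)).cycleType = {2, 2}) :
    ∃ x : A12, x * aa b * x⁻¹ = g := by
  have h1 : IsConj (aa b) g := by
    apply alternatingGroup.isConj_of
    · rw [Perm.isConj_iff_cycleType_eq, cycleType_aa, hg]
    · rw [← Perm.sum_cycleType, cycleType_aa]
      simp
  rw [isConj_iff] at h1
  exact h1

lemma SubProd.inv {b : Bool} {l : List A12} {y : A12} (h : SubProd (aa b) l y) :
    SubProd (aa b) l.reverse y⁻¹ := by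
  induction h with
  | nil => simpa using SubProd.nil
  | skip x l y _ ih =>
    rw [List.reverse_cons]
    exact ih.append_right _
  | take x l y _ ih =>
    rw [List.reverse_cons, mul_inv_rev]
    refine ih.mul ?_
    have h3 := SubProd.take x [] 1 (SubProd.nil (a := aa b))
    rw [mul_one] at h3
    have h4 : (x * aa b * x⁻¹)⁻¹ = x * aa b * x⁻¹ := by
      have : (aa b)⁻¹ = aa b := by
        rw [inv_eq_iff_mul_eq_one]; exact aa_sq b
      rw [mul_inv_rev, mul_inv_rev, inv_inv, this, mul_assoc]
    rw [h4]
    exact h3

lemma exists_list (b : Bool) : ∃ l : List A12, ∀ y : A12, SubProd (aa b) l y := by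
  have h1 : ∀ y : A12, ∃ l : List A12, SubProd (aa b) l y := by
    intro y
    have hy : y ∈ Subgroup.closure {g : A12 | (g : Perm (Bool × Fin 6)).cycleType = {2, 2}} := by
      rw [alternatingGroup.closure_cycleType_eq_two_two_eq_top (by simp)]
      trivial
    induction hy using Subgroup.closure_induction with
    | mem x hx =>
      obtain ⟨z, hz⟩ := conj_of_cycleType b x hx
      refine ⟨[z], ?_⟩
      have := SubProd.take z [] 1 (SubProd.nil (a := aa b))
      rw [mul_one, hz] at this
      exact this
    | one => exact ⟨[], SubProd.nil⟩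
    | mul x z _ _ hx hz =>
      obtain ⟨l, hl⟩ := hx
      obtain ⟨l', hl'⟩ := hz
      exact ⟨l ++ l', hl.mul hl'⟩
    | inv x _ hx =>
      obtain ⟨l, hl⟩ := hx
      exact ⟨l.reverse, hl.inv⟩
  have h2 : ∀ s : Finset A12, ∃ l : List A12, ∀ y ∈ s, SubProd (aa b) l y := by
    intro s
    induction s using Finset.induction with
    | empty => exact ⟨[], by simp⟩
    | insert y s _ ih =>
      obtain ⟨l, hl⟩ := ih
      obtain ⟨l', hl'⟩ := h1 y
      refine ⟨l ++ l', fun z hz => ?_⟩
      rw [Finset.mem_insert] at hz
      rcases hz with rfl | hz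
      · exact hl'.append_left l
      · exact (hl z hz).append_right l'
  obtain ⟨l, hl⟩ := h2 Finset.univ
  exact ⟨l, fun y => hl y (Finset.mem_univ y)⟩

end Pool.Agent.Helper78.Zd
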