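import Mathlib

/-!
Definitions for the proof that the wobbling group of `Z^d` (`d ≥ 3`) does not act extensively
amenably.
-/

set_option autoImplicit false

namespace Pool.Agent.Helper78.Zd

open Equiv

/-! ### isometric representations -/

/-- the displacement of a vector by a group element -/
def mv {G H : Type*} [Group G] [NormedAddCommGroup H] [InnerProductSpace ℝ H]
    (ρ : G →* (H ≃ₗᵢ[ℝ] H)) (f : H) (g : G) : ℝ := ‖ρ g f - f‖

/-! ### windows -/

/-- fibrewise permutations -/
def fib {I F : Type*} : (I → Perm F) →* Perm (I × F) where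
  toFun φ := Equiv.prodShear (Equiv.refl I) φ
  map_one' := by ext x <;> rfl
  map_mul' φ ψ := by ext x <;> rfl

@[simp] lemma fib_apply {I F : Type*} (φ : I → Perm F) (x : I × F) :
    fib φ x = (x.1, φ x.1 x.2) := rfl

/-- a family of disjoint pairs of nodes -/
structure Win (I N : Type*) where
  p : I → N
  q : I → N
  hp : Function.Injective p
  hq : Function.Injective q
  hpq : ∀ i j, p i ≠ q j

/-- the two-block window as an embedding -/
def Win.emb {I N : Type*} (w : Win I N) : (I × (Bool × Fin 6)) ↪ (N × Fin 6) where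
  toFun x := (if x.2.1 then w.q x.1 else w.p x.1, x.2.2)
  inj' := by
    rintro ⟨i, b, v⟩ ⟨j, c, u⟩ h
    simp only [Prod.mk.injEq] at h
    obtain ⟨h1, rfl⟩ := h
    cases b <;> cases c <;> simp at h1
    · rw [w.hp h1]
    · exact absurd h1 (w.hpq i j)
    · exact absurd h1.symm (w.hpq j i)
    · rw [w.hq h1]

/-- the action of window permutations -/
noncomputable def Win.act {I N : Type*} (w : Win I N) :
    (I → Perm (Bool × Fin 6)) →* Perm (N × Fin 6) :=
  (Equiv.Perm.viaEmbeddingHom w.emb).comp fib

/-- the group acting on one window -/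
abbrev A12 : Type := ↥(alternatingGroup (Bool × Fin 6))

/-! ### cells -/

/-- base data: the first region of the tree of strands -/
structure BaseData (B R : Type) where
  a0 : R → B
  root : B → R
  next : Bool → R → R ⊕ B
  a0_root : ∀ c, a0 (root c) = c
  a0_next : ∀ e ρ ρ', next e ρ = Sum.inl ρ' → a0 ρ' = a0 ρ
  inl_inj : ∀ e ρ₁ ρ₂ ρ', next e ρ₁ = Sum.inl ρ' → next e ρ₂ = Sum.inl ρ' → ρ₁ = ρ₂
  inr_inj : ∀ e ρ₁ ρ₂ c, next e ρ₁ = Sum.inr c → next e ρ₂ = Sum.inr c → a0 ρ₁ = a0 ρ₂ → ρ₁ = ρ₂
  ne_root : ∀ e ρ c, next e ρ ≠ Sum.inl (root c)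
  len : ℕ
  reach : ∀ β c, ∃ n ≤ len, ∃ path : ℕ → R, path 0 = root β ∧
    (∀ k < n, ∃ e, next e (path k) = Sum.inl (path (k + 1))) ∧ ∃ e, next e (path n) = Sum.inr c

/-- cells of the hierarchical tree of strands -/
inductive Cell (B R : Type) (M : ℕ) : Type
  | base : R → Cell B R M
  | up : B → Cell B R M → ZMod M → Cell B R M

variable {B R : Type} {M : ℕ}

/-- nodes: a cell and a position in it -/
abbrev Node (B R : Type) (M : ℕ) : Type := Cell B R M × ZMod M

/-- labels -/
abbrev Lab (B : Type) (M : ℕ) : Type := Option (ZMod M × B)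

/-- types of windows -/
abbrev Typ (B : Type) (M : ℕ) : Type := ZMod M × B × Lab B M

namespace BaseData

variable (D : BaseData B R)

/-- the zeroth coordinate -/
def c0 : Cell B R M → B
  | .base ρ => D.a0 ρ
  | .up β _ _ => β

/-- the next cell -/
noncomputable def nx (e : Bool) : Cell B R M → Cell B R M
  | .base ρ => match D.next e ρ with
      | Sum.inl ρ' => .base ρ'
      | Sum.inr c => .up (D.a0 ρ) (.base (D.root c)) 0
  | .up β c i => if i + 1 = 0 then .up β (nx e c) 0 else .up β c (i + 1)

/-- the next node -/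
noncomputable def ns (e : Bool) (s : Node B R M) : Node B R M :=
  if s.2 + 1 = 0 then (D.nx e s.1, 0) else (s.1, s.2 + 1)

/-- the label of a cell (shown at its position `0`) -/
noncomputable def labC : Cell B R M → Lab B M
  | .base _ => none
  | .up _ c i => if i = 0 then labC c else some (i, D.c0 c)

/-- the label of a node -/
noncomputable def lab (s : Node B R M) : Lab B M :=
  if s.2 = 0 then D.labC s.1 else some (s.2, D.c0 s.1)

/-- the type of the window starting at a node -/
noncomputable def typ (s : Node B R M) : Typ B M := (s.2, D.c0 s.1, D.lab s)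

lemma nx_up (e : Bool) (β : B) (c : Cell B R M) (i : ZMod M) :
    D.nx e (.up β c i) = .up β (D.ns e (c, i)).1 (D.ns e (c, i)).2 := by
  unfold ns
  rw [nx]
  split_ifs <;> rfl

lemma c0_nx (e : Bool) (c : Cell B R M) : D.c0 (D.nx e c) = D.c0 c := by
  cases c with
  | base ρ =>
    rw [nx]
    cases h : D.next e ρ with
    | inl ρ' => exact D.a0_next e ρ ρ' h
    | inr c => rfl
  | up β c i => rw [nx_up]; rfl

end BaseData

/-- parity of a position -/
def par (i : ZMod M) : ZMod 2 := (i.cast : ZMod 2)

/-- residue mod 3 of a position -/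
def col (i : ZMod M) : ZMod 3 := (i.cast : ZMod 3)

end Pool.Agent.Helper78.Zd
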