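import Pool.Agent.Helper78.Zd.Struct

/-!
Modules DROP and LIMIT of the proof for `MP_b4e171_al`: the one-point density `‖Q y f‖` hardly moves
when `y` moves to the next cell (`drop`), and the iteration of selection and transition
(`limit_of`, which takes the statements of these two modules as hypotheses).
-/

set_option autoImplicit false

namespace Pool.Agent.Helper78.Zd

open Equiv

/-- the permutation of `Bool × Fin 6` exchanging the two blocks, as an even permutation -/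
def swp : A12 := ⟨⟨fun x => (!x.1, x.2), fun x => (!x.1, x.2), fun x => by simp, fun x => by simp⟩,
  by
    rw [Equiv.Perm.mem_alternatingGroup]
    decide⟩

theorem fib_swp_apply {I : Type*} (φ : I → Perm (Bool × Fin 6)) (i : I) (b : Bool) (v : Fin 6)
    (h : φ i = swp.1) : fib φ (i, (b, v)) = (i, (!b, v)) := by
  rw [fib_apply, h]
  rfl

theorem act_p {N I : Type*} (w : Win I N) (φ : I → Perm (Bool × Fin 6)) (i : I) (v : Fin 6)
    (h : φ i = swp.1) : w.act φ (w.p i, v) = (w.q i, v) := by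
  have h1 : w.emb (i, (false, v)) = (w.p i, v) := by
    simp [Win.emb]
  have h2 : w.emb (i, (true, v)) = (w.q i, v) := by
    simp [Win.emb]
  rw [← h1, ← h2]
  show Equiv.Perm.viaEmbedding (fib φ) w.emb (w.emb (i, (false, v))) = _
  rw [Equiv.Perm.viaEmbedding_apply, fib_swp_apply φ i false v h]
  rfl

variable {B R : Type} {M : ℕ}

/-- one step of the dropping argument -/
theorem drop_one (D : BaseData B R) (h2 : 2 ∣ M)
    {H : Type} [NormedAddCommGroup H] [InnerProductSpace ℝ H]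
    (ρ : Perm (Node B R M × Fin 6) →* (H ≃ₗᵢ[ℝ] H)) (β : B) (f : H) (err : ZMod M → ℝ)
    (h : Post D h2 ρ β f err)
    (Q : Node B R M × Fin 6 → H → H) (hQ1 : ∀ y u v, ‖Q y u - Q y v‖ ≤ ‖u - v‖)
    (hQ2 : ∀ g y u, Q (g y) (ρ g u) = ρ g (Q y u)) (e : Bool) (c : Cell B R M)
    (hc : D.c0 c = β) (i : ZMod M) (v : Fin 6) :
    ‖Q ((c, i), v) f‖ ≤ ‖Q (D.ns e (c, i), v) f‖ + err i := by
  classical
  have h3 := h e i (fun _ => swp)
  set g : Perm (Node B R M × Fin 6) := (preWin D h2 e (par i)).act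
      (fun s => if s.1.2 = i ∧ D.c0 s.1.1 = β then (swp).1 else 1) with hg
  have h3' : ‖ρ g f - f‖ ≤ err i := by
    unfold mv at h3
    convert h3 using 5
  have h4 : g ((c, i), v) = (D.ns e (c, i), v) := by
    have h5 := act_p (preWin D h2 e (par i))
      (fun s => if s.1.2 = i ∧ D.c0 s.1.1 = β then (swp).1 else 1)
      (⟨(c, i), rfl⟩ : {s : Node B R M // par s.2 = par i}) v
      (by simp [hc])
    exact h5
  have h6 : Q (D.ns e (c, i), v) (ρ g f) = ρ g (Q ((c, i), v) f) := by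
    rw [← h4, hQ2]
  have h7 : ‖Q ((c, i), v) f‖ = ‖Q (D.ns e (c, i), v) (ρ g f)‖ := by
    rw [h6, LinearIsometryEquiv.norm_map]
  rw [h7]
  have h8 : ‖Q (D.ns e (c, i), v) (ρ g f)‖ ≤
      ‖Q (D.ns e (c, i), v) f‖ + ‖Q (D.ns e (c, i), v) (ρ g f) - Q (D.ns e (c, i), v) f‖ := by
    have := norm_add_le (Q (D.ns e (c, i), v) f)
      (Q (D.ns e (c, i), v) (ρ g f) - Q (D.ns e (c, i), v) f)
    rwa [add_sub_cancel] at this
  have h9 := hQ1 (D.ns e (c, i), v) (ρ g f) f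
  linarith

/-- sums over `ZMod M` as sums over a range -/
theorem sum_zmod [NeZero M] (F : ZMod M → ℝ) :
    ∑ i, F i = ∑ k ∈ Finset.range M, F (k : ZMod M) := by
  refine Finset.sum_nbij' (fun i => i.val) (fun k => (k : ZMod M)) ?_ ?_ ?_ ?_ ?_
  · intro i _
    exact Finset.mem_range.mpr (ZMod.val_lt i)
  · intro k _
    exact Finset.mem_univ _
  · intro i _
    exact ZMod.natCast_zmod_val i
  · intro k hk
    exact ZMod.val_natCast_of_lt (Finset.mem_range.mp hk)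
  · intro i _
    simp

/-- running through all positions of a cell -/
theorem drop_cell [NeZero M] (D : BaseData B R) (h2 : 2 ∣ M)
    {H : Type} [NormedAddCommGroup H] [InnerProductSpace ℝ H]
    (ρ : Perm (Node B R M × Fin 6) →* (H ≃ₗᵢ[ℝ] H)) (β : B) (f : H) (err : ZMod M → ℝ)
    (h : Post D h2 ρ β f err)
    (Q : Node B R M × Fin 6 → H → H) (hQ1 : ∀ y u v, ‖Q y u - Q y v‖ ≤ ‖u - v‖)
    (hQ2 : ∀ g y u, Q (g y) (ρ g u) = ρ g (Q y u)) (e : Bool) (c : Cell B R M)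
    (hc : D.c0 c = β) (v : Fin 6) :
    ‖Q ((c, 0), v) f‖ ≤ ‖Q ((D.nx e c, 0), v) f‖ + ∑ i, err i := by
  obtain ⟨m, rfl⟩ : ∃ m, M = m + 1 := ⟨M - 1, (Nat.succ_pred_eq_of_ne_zero (NeZero.ne M)).symm⟩
  have h1 : ∀ k : ℕ, k ≤ m → ‖Q ((c, 0), v) f‖ ≤ ‖Q ((c, (k : ZMod (m + 1))), v) f‖ +
      ∑ j ∈ Finset.range k, err (j : ZMod (m + 1)) := by
    intro k
    induction k with
    | zero => intro _; simp
    | succ k ih =>
      intro hk
      have h3 := ih (by omega)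
      have h4 := drop_one D h2 ρ β f err h Q hQ1 hQ2 e c hc (k : ZMod (m + 1)) v
      have h5 : ((k : ZMod (m + 1)) + 1) ≠ 0 := by
        intro h6
        have h7 : ((k + 1 : ℕ) : ZMod (m + 1)) = 0 := by push_cast; exact h6
        rw [ZMod.natCast_eq_zero_iff] at h7
        have := Nat.le_of_dvd (by omega) h7
        omega
      have h6 : D.ns e (c, (k : ZMod (m + 1))) = (c, ((k + 1 : ℕ) : ZMod (m + 1))) := by
        unfold BaseData.ns
        rw [if_neg h5]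
        push_cast
        rfl
      rw [h6] at h4
      rw [Finset.sum_range_succ]
      linarith
  have h3 := h1 m le_rfl
  have h4 := drop_one D h2 ρ β f err h Q hQ1 hQ2 e c hc (m : ZMod (m + 1)) v
  have h5 : ((m : ZMod (m + 1)) + 1) = 0 := by
    have : ((m + 1 : ℕ) : ZMod (m + 1)) = 0 := ZMod.natCast_self _
    push_cast at this
    exact this
  have h6 : D.ns e (c, (m : ZMod (m + 1))) = (D.nx e c, 0) := by
    unfold BaseData.ns
    rw [if_pos h5]
  rw [h6] at h4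
  rw [sum_zmod err, Finset.sum_range_succ]
  linarith

/-! ### MODULE DROP -/

theorem drop {B R : Type} {M : ℕ} [NeZero M] (D : BaseData B R) (h2 : 2 ∣ M)
    {H : Type} [NormedAddCommGroup H] [InnerProductSpace ℝ H]
    (ρ : Perm (Node B R M × Fin 6) →* (H ≃ₗᵢ[ℝ] H)) (β : B) (f : H) (err : ZMod M → ℝ)
    (h0 : ∀ i, 0 ≤ err i) (h : Post D h2 ρ β f err)
    (Q : Node B R M × Fin 6 → H → H) (hQ1 : ∀ y u v, ‖Q y u - Q y v‖ ≤ ‖u - v‖)
    (hQ2 : ∀ g y u, Q (g y) (ρ g u) = ρ g (Q y u)) (c : B) (v : Fin 6) :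
    ‖Q ((.base (D.root β), 0), v) f‖ ≤
      ‖Q ((.up β (.base (D.root c)) 0, 0), v) f‖ + (D.len + 1) * ∑ i, err i := by
  obtain ⟨n, hn, path, hp0, hp1, e, he⟩ := D.reach β c
  have hE : 0 ≤ ∑ i, err i := Finset.sum_nonneg (fun i _ => h0 i)
  have ha : ∀ k ≤ n, D.a0 (path k) = β := by
    intro k
    induction k with
    | zero => intro _; rw [hp0, D.a0_root]
    | succ k ih =>
      intro hk
      obtain ⟨e', he'⟩ := hp1 k (by omega)
      rw [D.a0_next e' _ _ he']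
      exact ih (by omega)
  have h1 : ∀ k : ℕ, k ≤ n → ‖Q ((.base (D.root β), 0), v) f‖ ≤
      ‖Q ((.base (path k), 0), v) f‖ + k * ∑ i, err i := by
    intro k
    induction k with
    | zero => intro _; rw [hp0]; simp
    | succ k ih =>
      intro hk
      have h3 := ih (by omega)
      obtain ⟨e', he'⟩ := hp1 k (by omega)
      have h4 := drop_cell D h2 ρ β f err h Q hQ1 hQ2 e' (.base (path k)) (ha k (by omega)) v
      have h5 : D.nx (M := M) e' (.base (path k)) = .base (path (k + 1)) := by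
        rw [BaseData.nx, he']
      rw [h5] at h4
      push_cast
      linarith
  have h3 := h1 n le_rfl
  have h4 := drop_cell D h2 ρ β f err h Q hQ1 hQ2 e (.base (path n)) (ha n le_rfl) v
  have h5 : D.nx (M := M) e (.base (path n)) = .up β (.base (D.root c)) 0 := by
    rw [BaseData.nx, he]
    simp only
    rw [ha n le_rfl]
  rw [h5] at h4
  have h6 : (n : ℝ) * ∑ i, err i ≤ D.len * ∑ i, err i :=
    mul_le_mul_of_nonneg_right (by exact_mod_cast hn) hE
  linarith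


/-! ### MODULE LIMIT -/

/-- the statement of the module `selection`, as a hypothesis -/
def SelectionProp : Prop :=
  ∀ (B R : Type) (M : ℕ) [Fintype B] [Nonempty B] [NeZero M]
    (D : BaseData B R) (h2 : 2 ∣ M) (_ : 3 ∣ M)
    (H : Type) [NormedAddCommGroup H] [InnerProductSpace ℝ H]
    (ρ : Perm (Node B R M × Fin 6) →* (H ≃ₗᵢ[ℝ] H)) (f : H) (η : ℝ), Pre D h2 ρ f η →
    ∃ (β : B) (f' : H) (err : ZMod M → ℝ), ‖f' - f‖ ≤ 3 * η ∧ (∀ i, 0 ≤ err i) ∧
      Post D h2 ρ β f' err ∧ ∑ i, err i ^ 2 ≤ 1000 * η ^ 2 / Fintype.card B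

/-- the statement of the module `transition`, as a hypothesis -/
def TransitionProp : Prop :=
  ∃ C : ℝ, 1 ≤ C ∧ ∀ (B R : Type) (M : ℕ) [Fintype B] [NeZero M]
    (D : BaseData B R) (h2 : 2 ∣ M) (_ : 6 ≤ M)
    (H : Type) [NormedAddCommGroup H] [InnerProductSpace ℝ H]
    (ρ : Perm (Node B R M × Fin 6) →* (H ≃ₗᵢ[ℝ] H)) (β : B) (f : H) (err : ZMod M → ℝ),
    (∀ i, 0 ≤ err i) → Post D h2 ρ β f err →
      Pre D h2 (ρ.comp (ext β)) f (C * ∑ i, err i)

/-- depth of a cell -/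
def depth {B R : Type} {M : ℕ} : Cell B R M → ℕ
  | .base _ => 0
  | .up _ c _ => depth c + 1

theorem Pre.mono (D : BaseData B R) (h2 : 2 ∣ M)
    {H : Type} [NormedAddCommGroup H] [InnerProductSpace ℝ H]
    (ρ : Perm (Node B R M × Fin 6) →* (H ≃ₗᵢ[ℝ] H)) (f : H) (η η' : ℝ)
    (h : Pre D h2 ρ f η) (hη : η ≤ η') : Pre D h2 ρ f η' :=
  fun e κ ψ => (h e κ ψ).trans hη

theorem Pre.nonneg (D : BaseData B R) (h2 : 2 ∣ M)
    {H : Type} [NormedAddCommGroup H] [InnerProductSpace ℝ H]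
    (ρ : Perm (Node B R M × Fin 6) →* (H ≃ₗᵢ[ℝ] H)) (f : H) (η : ℝ)
    (h : Pre D h2 ρ f η) : 0 ≤ η :=
  (norm_nonneg _).trans (h true 0 (fun _ => 1))

theorem limit_step (hsel : SelectionProp) (Ct : ℝ) (hCt : 1 ≤ Ct) [Fintype B] [Nonempty B] [NeZero M]
    (D : BaseData B R) (h2 : 2 ∣ M) (h3 : 3 ∣ M)
    (hM : 4000 * Ct ^ 2 * M ≤ Fintype.card B)
    (hT : ∀ (H : Type) [NormedAddCommGroup H] [InnerProductSpace ℝ H]
      (ρ : Perm (Node B R M × Fin 6) →* (H ≃ₗᵢ[ℝ] H)) (β : B) (f : H) (err : ZMod M → ℝ),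
      (∀ i, 0 ≤ err i) → Post D h2 ρ β f err →
        Pre D h2 (ρ.comp (ext β)) f (Ct * ∑ i, err i)) (n : ℕ) :
    ∀ (H : Type) [NormedAddCommGroup H] [InnerProductSpace ℝ H]
      (ρ : Perm (Node B R M × Fin 6) →* (H ≃ₗᵢ[ℝ] H)) (f : H)
      (Q : Node B R M × Fin 6 → H → H) (_ : ∀ y u v, ‖Q y u - Q y v‖ ≤ ‖u - v‖)
      (_ : ∀ g y u, Q (g y) (ρ g u) = ρ g (Q y u)) (η θ : ℝ),
      Pre D h2 ρ f η → (∀ β : B, θ ≤ ‖Q ((.base (D.root β), 0), 0) f‖) →
      ∃ y : Node B R M × Fin 6, depth y.1.1 = n ∧ θ - 2 * (D.len + 7) * η ≤ ‖Q y f‖ := by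
  induction n with
  | zero =>
    intro H _ _ ρ f Q hQ1 hQ2 η θ hP hθ
    obtain ⟨β⟩ : Nonempty B := inferInstance
    refine ⟨((.base (D.root β), 0), 0), rfl, ?_⟩
    have h0 := Pre.nonneg D h2 ρ f η hP
    have h1 := hθ β
    have h4 : 0 ≤ 2 * ((D.len : ℝ) + 7) * η := by positivity
    linarith
  | succ n ih =>
    intro H _ _ ρ f Q hQ1 hQ2 η θ hP hθ
    have h0 := Pre.nonneg D h2 ρ f η hP
    obtain ⟨β, f', err, hf', herr, hPost, hsum⟩ := hsel B R M D h2 h3 H ρ f η hP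
    have hE0 : 0 ≤ ∑ i, err i := Finset.sum_nonneg (fun i _ => herr i)
    -- the sum of the errors
    have hE : Ct * ∑ i, err i ≤ η / 2 := by
      have hcs : (∑ i, err i) ^ 2 ≤ (M : ℝ) * ∑ i, err i ^ 2 := by
        have := sq_sum_le_card_mul_sum_sq (s := (Finset.univ : Finset (ZMod M))) (f := err)
        rwa [Finset.card_univ, ZMod.card] at this
      have hMpos : 0 < (M : ℝ) := by exact_mod_cast Nat.pos_of_ne_zero (NeZero.ne M)
      have hBpos : 0 < (Fintype.card B : ℝ) := by exact_mod_cast Fintype.card_pos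
      have h5 : (∑ i, err i) ^ 2 * Fintype.card B ≤ M * (1000 * η ^ 2) := by
        have h6 : (∑ i, err i ^ 2) * Fintype.card B ≤ 1000 * η ^ 2 := by
          rwa [le_div_iff₀ hBpos] at hsum
        calc (∑ i, err i) ^ 2 * Fintype.card B ≤ (M * ∑ i, err i ^ 2) * Fintype.card B :=
              mul_le_mul_of_nonneg_right hcs hBpos.le
          _ = M * ((∑ i, err i ^ 2) * Fintype.card B) := by ring
          _ ≤ M * (1000 * η ^ 2) := mul_le_mul_of_nonneg_left h6 hMpos.le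
      have h7 : (∑ i, err i) ^ 2 * (4000 * Ct ^ 2 * M) ≤ M * (1000 * η ^ 2) :=
        (mul_le_mul_of_nonneg_left hM (sq_nonneg _)).trans h5
      have h8 : (2 * (Ct * ∑ i, err i)) ^ 2 ≤ η ^ 2 := by
        have h9 : M * (1000 * (2 * (Ct * ∑ i, err i)) ^ 2) ≤ M * (1000 * η ^ 2) := by
          calc M * (1000 * (2 * (Ct * ∑ i, err i)) ^ 2)
              = (∑ i, err i) ^ 2 * (4000 * Ct ^ 2 * M) := by ring
            _ ≤ _ := h7
        have h10 := le_of_mul_le_mul_left h9 hMpos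
        linarith
      have h11 := abs_le_of_sq_le_sq' h8 h0
      linarith [h11.2]
    have hE' : ∑ i, err i ≤ η / 2 := by
      have : ∑ i, err i ≤ Ct * ∑ i, err i := le_mul_of_one_le_left hE0 hCt
      linarith
    have hP' : Pre D h2 (ρ.comp (ext β)) f' (η / 2) :=
      Pre.mono D h2 _ f' _ _ (hT H ρ β f' err herr hPost) hE
    have hJ : ∀ (g : Perm (Node B R M × Fin 6)) (y : Node B R M × Fin 6),
        ext β g (J β y) = J β (g y) := by
      intro g y
      show Equiv.Perm.viaEmbedding g (J β) (J β y) = _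
      rw [Equiv.Perm.viaEmbedding_apply]
    have hθ' : ∀ c : B, θ - (D.len + 7) / 2 * η ≤ ‖Q (J β ((.base (D.root c), 0), 0)) f'‖ := by
      intro c
      have h6 := drop D h2 ρ β f' err herr hPost Q hQ1 hQ2 c 0
      have h7 : (J β ((.base (D.root c), 0), 0) : Node B R M × Fin 6) =
        ((.up β (.base (D.root c)) 0, 0), 0) := rfl
      rw [h7]
      have h8 := hQ1 ((.base (D.root β), 0), 0) f' f
      have h9 := hθ β
      have h10 : ‖Q ((.base (D.root β), 0), 0) f‖ ≤ ‖Q ((.base (D.root β), 0), 0) f'‖ + 3 * η := by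
        have h11 := norm_sub_norm_le (Q ((.base (D.root β), 0), 0) f)
          (Q ((.base (D.root β), 0), 0) f')
        rw [norm_sub_rev] at h11
        linarith
      have h12 : ((D.len : ℝ) + 1) * ∑ i, err i ≤ (D.len + 1) * (η / 2) :=
        mul_le_mul_of_nonneg_left hE' (by positivity)
      linarith
    obtain ⟨y, hy1, hy2⟩ := ih H (ρ.comp (ext β)) f' (fun y => Q (J β y))
      (fun y u v => hQ1 (J β y) u v)
      (fun g y u => by
        show Q (J β (g y)) (ρ (ext β g) u) = ρ (ext β g) (Q (J β y) u)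
        rw [← hJ g y, hQ2])
      (η / 2) (θ - (D.len + 7) / 2 * η) hP' hθ'
    refine ⟨J β y, ?_, ?_⟩
    · show depth y.1.1 + 1 = n + 1
      rw [hy1]
    · have h8 := hQ1 (J β y) f' f
      have h11 := norm_sub_norm_le (Q (J β y) f') (Q (J β y) f)
      have h13 : 0 ≤ (D.len : ℝ) * η := by positivity
      have h14 : θ - (D.len + 7) / 2 * η - 2 * (D.len + 7) * (η / 2) ≤ ‖Q (J β y) f'‖ := hy2
      linarith

/-- the module `limit`, given the statements of `selection` and `transition` -/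
theorem limit_of (hsel : SelectionProp) (htrans : TransitionProp) : ∃ C : ℝ, 1 ≤ C ∧ ∀ (B R : Type) (M : ℕ) [Fintype B] [Nonempty B] [NeZero M]
    (D : BaseData B R) (h2 : 2 ∣ M) (_ : 3 ∣ M) (_ : 6 ≤ M) (_ : C * M ≤ Fintype.card B),
    ∃ η : ℝ, 0 < η ∧ ∀ (H : Type) [NormedAddCommGroup H] [InnerProductSpace ℝ H]
      (ρ : Perm (Node B R M × Fin 6) →* (H ≃ₗᵢ[ℝ] H)) (f : H)
      (Q : Node B R M × Fin 6 → H → H) (_ : ∀ y u v, ‖Q y u - Q y v‖ ≤ ‖u - v‖)
      (_ : ∀ g y u, Q (g y) (ρ g u) = ρ g (Q y u)),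
      Pre D h2 ρ f η → (∀ β : B, 1 / 2 ≤ ‖Q ((.base (D.root β), 0), 0) f‖) →
      ∀ n : ℕ, ∃ y : Node B R M × Fin 6, depth y.1.1 = n ∧ 1 / 4 ≤ ‖Q y f‖ := by
  obtain ⟨Ct, hCt, hT⟩ := htrans
  refine ⟨4000 * Ct ^ 2, by nlinarith, ?_⟩
  intro B R M _ _ _ D h2 h3 h6 hM
  refine ⟨1 / (8 * (D.len + 7)), by positivity, ?_⟩
  intro H _ _ ρ f Q hQ1 hQ2 hP hβ n
  obtain ⟨y, hy1, hy2⟩ := limit_step hsel Ct hCt D h2 h3 hM
    (fun H _ _ ρ β f err h h' => hT B R M D h2 h6 H ρ β f err h h') n H ρ f Q hQ1 hQ2 _ _ hP hβ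
  refine ⟨y, hy1, le_trans (le_of_eq ?_) hy2⟩
  have : (D.len : ℝ) + 7 ≠ 0 := by positivity
  field_simp
  norm_num

end Pool.Agent.Helper78.Zd
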