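import Pool.Agent.Helper78.Zd.Struct

/-!
An explicit tree of strands with `M * m` strands per generation and its embedding into the
thin wedge `0 ≤ b ≤ a`, `0 ≤ c`, `c ^ q ≤ a` of `Z^3`.
-/

set_option autoImplicit false

namespace Pool.Agent.Helper78.Zd

open Equiv

/-- the wedge `0 ≤ b ≤ a`, `0 ≤ c`, `c ^ q ≤ a` of `Z^3` -/
def wedge (q : ℕ) : Set (Fin 3 → ℤ) :=
  {a | 0 ≤ a 1 ∧ a 1 ≤ a 0 ∧ 0 ≤ a 2 ∧ a 2 ^ q ≤ a 0}

namespace EmbedW

/-- base cells: time `t`, strand `a`, and the truncations of the two target coordinates -/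
@[ext]
structure BR (M m : ℕ) where
  t : ℕ
  a : Fin M × Fin m
  w1 : ℕ
  w2 : ℕ
  ht : t < 3 * M - 3
  h1 : w1 < M
  h1' : w1 ≤ t
  h2 : w2 < m
  h2' : w2 ≤ t - M

/-- the path from the root of `β` to the exit towards `c` -/
def pathF (M m : ℕ) (hM : 6 ≤ M) (β c : Fin M × Fin m) (k : ℕ) : BR M m :=
  if hk : k < 3 * M - 3 then
    ⟨k, β, min c.1 k, min c.2 (k - M), hk, by have := c.1.2; omega, by omega,
      by have := c.2.2; omega, by omega⟩ else
    ⟨0, β, 0, 0, by omega, by omega, by omega, by have := c.2.2; omega, by omega⟩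

/-- the next base cell -/
def nextF (M m : ℕ) (e : Bool) (ρ : BR M m) : BR M m ⊕ (Fin M × Fin m) :=
  if h : ρ.t + 1 < 3 * M - 3 then
    Sum.inl ⟨ρ.t + 1, ρ.a, if e = true ∧ ρ.w1 = ρ.t ∧ ρ.w1 + 1 < M then ρ.w1 + 1 else ρ.w1,
      if e = true ∧ M ≤ ρ.t ∧ ρ.w2 = ρ.t - M ∧ ρ.w2 + 1 < m then ρ.w2 + 1 else ρ.w2, h,
      by have := ρ.h1; split_ifs <;> omega, by have := ρ.h1'; split_ifs <;> omega,
      by have := ρ.h2; split_ifs <;> omega, by have := ρ.h2'; split_ifs <;> omega⟩
  else Sum.inr (⟨ρ.w1, ρ.h1⟩, ⟨ρ.w2, ρ.h2⟩)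

/-- the explicit base data -/
def bd (M m : ℕ) (hM : 6 ≤ M) (hm : m < M) : BaseData (Fin M × Fin m) (BR M m) where
  a0 ρ := ρ.a
  root c := ⟨0, c, 0, 0, by omega, by omega, by omega, by have := c.2.2; omega, by omega⟩
  next e ρ := nextF M m e ρ
  a0_root c := rfl
  a0_next := by
    intro e ρ ρ' h
    unfold nextF at h
    by_cases h0 : ρ.t + 1 < 3 * M - 3
    · rw [dif_pos h0] at h
      rw [← Sum.inl.inj h]
    · rw [dif_neg h0] at h
      cases h
  inl_inj := by
    intro e ρ₁ ρ₂ ρ' h1 h2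
    unfold nextF at h1 h2
    by_cases h3 : ρ₁.t + 1 < 3 * M - 3
    swap
    · rw [dif_neg h3] at h1
      cases h1
    by_cases h4 : ρ₂.t + 1 < 3 * M - 3
    swap
    · rw [dif_neg h4] at h2
      cases h2
    rw [dif_pos h3] at h1
    rw [dif_pos h4] at h2
    rw [← Sum.inl.inj h2] at h1
    have h5 := Sum.inl.inj h1
    simp only [BR.mk.injEq] at h5
    obtain ⟨ht, ha, hw1, hw2⟩ := h5
    have a1 := ρ₁.h1'; have a2 := ρ₂.h1'; have a3 := ρ₁.h2'; have a4 := ρ₂.h2'
    have a5 := ρ₁.h1; have a6 := ρ₂.h1; have a7 := ρ₁.h2; have a8 := ρ₂.h2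
    ext1
    · omega
    · exact ha
    · split_ifs at hw1 <;> omega
    · split_ifs at hw2 <;> omega
  inr_inj := by
    intro e ρ₁ ρ₂ c h1 h2 ha
    unfold nextF at h1 h2
    by_cases h3 : ρ₁.t + 1 < 3 * M - 3
    · rw [dif_pos h3] at h1
      cases h1
    by_cases h4 : ρ₂.t + 1 < 3 * M - 3
    · rw [dif_pos h4] at h2
      cases h2
    rw [dif_neg h3] at h1
    rw [dif_neg h4] at h2
    rw [← Sum.inr.inj h2] at h1
    have h5 := Sum.inr.inj h1
    simp only [Prod.mk.injEq, Fin.mk.injEq] at h5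
    have a1 := ρ₁.ht; have a2 := ρ₂.ht
    ext1
    · omega
    · exact ha
    · exact h5.1
    · exact h5.2
  ne_root := by
    intro e ρ c h
    unfold nextF at h
    by_cases h0 : ρ.t + 1 < 3 * M - 3
    · rw [dif_pos h0] at h
      have h5 := congrArg BR.t (Sum.inl.inj h)
      simp at h5
    · rw [dif_neg h0] at h
      cases h
  len := 3 * M
  reach := by
    intro β c
    have c1 := c.1.2
    have c2 := c.2.2
    refine ⟨3 * M - 4, by omega, pathF M m hM β c, ?_, ?_, ?_⟩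
    · unfold pathF
      rw [dif_pos (by omega)]
      ext1
      · rfl
      · rfl
      · simp
      · simp
    · intro k hk
      refine ⟨decide (k < c.1.val ∨ (M ≤ k ∧ k - M < c.2.val)), ?_⟩
      unfold pathF
      rw [dif_pos (show k < 3 * M - 3 by omega), dif_pos (show k + 1 < 3 * M - 3 by omega)]
      unfold nextF
      dsimp only
      rw [dif_pos (show k + 1 < 3 * M - 3 by omega)]
      congr 1
      ext1
      · rfl
      · rfl
      · simp only [decide_eq_true_eq]
        split_ifs <;> omega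
      · simp only [decide_eq_true_eq]
        split_ifs <;> omega
    · refine ⟨true, ?_⟩
      unfold pathF
      rw [dif_pos (show 3 * M - 4 < 3 * M - 3 by omega)]
      unfold nextF
      dsimp only
      rw [dif_neg (by omega)]
      congr 1
      refine Prod.ext (Fin.ext ?_) (Fin.ext ?_)
      · simp; omega
      · simp; omega

variable {M m : ℕ}

/-- velocity -/
def vel (w s : ℕ) : ℕ := if w = s ∧ 1 ≤ s then 1 else 0

/-- position -/
def pos (w s : ℕ) : ℕ := min w (s - 1)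

/-- type of cells -/
abbrev CC (M m : ℕ) : Type := Cell (Fin M × Fin m) (BR M m) M

/-- time -/
def KK : CC M m → ℕ
  | .base ρ => ρ.t + 3
  | .up _ c i => M * KK c + i.val

/-- velocities -/
def V1 : CC M m → ℕ
  | .base ρ => vel ρ.w1 ρ.t
  | .up _ c _ => V1 c

/-- velocities -/
def V2 : CC M m → ℕ
  | .base ρ => vel ρ.w2 (ρ.t - M)
  | .up _ c _ => V2 c

/-- activity of the second coordinate -/
def act : CC M m → ℕ
  | .base _ => 1
  | .up _ c i => if i.val < m then act c else 0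

/-- positions -/
def Z1 : CC M m → ℕ
  | .base ρ => ρ.a.1.val + M * pos ρ.w1 ρ.t
  | .up β c i => β.1.val + M * (Z1 c + i.val * V1 c)

/-- positions -/
def Z2 : CC M m → ℕ
  | .base ρ => ρ.a.2.val + m * pos ρ.w2 (ρ.t - M)
  | .up β c i => β.2.val + m * (Z2 c + min i.val m * (V2 c * act c))

lemma V_le (c : CC M m) : V1 c + V2 c ≤ 1 := by
  induction c with
  | base ρ =>
    have := ρ.h1
    simp only [V1, V2, vel]
    split_ifs <;> omega
  | up β c i ih => exact ih

lemma act_le (c : CC M m) : act c ≤ 1 := by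
  induction c with
  | base ρ => simp [act]
  | up β c i ih => simp only [act]; split_ifs <;> omega

lemma V2act_le (c : CC M m) : V2 c * act c ≤ 1 := by
  have h1 := V_le c
  have h2 := act_le c
  calc V2 c * act c ≤ 1 * 1 := Nat.mul_le_mul (by omega) h2
    _ = 1 := by norm_num

lemma minV_le (c : CC M m) (i : ℕ) : min i m * (V2 c * act c) ≤ m := by
  have h1 := V2act_le c
  calc min i m * (V2 c * act c) ≤ m * 1 := Nat.mul_le_mul (min_le_right _ _) h1
    _ = m := by omega

lemma KK_ge (hM : 6 ≤ M) (c : CC M m) : 3 ≤ KK c := by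
  induction c with
  | base ρ => simp [KK]
  | up β c i ih => simp only [KK]; nlinarith

lemma KK_up (hM : 6 ≤ M) (β : Fin M × Fin m) (c : CC M m) (i : ZMod M) :
    3 * M ≤ KK (.up β c i) := by
  have := KK_ge hM c
  simp only [KK]
  nlinarith

lemma KK_base (ρ : BR M m) : KK (.base ρ : CC M m) < 3 * M := by
  have := ρ.ht
  simp only [KK]
  omega

lemma digit {m : ℕ} (hM : 0 < m) {x y a b : ℕ} (ha : a < m) (hb : b < m)
    (h : a + m * x = b + m * y) : a = b ∧ x = y := by
  have h1 := congrArg (· % m) h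
  simp only [Nat.add_mul_mod_self_left, Nat.mod_eq_of_lt ha, Nat.mod_eq_of_lt hb] at h1
  subst h1
  have h2 : m * x = m * y := by omega
  exact ⟨rfl, Nat.eq_of_mul_eq_mul_left hM h2⟩

lemma V_det [NeZero M] (hM : 6 ≤ M) (c : CC M m) : ∀ c' : CC M m, KK c = KK c' →
    V1 c + V2 c = V1 c' + V2 c' → V1 c = V1 c' ∧ V2 c = V2 c' ∧ act c = act c' := by
  induction c with
  | base ρ =>
    intro c' hK hV
    cases c' with
    | base ρ' =>
      have a1 := ρ.h1; have a2 := ρ'.h1
      simp only [KK] at hK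
      have key : V1 (.base ρ : CC M m) = V1 (.base ρ' : CC M m) ∧
          V2 (.base ρ : CC M m) = V2 (.base ρ' : CC M m) := by
        simp only [V1, V2, vel] at hV ⊢
        split_ifs at hV ⊢ <;> omega
      exact ⟨key.1, key.2, rfl⟩
    | up β c i =>
      have := KK_up hM β c i
      have := KK_base ρ
      omega
  | up β c i ih =>
    intro c' hK hV
    cases c' with
    | base ρ' =>
      have := KK_up hM β c i
      have := KK_base ρ'
      omega
    | up β' c' i' =>
      simp only [KK] at hK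
      have h := digit (by omega) (ZMod.val_lt i) (ZMod.val_lt i')
        (show i.val + M * KK c = i'.val + M * KK c' by omega)
      obtain ⟨h1, h2, h3⟩ := ih c' h.2 hV
      refine ⟨h1, h2, ?_⟩
      simp only [act, h.1, h3]

lemma cell_inj [NeZero M] (hM : 6 ≤ M) (c : CC M m) : ∀ c' : CC M m, KK c = KK c' →
    V1 c + V2 c = V1 c' + V2 c' → Z1 c = Z1 c' → Z2 c = Z2 c' → c = c' := by
  induction c with
  | base ρ =>
    intro c' hK hV hZ1 hZ2
    cases c' with
    | base ρ' =>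
      obtain ⟨hv1, hv2, hv3⟩ := V_det hM _ _ hK hV
      simp only [Z1, Z2] at hZ1 hZ2
      obtain ⟨ha1, hp1⟩ := digit (by omega) ρ.a.1.2 ρ'.a.1.2 hZ1
      obtain ⟨ha2, hp2⟩ := digit (by have := ρ.h2; omega) ρ.a.2.2 ρ'.a.2.2 hZ2
      simp only [KK] at hK
      simp only [V1, V2, vel] at hv1 hv2
      simp only [pos] at hp1 hp2
      have a1 := ρ.h1'; have a2 := ρ'.h1'; have a3 := ρ.h2'; have a4 := ρ'.h2'
      congr 1
      ext1
      · omega
      · exact Prod.ext (Fin.ext ha1) (Fin.ext ha2)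
      · split_ifs at hv1 <;> omega
      · split_ifs at hv2 <;> omega
    | up β c i =>
      have := KK_up hM β c i
      have := KK_base ρ
      omega
  | up β c i ih =>
    intro c' hK hV hZ1 hZ2
    cases c' with
    | base ρ' =>
      have := KK_up hM β c i
      have := KK_base ρ'
      omega
    | up β' c' i' =>
      simp only [KK] at hK
      have h := digit (by omega) (ZMod.val_lt i) (ZMod.val_lt i')
        (show i.val + M * KK c = i'.val + M * KK c' by omega)
      obtain ⟨hi, hKc⟩ := h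
      have hi' : i = i' := ZMod.val_injective M hi
      subst hi'
      have hV' : V1 c + V2 c = V1 c' + V2 c' := hV
      obtain ⟨hv1, hv2, hv3⟩ := V_det hM _ _ hKc hV'
      simp only [Z1, Z2] at hZ1 hZ2
      obtain ⟨ha1, hp1⟩ := digit (by omega) β.1.2 β'.1.2 hZ1
      obtain ⟨ha2, hp2⟩ := digit (by have := β.2.2; omega) β.2.2 β'.2.2 hZ2
      rw [hv1] at hp1
      rw [hv2, hv3] at hp2
      have := ih c' hKc hV' (by omega) (by omega)
      rw [this, Prod.ext (Fin.ext ha1) (Fin.ext ha2)]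

lemma val_last [NeZero M] (i : ZMod M) (h : i + 1 = 0) : i.val + 1 = M := by
  have h0 : i = -1 := eq_neg_of_add_eq_zero_left h
  rw [h0]
  obtain ⟨m, rfl⟩ : ∃ m, M = m + 1 := ⟨M - 1, by have := NeZero.pos M; omega⟩
  rw [ZMod.val_neg_one]

lemma val_succ [NeZero M] (hM : 1 < M) (i : ZMod M) (h : ¬ i + 1 = 0) :
    (i + 1).val = i.val + 1 := by
  have hlt : i.val + 1 < M := by
    have h1 := ZMod.val_lt i
    rcases Nat.lt_or_ge (i.val + 1) M with h2 | h2
    · exact h2
    · exfalso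
      apply h
      have h3 : i.val + 1 = M := by omega
      have h4 : ((i.val + 1 : ℕ) : ZMod M) = 0 := by rw [h3]; simp
      simpa using h4
  have : Fact (1 < M) := ⟨hM⟩
  rw [ZMod.val_add, ZMod.val_one, Nat.mod_eq_of_lt hlt]

lemma min_step (j m : ℕ) (x : ℕ) : min (j + 1) m * x = min j m * x + if j < m then x else 0 := by
  split_ifs with h
  · rw [min_eq_left (by omega), min_eq_left (by omega)]
    ring
  · rw [min_eq_right (by omega), min_eq_right (by omega)]
    omega

/-- one step along the cells -/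
lemma step [NeZero M] (hM : 6 ≤ M) (hm : m < M) (e : Bool) (c : CC M m) :
    KK ((bd M m hM hm).nx e c) = KK c + 1 ∧ Z1 ((bd M m hM hm).nx e c) = Z1 c + M * V1 c ∧
      Z2 ((bd M m hM hm).nx e c) = Z2 c + m * (V2 c * act c) := by
  induction c with
  | base ρ =>
    rw [BaseData.nx]
    have a1 := ρ.h1'; have a2 := ρ.h2'; have a3 := ρ.ht; have a4 := ρ.h2
    by_cases h : ρ.t + 1 < 3 * M - 3
    · have hn : (bd M m hM hm).next e ρ = Sum.inl ⟨ρ.t + 1, ρ.a,
        if e = true ∧ ρ.w1 = ρ.t ∧ ρ.w1 + 1 < M then ρ.w1 + 1 else ρ.w1,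
        if e = true ∧ M ≤ ρ.t ∧ ρ.w2 = ρ.t - M ∧ ρ.w2 + 1 < m then ρ.w2 + 1 else ρ.w2, h,
        by have := ρ.h1; split_ifs <;> omega, by have := ρ.h1'; split_ifs <;> omega,
        by have := ρ.h2; split_ifs <;> omega, by have := ρ.h2'; split_ifs <;> omega⟩ := by
        simp only [bd, nextF]; rw [dif_pos h]
      rw [hn]
      simp only [KK, Z1, Z2, V1, V2, vel, pos, act]
      refine ⟨trivial, ?_, ?_⟩
      · rw [add_assoc (ρ.a.1.val), ← mul_add]
        have : min (if e = true ∧ ρ.w1 = ρ.t ∧ ρ.w1 + 1 < M then ρ.w1 + 1 else ρ.w1)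
          (ρ.t + 1 - 1) = min ρ.w1 (ρ.t - 1) + if ρ.w1 = ρ.t ∧ 1 ≤ ρ.t then 1 else 0 := by
          split_ifs <;> omega
        rw [this]
      · rw [add_assoc (ρ.a.2.val), ← mul_add]
        have : min (if e = true ∧ M ≤ ρ.t ∧ ρ.w2 = ρ.t - M ∧ ρ.w2 + 1 < m then ρ.w2 + 1
          else ρ.w2) (ρ.t + 1 - M - 1) =
          min ρ.w2 (ρ.t - M - 1) +
            (if ρ.w2 = ρ.t - M ∧ 1 ≤ ρ.t - M then 1 else 0) * 1 := by
          split_ifs <;> omega
        rw [this]
    · have hn : (bd M m hM hm).next e ρ = Sum.inr (⟨ρ.w1, ρ.h1⟩, ⟨ρ.w2, ρ.h2⟩) := by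
        simp only [bd, nextF]; rw [dif_neg h]
      rw [hn]
      simp only [KK, Z1, Z2, V1, V2, vel, pos, bd, ZMod.val_zero, act]
      refine ⟨by omega, ?_, ?_⟩
      · rw [add_assoc (ρ.a.1.val), ← mul_add]
        have : ρ.w1 = min ρ.w1 (ρ.t - 1) + if ρ.w1 = ρ.t ∧ 1 ≤ ρ.t then 1 else 0 := by
          split_ifs <;> omega
        rw [← this]
        simp
      · rw [add_assoc (ρ.a.2.val), ← mul_add]
        have : ρ.w2 = min ρ.w2 (ρ.t - M - 1) +
            (if ρ.w2 = ρ.t - M ∧ 1 ≤ ρ.t - M then 1 else 0) * 1 := by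
          split_ifs <;> omega
        rw [← this]
        simp
  | up β c i ih =>
    rw [BaseData.nx]
    by_cases h : i + 1 = 0
    · rw [if_pos h]
      obtain ⟨h1, h2, h3⟩ := ih
      have hi : i.val + 1 = M := val_last i h
      simp only [KK, Z1, Z2, V1, V2, ZMod.val_zero, h1, h2, h3, act]
      refine ⟨by rw [mul_add]; omega, ?_, ?_⟩
      · have h4 : M * V1 c = i.val * V1 c + V1 c := by
          rw [← Nat.succ_mul]; rw [Nat.succ_eq_add_one, hi]
        have h5 := congrArg (M * ·) h4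
        simp only [mul_add] at h5 ⊢
        omega
      · rw [if_neg (show ¬ i.val < m by omega), min_eq_right (show m ≤ i.val by omega)]
        simp
    · rw [if_neg h]
      have hi : (i + 1).val = i.val + 1 := val_succ (by omega) i h
      simp only [KK, Z1, Z2, V1, V2, hi, act]
      refine ⟨by omega, by ring, ?_⟩
      rw [min_step]
      split_ifs <;> ring

/-- the embedding -/
def Phi (x : Node (Fin M × Fin m) (BR M m) M × Fin 6) : Fin 3 → ℤ :=
  ![(6 * (M * KK x.1.1 + x.1.2.val) + x.2.val : ℕ), (Z1 x.1.1 + x.1.2.val * V1 x.1.1 : ℕ),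
    (2 * (Z2 x.1.1 + min x.1.2.val m * (V2 x.1.1 * act x.1.1)) + (V1 x.1.1 + V2 x.1.1) : ℕ)]

lemma Phi_inj [NeZero M] (hM : 6 ≤ M) : Function.Injective (Phi (M := M) (m := m)) := by
  rintro ⟨⟨c, i⟩, v⟩ ⟨⟨c', i'⟩, v'⟩ h
  have h0 := congrFun h 0
  have h1 := congrFun h 1
  have h2 := congrFun h 2
  simp only [Phi, Matrix.cons_val_zero, Matrix.cons_val_one, Matrix.cons_val, Nat.cast_inj] at h0 h1 h2
  have a1 := V_le c
  have a2 := V_le c'
  have hv := v.2
  have hv' := v'.2
  have h3 : v.val = v'.val ∧ M * KK c + i.val = M * KK c' + i'.val := by omega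
  obtain ⟨h4, h5⟩ := h3
  obtain ⟨hi, hK⟩ := digit (by omega) (ZMod.val_lt i) (ZMod.val_lt i')
        (show i.val + M * KK c = i'.val + M * KK c' by omega)
  have hi' : i = i' := ZMod.val_injective M hi
  subst hi'
  have h6 : V1 c + V2 c = V1 c' + V2 c' := by omega
  obtain ⟨hv1, hv2, hv3⟩ := V_det hM _ _ hK h6
  rw [hv1] at h1
  rw [hv2, hv3] at h2
  rw [cell_inj hM c c' hK h6 (by omega) (by rw [hv1] at h2; omega), Fin.ext h4]

lemma Z1_le [NeZero M] (hM : 6 ≤ M) (c : CC M m) : Z1 c + M ≤ M * KK c := by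
  induction c with
  | base ρ =>
    have a0 := ρ.a.1.2
    have a1 : pos ρ.w1 ρ.t ≤ ρ.t := by have := ρ.h1'; unfold pos; omega
    have a2 := Nat.mul_le_mul_left M a1
    simp only [Z1, KK, mul_add]
    omega
  | up β c i ih =>
    have a0 := β.1.2
    have a1 := V_le c
    have a2 : i.val * V1 c ≤ i.val := by
      calc i.val * V1 c ≤ i.val * 1 := Nat.mul_le_mul_left _ (by omega)
        _ = i.val := by omega
    have a3 : M * (Z1 c + i.val * V1 c + M) ≤ M * (M * KK c + i.val) :=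
      Nat.mul_le_mul_left M (by omega)
    have a4 : 6 * M ≤ M * M := Nat.mul_le_mul_right M hM
    simp only [Z1, KK]
    rw [mul_add] at a3
    omega

lemma Z2_base (hm : 3 ≤ m) (ρ : BR M m) : Z2 (.base ρ : CC M m) + m + 3 ≤ m ^ 3 := by
  have a0 := ρ.a.2.2
  have a1 : pos ρ.w2 (ρ.t - M) + 1 ≤ m := by have := ρ.h2; unfold pos; omega
  have a2 := Nat.mul_le_mul_left m a1
  have a3 : 3 * (m * m) ≤ m ^ 3 := by
    rw [show m ^ 3 = m * (m * m) by ring]
    exact Nat.mul_le_mul_right _ hm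
  have a4 : 3 * m ≤ m * m := Nat.mul_le_mul_right m hm
  simp only [Z2]
  rw [mul_add] at a2
  omega

lemma Z2_up (hm : 3 ≤ m) (β : Fin M × Fin m) (c : CC M m) (i : ZMod M) :
    Z2 (.up β c i) + m + 3 ≤ m * (Z2 c + m + 3) := by
  have a0 := β.2.2
  have a1 := minV_le c i.val
  have a2 := Nat.mul_le_mul_left m a1
  simp only [Z2, mul_add] at a2 ⊢
  omega

lemma T_le (hm : 3 ≤ m) (q : ℕ) (hq : m ^ q ≤ M) (hM : 6 ≤ M) (c : CC M m) :
    (Z2 c + m + 3) ^ q ≤ m ^ (3 * q) * KK c := by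
  induction c with
  | base ρ =>
    have h1 := Nat.pow_le_pow_left (Z2_base hm ρ) q
    have h2 := KK_ge hM (.base ρ : CC M m)
    rw [← pow_mul] at h1
    calc _ ≤ m ^ (3 * q) * 1 := by simpa using h1
      _ ≤ _ := Nat.mul_le_mul_left _ (by omega)
  | up β c i ih =>
    have h1 := Nat.pow_le_pow_left (Z2_up hm β c i) q
    rw [mul_pow] at h1
    calc _ ≤ m ^ q * (Z2 c + m + 3) ^ q := h1
      _ ≤ M * (m ^ (3 * q) * KK c) := Nat.mul_le_mul hq ih
      _ = m ^ (3 * q) * (M * KK c) := by ring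
      _ ≤ m ^ (3 * q) * KK (.up β c i) := by
        refine Nat.mul_le_mul_left _ ?_
        simp only [KK]
        omega

lemma Phi_mem [NeZero M] (hm : 3 ≤ m) (q : ℕ) (hq : m ^ (4 * q) ≤ M) (hM : 6 ≤ M)
    (y : Node (Fin M × Fin m) (BR M m) M × Fin 6) : Phi y ∈ wedge q := by
  obtain ⟨⟨c, i⟩, v⟩ := y
  have a1 := V_le c
  have a2 := minV_le c i.val
  have a3 := Z1_le hM c
  have a4 : i.val * V1 c ≤ i.val := by
    calc i.val * V1 c ≤ i.val * 1 := Nat.mul_le_mul_left _ (by omega)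
      _ = i.val := by omega
  have hq1 : m ^ q ≤ M := le_trans (Nat.pow_le_pow_right (by omega) (by omega)) hq
  have a5 := T_le hm q hq1 hM c
  have a6 : 2 * (Z2 c + min i.val m * (V2 c * act c)) + (V1 c + V2 c) ≤ m * (Z2 c + m + 3) := by
    calc _ ≤ 3 * (Z2 c + m + 3) := by omega
      _ ≤ _ := Nat.mul_le_mul_right _ hm
  have a7 : (2 * (Z2 c + min i.val m * (V2 c * act c)) + (V1 c + V2 c)) ^ q ≤
      6 * (M * KK c + i.val) + v.val := by
    calc _ ≤ (m * (Z2 c + m + 3)) ^ q := Nat.pow_le_pow_left a6 q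
      _ = m ^ q * (Z2 c + m + 3) ^ q := mul_pow _ _ _
      _ ≤ m ^ q * (m ^ (3 * q) * KK c) := Nat.mul_le_mul_left _ a5
      _ = m ^ (4 * q) * KK c := by rw [← mul_assoc, ← pow_add]; congr 2; ring
      _ ≤ M * KK c := Nat.mul_le_mul_right _ hq
      _ ≤ _ := by omega
  refine ⟨?_, ?_, ?_, ?_⟩
  · simp only [Phi, Matrix.cons_val_one, Matrix.cons_val_zero]
    exact Int.natCast_nonneg _
  · simp only [Phi, Matrix.cons_val_one, Matrix.cons_val_zero]
    exact_mod_cast (by omega : Z1 c + i.val * V1 c ≤ 6 * (M * KK c + i.val) + v.val)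
  · simp only [Phi, Matrix.cons_val]
    exact Int.natCast_nonneg _
  · simp only [Phi, Matrix.cons_val, Matrix.cons_val_zero]
    exact_mod_cast a7

end EmbedW

open EmbedW in
theorem embed_wedge (C : ℝ) (q : ℕ) : ∃ (B R : Type) (_ : Fintype B) (_ : Nonempty B) (M : ℕ)
    (_ : NeZero M) (D : BaseData B R) (Φ : Node B R M × Fin 6 → (Fin 3 → ℤ)) (K : ℤ),
    2 ∣ M ∧ 3 ∣ M ∧ 6 ≤ M ∧ C * M ≤ Fintype.card B ∧ Function.Injective Φ ∧
    (∀ y, Φ y ∈ wedge q) ∧
    (∀ s v v' i, |Φ (s, v) i - Φ (s, v') i| ≤ K) ∧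
    (∀ e s v v' i, |Φ (s, v) i - Φ (D.ns e s, v') i| ≤ K) := by
  obtain ⟨k, hk⟩ := exists_nat_ge C
  obtain ⟨m, hmk⟩ : ∃ m, m = 6 * (k + 1) := ⟨_, rfl⟩
  obtain ⟨M, hMk⟩ : ∃ M, M = m ^ (4 * q + 2) := ⟨_, rfl⟩
  have hm6 : 6 ≤ m := by omega
  have hm2 : m * m ≤ M := by
    rw [hMk, pow_add]
    calc m * m = 1 * m ^ 2 := by ring
      _ ≤ m ^ (4 * q) * m ^ 2 := Nat.mul_le_mul_right _ (Nat.one_le_pow _ _ (by omega))
  have hmM : m < M := by nlinarith
  have hM : 6 ≤ M := by omega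
  have hq : m ^ (4 * q) ≤ M := by
    rw [hMk]
    exact Nat.pow_le_pow_right (by omega) (by omega)
  have hdvd : m ∣ M := by rw [hMk]; exact dvd_pow_self m (by omega)
  have : NeZero M := ⟨by omega⟩
  have : Nonempty (Fin M) := ⟨⟨0, by omega⟩⟩
  have : Nonempty (Fin m) := ⟨⟨0, by omega⟩⟩
  refine ⟨Fin M × Fin m, BR M m, inferInstance, inferInstance, M, inferInstance, bd M m hM hmM,
    Phi, 20, dvd_trans ⟨3 * (k + 1), by omega⟩ hdvd, dvd_trans ⟨2 * (k + 1), by omega⟩ hdvd,
    hM, ?_, Phi_inj hM, Phi_mem (by omega) q hq hM, ?_, ?_⟩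
  · have h1 : C ≤ m := by
      have : (k : ℝ) ≤ m := by exact_mod_cast (by omega : k ≤ m)
      linarith
    simp only [Fintype.card_prod, Fintype.card_fin]
    push_cast
    rw [mul_comm (M : ℝ) m]
    exact mul_le_mul_of_nonneg_right h1 (Nat.cast_nonneg M)
  · intro s v v' i
    have hv := v.2
    have hv' := v'.2
    fin_cases i <;> simp [Phi] <;> rw [abs_le] <;> constructor <;> omega
  · rintro e ⟨c, j⟩ v v' i
    have hv := v.2
    have hv' := v'.2
    have a1 := V_le c
    have b1 := V2act_le c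
    by_cases h : j + 1 = 0
    · have hn : (bd M m hM hmM).ns e (c, j) = ((bd M m hM hmM).nx e c, 0) := by
        unfold BaseData.ns; rw [if_pos h]
      rw [hn]
      obtain ⟨h1, h2, h3⟩ := step hM hmM e c
      have a2 := V_le ((bd M m hM hmM).nx e c)
      have hj : j.val + 1 = M := val_last j h
      have h4 : M * V1 c = j.val * V1 c + V1 c := by
        rw [← Nat.succ_mul]; rw [Nat.succ_eq_add_one, hj]
      have h5 : min j.val m = m := min_eq_right (by omega)
      have h6 : M * KK ((bd M m hM hmM).nx e c) = M * KK c + M := by rw [h1]; ring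
      fin_cases i
      · simp only [Phi, Fin.zero_eta, Matrix.cons_val_zero, ZMod.val_zero]
        rw [abs_le]; constructor <;> omega
      · simp only [Phi, Fin.mk_one, Matrix.cons_val_one, Matrix.cons_val_zero, ZMod.val_zero,
          zero_mul]
        rw [abs_le]; constructor <;> omega
      · simp only [Phi, Fin.reduceFinMk, Matrix.cons_val, ZMod.val_zero, h5, h3]
        rw [abs_le]; constructor <;> (simp; omega)
    · have hn : (bd M m hM hmM).ns e (c, j) = (c, j + 1) := by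
        unfold BaseData.ns; rw [if_neg h]
      rw [hn]
      have hj : (j + 1).val = j.val + 1 := val_succ (by omega) j h
      have h4 : (j.val + 1) * V1 c = j.val * V1 c + V1 c := by ring
      have h5 := min_step j.val m (V2 c * act c)
      fin_cases i
      · simp only [Phi, Fin.zero_eta, Matrix.cons_val_zero, hj]
        rw [abs_le]; constructor <;> omega
      · simp only [Phi, Fin.mk_one, Matrix.cons_val_one, Matrix.cons_val_zero, hj, h4]
        rw [abs_le]; constructor <;> omega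
      · simp only [Phi, Fin.reduceFinMk, Matrix.cons_val, hj, h5]
        split_ifs <;> rw [abs_le] <;> constructor <;> omega

end Pool.Agent.Helper78.Zd
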