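import Mathlib

/-! The grid graph. -/

set_option autoImplicit false

namespace Pool.Agent.Helper78.Zd

/-- the grid graph `Z^d` -/
def grid (d : ℕ) : SimpleGraph (Fin d → ℤ) where
  Adj a b := ∑ i, |a i - b i| = 1
  symm := ⟨fun a b h => by rw [← h]; exact Finset.sum_congr rfl fun i _ => abs_sub_comm _ _⟩
  loopless := ⟨fun a h => by simp at h⟩

lemma grid_walk (d : ℕ) (n : ℕ) : ∀ a b : Fin d → ℤ, ∑ i, |a i - b i| = n →
    ∃ w : (grid d).Walk a b, w.length = n := by
  induction n with
  | zero =>
    intro a b h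
    have h1 : a = b := by
      funext i
      have h2 : ∑ i, |a i - b i| = 0 := by simpa using h
      rw [Finset.sum_eq_zero_iff_of_nonneg (fun i _ => abs_nonneg _)] at h2
      have h3 := h2 i (Finset.mem_univ i)
      rw [abs_eq_zero, sub_eq_zero] at h3
      exact h3
    subst h1
    exact ⟨SimpleGraph.Walk.nil, rfl⟩
  | succ n ih =>
    intro a b h
    have h1 : ∃ i, a i ≠ b i := by
      by_contra hcon
      push Not at hcon
      have h2 : ∑ i, |a i - b i| = 0 := by
        apply Finset.sum_eq_zero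
        intro i _
        rw [hcon i]
        simp
      rw [h2] at h
      push_cast at h
      omega
    obtain ⟨i, hi⟩ := h1
    -- move one step in the coordinate `i`
    obtain ⟨s, hs1, hs2⟩ : ∃ s : ℤ, |s| = 1 ∧ |a i + s - b i| = |a i - b i| - 1 := by
      rcases lt_or_gt_of_ne hi with h2 | h2
      · refine ⟨1, by simp, ?_⟩
        rw [abs_of_nonpos (by omega), abs_of_neg (by omega)]
        ring
      · refine ⟨-1, by simp, ?_⟩
        rw [abs_of_nonneg (by omega), abs_of_pos (by omega)]
        ring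
    set a' : Fin d → ℤ := Function.update a i (a i + s) with ha'
    have h3 : ∑ j, |a' j - b j| = n := by
      have h4 : ∀ j ∈ Finset.univ.erase i, |a' j - b j| = |a j - b j| := by
        intro j hj
        rw [ha', Function.update_of_ne (Finset.ne_of_mem_erase hj)]
      rw [← Finset.add_sum_erase _ _ (Finset.mem_univ i)] at h ⊢
      rw [Finset.sum_congr rfl h4, ha', Function.update_self, hs2]
      push_cast at h
      linarith
    have h5 : (grid d).Adj a a' := by
      show ∑ j, |a j - a' j| = 1
      rw [← Finset.add_sum_erase _ _ (Finset.mem_univ i), Finset.sum_eq_zero]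
      · rw [ha', Function.update_self, add_zero]
        have : a i - (a i + s) = -s := by ring
        rw [this, abs_neg, hs1]
      · intro j hj
        rw [ha', Function.update_of_ne (Finset.ne_of_mem_erase hj)]
        simp
    obtain ⟨w, hw⟩ := ih a' b h3
    exact ⟨SimpleGraph.Walk.cons h5 w, by rw [SimpleGraph.Walk.length_cons, hw]⟩

lemma grid_walk' (d : ℕ) (a b : Fin d → ℤ) :
    ∃ w : (grid d).Walk a b, (w.length : ℤ) = ∑ i, |a i - b i| := by
  have h1 : 0 ≤ ∑ i, |a i - b i| := Finset.sum_nonneg fun i _ => abs_nonneg _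
  obtain ⟨n, hn⟩ := Int.eq_ofNat_of_zero_le h1
  obtain ⟨w, hw⟩ := grid_walk d n a b hn
  exact ⟨w, by rw [hw, hn]⟩

theorem grid_connected (d : ℕ) : (grid d).Connected := by
  have : Nonempty (Fin d → ℤ) := ⟨0⟩
  refine ⟨fun a b => ?_⟩
  obtain ⟨w, _⟩ := grid_walk' d a b
  exact ⟨w⟩

theorem grid_dist (d : ℕ) (a b : Fin d → ℤ) : ((grid d).dist a b : ℤ) ≤ ∑ i, |a i - b i| := by
  obtain ⟨w, hw⟩ := grid_walk' d a b
  rw [← hw]
  exact_mod_cast SimpleGraph.dist_le w

end Pool.Agent.Helper78.Zd
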