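import Pool.Agent.Helper78.Zd.Reiter
import Pool.Agent.Helper78.Zd.Embed
import Pool.Agent.Helper78.Zd.DropLimit
import Pool.Agent.Helper78.Zd.Grid

/-! The final argument. -/

set_option autoImplicit false

namespace Pool.Agent.Helper78.Zd

open Equiv

/-- extensive amenability of the action of the wobbling group (mean as in the frozen statement) -/
def ExtAm {X : Type} (G : SimpleGraph X) : Prop :=
  ∃ μ : Set (X →₀ ZMod 2) → ℝ,
    (∀ A, 0 ≤ μ A) ∧ μ Set.univ = 1 ∧
    (∀ A B, Disjoint A B → μ (A ∪ B) = μ A + μ B) ∧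
    (∀ (f : X →₀ ZMod 2) (A : Set (X →₀ ZMod 2)),
        μ ((fun h : X →₀ ZMod 2 => f + h) ⁻¹' A) = μ A) ∧
    (∀ σ : Equiv.Perm X, (∃ C : ℕ, ∀ x : X, G.dist x (σ x) ≤ C) →
        ∀ A : Set (X →₀ ZMod 2),
          μ ((fun h : X →₀ ZMod 2 => Finsupp.equivMapDomain σ h) ⁻¹' A) = μ A)

/-- the statement of `limit` -/
def LimitProp : Prop := ∃ C : ℝ, 1 ≤ C ∧ ∀ (B R : Type) (M : ℕ) [Fintype B] [Nonempty B] [NeZero M]
    (D : BaseData B R) (h2 : 2 ∣ M) (_ : 3 ∣ M) (_ : 6 ≤ M) (_ : C * M ≤ Fintype.card B),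
    ∃ η : ℝ, 0 < η ∧ ∀ (H : Type) [NormedAddCommGroup H] [InnerProductSpace ℝ H]
      (ρ : Perm (Node B R M × Fin 6) →* (H ≃ₗᵢ[ℝ] H)) (f : H)
      (Q : Node B R M × Fin 6 → H → H) (_ : ∀ y u v, ‖Q y u - Q y v‖ ≤ ‖u - v‖)
      (_ : ∀ g y u, Q (g y) (ρ g u) = ρ g (Q y u)),
      Pre D h2 ρ f η → (∀ β : B, 1 / 2 ≤ ‖Q ((.base (D.root β), 0), 0) f‖) →
      ∀ n : ℕ, ∃ y : Node B R M × Fin 6, depth y.1.1 = n ∧ 1 / 4 ≤ ‖Q y f‖

/-! ### the restriction operators -/

section restr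

variable {Y : Type}

/-- the permutation action on finitely supported configurations -/
noncomputable def permOm (Y : Type) : Perm Y →* Perm (Y →₀ ZMod 2) where
  toFun g := Finsupp.equivCongrLeft g
  map_one' := by
    ext u y; rfl
  map_mul' g h := by
    ext u y; rfl

theorem permOm_apply (g : Perm Y) (u : Y →₀ ZMod 2) (y : Y) : permOm Y g u y = u (g⁻¹ y) := rfl

theorem permOm_inv_apply (g : Perm Y) (u : Y →₀ ZMod 2) (y : Y) :
    (permOm Y g)⁻¹ u y = u (g y) := by
  rw [← map_inv, permOm_apply, inv_inv]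

open Classical in
/-- restriction of a vector to the configurations containing `y` -/
noncomputable def Qr (y : Y) (u : L2 (Y →₀ ZMod 2)) : L2 (Y →₀ ZMod 2) :=
  ⟨fun h => if h y = 0 then 0 else (u : (Y →₀ ZMod 2) → ℝ) h, by
    refine Memℓp.mono' u.2 (F := fun _ => ℝ) ?_
    intro h
    split_ifs <;> simp⟩

open Classical in
theorem Qr_apply (y : Y) (u : L2 (Y →₀ ZMod 2)) (h : Y →₀ ZMod 2) :
    (Qr y u : (Y →₀ ZMod 2) → ℝ) h = if h y = 0 then 0 else (u : (Y →₀ ZMod 2) → ℝ) h := rfl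

theorem Qr_contr (y : Y) (u v : L2 (Y →₀ ZMod 2)) : ‖Qr y u - Qr y v‖ ≤ ‖u - v‖ := by
  apply lp.norm_mono (by norm_num)
  intro h
  rw [lp.coeFn_sub, lp.coeFn_sub, Pi.sub_apply, Pi.sub_apply, Qr_apply, Qr_apply]
  split_ifs <;> simp

theorem Qr_equiv (g : Perm Y) (y : Y) (u : L2 (Y →₀ ZMod 2)) :
    Qr (g y) (l2rep _ (permOm Y g) u) = l2rep _ (permOm Y g) (Qr y u) := by
  apply lp.ext
  funext h
  rw [Qr_apply, l2rep_apply, l2rep_apply, Qr_apply, permOm_inv_apply]

/-- flipping the value at `y` -/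
noncomputable def flip (y : Y) : Perm (Y →₀ ZMod 2) := Equiv.addLeft (Finsupp.single y 1)

theorem flip_inv_apply (y : Y) (h : Y →₀ ZMod 2) : (flip y)⁻¹ h = -(Finsupp.single y 1) + h := rfl

theorem Qr_flip (y : Y) (u : L2 (Y →₀ ZMod 2)) :
    l2rep _ (flip y) (u - Qr y u) = Qr y (l2rep _ (flip y) u) := by
  apply lp.ext
  funext h
  rw [Qr_apply, l2rep_apply, l2rep_apply, lp.coeFn_sub, Pi.sub_apply, Qr_apply]
  have h1 : ((flip y)⁻¹ h) y = -1 + h y := by
    rw [flip_inv_apply]; simp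
  rw [h1]
  have h2 : ∀ a : ZMod 2, (-1 + a = 0) ↔ ¬ (a = 0) := by decide
  by_cases h3 : h y = 0
  · rw [if_pos h3, if_neg (by rw [h2]; simpa using h3)]; simp
  · rw [if_neg h3, if_pos ((h2 _).2 h3)]; simp

theorem half_bound (y : Y) (f : L2 (Y →₀ ZMod 2)) (hf : ‖f‖ = 1)
    (h : ‖l2rep _ (flip y) f - f‖ ≤ 1 / 3) : 1 / 2 ≤ ‖Qr y f‖ := by
  have h1 : ‖f - Qr y f‖ ≤ ‖Qr y f‖ + 1 / 3 := by
    have e1 : ‖f - Qr y f‖ = ‖Qr y (l2rep _ (flip y) f)‖ := by
      rw [← Qr_flip]
      exact ((l2rep _ (flip y)).norm_map _).symm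
    rw [e1]
    have e2 : Qr y (l2rep _ (flip y) f) = Qr y f + (Qr y (l2rep _ (flip y) f) - Qr y f) := by abel
    rw [e2]
    refine (norm_add_le _ _).trans ?_
    gcongr
    exact (Qr_contr y _ _).trans h
  have h2 : inner ℝ (Qr y f) (f - Qr y f) = 0 := by
    rw [lp.inner_eq_tsum]
    have : ∀ i : Y →₀ ZMod 2, inner ℝ ((Qr y f : (Y →₀ ZMod 2) → ℝ) i)
        ((f - Qr y f : L2 (Y →₀ ZMod 2)) i) = 0 := by
      intro i
      rw [lp.coeFn_sub, Pi.sub_apply, Qr_apply]
      split_ifs <;> simp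
    exact (tsum_congr this).trans tsum_zero
  have h3 : ‖f‖ ^ 2 = ‖Qr y f‖ ^ 2 + ‖f - Qr y f‖ ^ 2 := by
    have e : f = Qr y f + (f - Qr y f) := by abel
    conv_lhs => rw [e]
    rw [norm_add_sq_real, h2]; ring
  rw [hf] at h3
  by_contra hcon
  push Not at hcon
  have h4 := norm_nonneg (Qr y f)
  have h5 := norm_nonneg (f - Qr y f)
  nlinarith

end restr

/-- the main argument for a tree of strands mapped into a graph -/
theorem final_tree (B R : Type) (M : ℕ) [Fintype B] [Nonempty B] [NeZero M] (D : BaseData B R)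
    (h2 : 2 ∣ M) (η : ℝ) (hη : 0 < η)
    (hlim : ∀ (H : Type) [NormedAddCommGroup H] [InnerProductSpace ℝ H]
      (ρ : Perm (Node B R M × Fin 6) →* (H ≃ₗᵢ[ℝ] H)) (f : H)
      (Q : Node B R M × Fin 6 → H → H) (_ : ∀ y u v, ‖Q y u - Q y v‖ ≤ ‖u - v‖)
      (_ : ∀ g y u, Q (g y) (ρ g u) = ρ g (Q y u)),
      Pre D h2 ρ f η → (∀ β : B, 1 / 2 ≤ ‖Q ((.base (D.root β), 0), 0) f‖) →
      ∀ n : ℕ, ∃ y : Node B R M × Fin 6, depth y.1.1 = n ∧ 1 / 4 ≤ ‖Q y f‖)
    (X : Type) (G : SimpleGraph X) (Θ : Node B R M × Fin 6 → X) (hΘ : Function.Injective Θ)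
    (K : ℕ) (hK1 : ∀ s v v', G.dist (Θ (s, v)) (Θ (s, v')) ≤ K)
    (hK2 : ∀ e s v v', G.dist (Θ (s, v)) (Θ (D.ns e s, v')) ≤ K) : ¬ ExtAm G := by
  classical
  rintro ⟨μ, h0, h1, hadd, hT, hσ⟩
  let Y : Type := Node B R M × Fin 6
  let ι : Y ↪ X := ⟨Θ, hΘ⟩
  let π : (X →₀ ZMod 2) → (Y →₀ ZMod 2) := fun h => h.comapDomain Θ hΘ.injOn
  have hπ : ∀ h y, π h y = h (Θ y) := fun h y => rfl
  let ν : Set (Y →₀ ZMod 2) → ℝ := fun A => μ (π ⁻¹' A)
  -- the window elements
  let el : (Bool × ZMod 2 × (Typ B M → A12)) → Perm Y := fun t =>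
    (preWin D h2 t.1 t.2.1).act (fun s => (t.2.2 (D.typ s.1)).1)
  let S : Finset (Perm (Y →₀ ZMod 2)) :=
    (Finset.univ.image fun t => permOm Y (el t)) ∪
      (Finset.univ.image fun β : B => flip (((.base (D.root β), 0), 0) : Y))
  have hinv : ∀ g ∈ S, ∀ A : Set (Y →₀ ZMod 2), ν (g ⁻¹' A) = ν A := by
    intro g hg A
    rw [Finset.mem_union, Finset.mem_image, Finset.mem_image] at hg
    rcases hg with ⟨t, _, rfl⟩ | ⟨β, _, rfl⟩
    · -- window elements
      let σ : Perm X := (el t).viaEmbedding ι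
      have hcomm : ∀ h, π (Finsupp.equivMapDomain σ h) = permOm Y (el t) (π h) := by
        intro h
        ext y
        rw [hπ, permOm_apply, hπ, Finsupp.equivMapDomain_apply]
        congr 2
        rw [Equiv.symm_apply_eq]
        have := Equiv.Perm.viaEmbedding_apply (el t) ι ((el t)⁻¹ y)
        show Θ y = σ (Θ ((el t)⁻¹ y))
        rw [show σ (Θ ((el t)⁻¹ y)) = ι ((el t) ((el t)⁻¹ y)) from this]
        simp [ι]
      have hdist : ∃ C : ℕ, ∀ x : X, G.dist x (σ x) ≤ C := by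
        refine ⟨K, fun x => ?_⟩
        by_cases hx : x ∈ Set.range ι
        · obtain ⟨y, rfl⟩ := hx
          have e1 : σ (ι y) = ι (el t y) := Equiv.Perm.viaEmbedding_apply (el t) ι y
          rw [e1]
          by_cases hy : y ∈ Set.range (preWin D h2 t.1 t.2.1).emb
          · obtain ⟨⟨i, b, v⟩, rfl⟩ := hy
            have e2 : el t ((preWin D h2 t.1 t.2.1).emb (i, (b, v))) =
                (preWin D h2 t.1 t.2.1).emb
                  (fib (fun s => (t.2.2 (D.typ s.1)).1) (i, (b, v))) :=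
              Equiv.Perm.viaEmbedding_apply _ _ _
            rw [e2, fib_apply]
            generalize ((t.2.2 (D.typ i.1)).1 (b, v)) = z
            obtain ⟨b', v'⟩ := z
            cases b <;> cases b'
            · exact hK1 i.1 v v'
            · exact hK2 t.1 i.1 v v'
            · rw [SimpleGraph.dist_comm]; exact hK2 t.1 i.1 v' v
            · exact hK1 (D.ns t.1 i.1) v v'
          · have e2 : el t y = y := Equiv.Perm.viaEmbedding_apply_of_notMem _ _ _ hy
            rw [e2, SimpleGraph.dist_self]; exact Nat.zero_le _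
        · have e1 : σ x = x := Equiv.Perm.viaEmbedding_apply_of_notMem _ _ _ hx
          rw [e1, SimpleGraph.dist_self]; exact Nat.zero_le _
      have e3 := hσ σ hdist (π ⁻¹' A)
      have e4 : (fun h : X →₀ ZMod 2 => Finsupp.equivMapDomain σ h) ⁻¹' (π ⁻¹' A) =
          π ⁻¹' ((permOm Y (el t)) ⁻¹' A) := by
        ext h
        simp only [Set.mem_preimage]
        rw [hcomm]
      show μ (π ⁻¹' ((permOm Y (el t)) ⁻¹' A)) = μ (π ⁻¹' A)
      rw [← e4, e3]
    · -- translations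
      let y0 : Y := ((.base (D.root β), 0), 0)
      have e3 := hT (Finsupp.single (Θ y0) 1) (π ⁻¹' A)
      have e4 : (fun h : X →₀ ZMod 2 => Finsupp.single (Θ y0) 1 + h) ⁻¹' (π ⁻¹' A) =
          π ⁻¹' ((flip y0) ⁻¹' A) := by
        ext h
        simp only [Set.mem_preimage]
        have : π (Finsupp.single (Θ y0) 1 + h) = flip y0 (π h) := by
          ext y
          show _ = (Finsupp.single y0 (1 : ZMod 2) + π h : Y →₀ ZMod 2) y
          rw [hπ, Finsupp.add_apply, Finsupp.add_apply, hπ, Finsupp.single_apply,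
            Finsupp.single_apply]
          simp only [hΘ.eq_iff]
        rw [this]
      show μ (π ⁻¹' ((flip y0) ⁻¹' A)) = μ (π ⁻¹' A)
      rw [← e4, e3]
  obtain ⟨f, hf1, hf2, hf3⟩ := reiter (Y →₀ ZMod 2) S ν (fun A => h0 _) (by simpa [ν] using h1)
    (by
      intro A A' hAA
      show μ (π ⁻¹' (A ∪ A')) = _
      rw [Set.preimage_union]
      exact hadd _ _ (hAA.preimage π)) hinv (min η (1 / 3)) (lt_min hη (by norm_num))
  let ρ : Perm Y →* (L2 (Y →₀ ZMod 2) ≃ₗᵢ[ℝ] L2 (Y →₀ ZMod 2)) := (l2rep _).comp (permOm Y)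
  have key := hlim (L2 (Y →₀ ZMod 2)) ρ f Qr (fun y u v => Qr_contr y u v)
    (fun g y u => Qr_equiv g y u)
    (by
      intro e κ ψ
      have hmem : permOm Y (el (e, κ, ψ)) ∈ S :=
        Finset.mem_union_left _ (Finset.mem_image_of_mem _ (Finset.mem_univ _))
      exact (hf3 _ hmem).trans (min_le_left _ _))
    (by
      intro β
      have hmem : flip (((.base (D.root β), 0), 0) : Y) ∈ S :=
        Finset.mem_union_right _ (Finset.mem_image_of_mem _ (Finset.mem_univ _))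
      exact half_bound _ f hf1 ((hf3 _ hmem).trans (min_le_right _ _)))
  -- the finite set of nodes in the supports
  let T : Finset Y := hf2.toFinset.biUnion (fun h => h.support)
  obtain ⟨y, hy1, hy2⟩ := key (T.sup (fun y => depth y.1.1) + 1)
  have hyT : y ∉ T := by
    intro hyT
    have h5 : depth y.1.1 ≤ T.sup (fun y : Y => depth y.1.1) :=
      Finset.le_sup (f := fun y : Y => depth y.1.1) hyT
    omega
  have hzero : Qr y f = 0 := by
    apply lp.ext
    funext h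
    rw [Qr_apply, lp.coeFn_zero, Pi.zero_apply]
    split_ifs with hh
    · rfl
    · by_contra hne
      apply hyT
      rw [Finset.mem_biUnion]
      exact ⟨h, by rw [Set.Finite.mem_toFinset]; exact hne, Finsupp.mem_support_iff.2 hh⟩
  rw [hzero, norm_zero] at hy2
  norm_num at hy2

theorem dist_iter (X : Type) (G : SimpleGraph X) (hG : G.Connected)
    (F : (Fin 3 → ℤ) → X) (C : ℕ)
    (hC : ∀ a b : Fin 3 → ℤ, (∀ i, |a i - b i| ≤ 1) → G.dist (F a) (F b) ≤ C) (n : ℕ) :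
    ∀ a b : Fin 3 → ℤ, (∀ i, |a i - b i| ≤ n) → G.dist (F a) (F b) ≤ n * C := by
  induction n with
  | zero =>
    intro a b h
    have : a = b := by
      funext i
      have := h i
      have h3 : |a i - b i| = 0 := le_antisymm (by simpa using this) (abs_nonneg _)
      rw [abs_eq_zero, sub_eq_zero] at h3
      exact h3
    rw [this, SimpleGraph.dist_self]; exact Nat.zero_le _
  | succ n ih =>
    intro a b h
    let c : Fin 3 → ℤ := fun i => if a i < b i then a i + 1 else if b i < a i then a i - 1 else a i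
    have h1 : ∀ i, |a i - c i| ≤ 1 := by
      intro i
      show |a i - (if a i < b i then a i + 1 else if b i < a i then a i - 1 else a i)| ≤ 1
      rw [abs_le]
      split_ifs <;> constructor <;> omega
    have h2 : ∀ i, |c i - b i| ≤ n := by
      intro i
      have h3 := h i
      show |(if a i < b i then a i + 1 else if b i < a i then a i - 1 else a i) - b i| ≤ n
      rw [abs_le] at h3 ⊢
      push_cast at h3
      split_ifs <;> constructor <;> omega
    calc G.dist (F a) (F b) ≤ G.dist (F a) (F c) + G.dist (F c) (F b) := hG.dist_triangle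
      _ ≤ C + n * C := Nat.add_le_add (hC a c h1) (ih c b h2)
      _ = (n + 1) * C := by ring

theorem final (hlim : LimitProp) (X : Type) (G : SimpleGraph X) (hG : G.Connected)
    (F : (Fin 3 → ℤ) → X) (hF : Function.Injective F) (C : ℕ)
    (hC : ∀ a b : Fin 3 → ℤ, (∀ i, |a i - b i| ≤ 1) → G.dist (F a) (F b) ≤ C) : ¬ ExtAm G := by
  obtain ⟨C0, _, hlim⟩ := hlim
  obtain ⟨B, R, iB, iN, M, iM, D, Φ, K, h2, h3, h6, hB, hΦ, hK1, hK2⟩ := embed C0
  obtain ⟨η, hη, hH⟩ := hlim B R M D h2 h3 h6 hB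
  have hd := dist_iter X G hG F C hC K.toNat
  refine final_tree B R M D h2 η hη hH X G (fun y => F (Φ y)) (hF.comp hΦ) (K.toNat * C) ?_ ?_
  · intro s v v'
    exact hd _ _ fun i => (hK1 s v v' i).trans (Int.self_le_toNat K)
  · intro e s v v'
    exact hd _ _ fun i => (hK2 e s v v' i).trans (Int.self_le_toNat K)

theorem final_grid (hlim : LimitProp) (d : ℕ) (hd : 3 ≤ d) : ¬ ExtAm (grid d) := by
  let F : (Fin 3 → ℤ) → (Fin d → ℤ) := fun a i => if h : i.1 < 3 then a ⟨i.1, h⟩ else 0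
  refine final hlim _ (grid d) (grid_connected d) F ?_ d ?_
  · intro a b hab
    funext i
    have := congrFun hab ⟨i.1, by omega⟩
    simpa [F] using this
  · intro a b hab
    have h1 := grid_dist d (F a) (F b)
    have h2 : ∑ i, |F a i - F b i| ≤ ∑ _i : Fin d, (1 : ℤ) := by
      apply Finset.sum_le_sum
      intro i _
      show |(if h : i.1 < 3 then a ⟨i.1, h⟩ else 0) - (if h : i.1 < 3 then b ⟨i.1, h⟩ else 0)| ≤ 1
      split_ifs with h
      · exact hab _
      · simp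
    have h3 : ∑ _i : Fin d, (1 : ℤ) = d := by simp
    rw [h3] at h2
    exact_mod_cast h1.trans h2

end Pool.Agent.Helper78.Zd
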