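import Pool.Agent.Helper78.Zd.Struct

/-! Algebra of window permutations and of displacement. -/

set_option autoImplicit false

namespace Pool.Agent.Helper78.Zd

open Equiv

/-! ### displacement -/

section mv

variable {G H : Type*} [Group G] [NormedAddCommGroup H] [InnerProductSpace ℝ H]
variable (ρ : G →* (H ≃ₗᵢ[ℝ] H)) (f : H)

lemma mv_nonneg (g : G) : 0 ≤ mv ρ f g := norm_nonneg _

lemma mv_one : mv ρ f 1 = 0 := by simp [mv]

lemma mv_mul (g h : G) : mv ρ f (g * h) ≤ mv ρ f g + mv ρ f h := by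
  unfold mv
  have h1 : ρ (g * h) f - f = ρ g (ρ h f - f) + (ρ g f - f) := by
    rw [map_mul, map_sub]
    show ρ g (ρ h f) - f = _
    abel
  rw [h1]
  refine (norm_add_le _ _).trans ?_
  rw [LinearIsometryEquiv.norm_map, add_comm]

lemma mv_inv (g : G) : mv ρ f g⁻¹ = mv ρ f g := by
  unfold mv
  have h1 : ρ g (ρ g⁻¹ f - f) = f - ρ g f := by
    rw [map_sub]
    have : ρ g (ρ g⁻¹ f) = f := by
      have h2 : (ρ g * ρ g⁻¹) f = f := by rw [← map_mul]; simp
      exact h2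
    rw [this]
  rw [← LinearIsometryEquiv.norm_map (ρ g), h1, norm_sub_rev]

lemma mv_conj (g h : G) : mv ρ f (h * g * h⁻¹) ≤ mv ρ f g + 2 * mv ρ f h := by
  have h1 := mv_mul ρ f (h * g) h⁻¹
  have h2 := mv_mul ρ f h g
  rw [mv_inv] at h1
  linarith

lemma mv_comm (g h : G) : mv ρ f (g * h * g⁻¹ * h⁻¹) ≤ 2 * (mv ρ f g + mv ρ f h) := by
  have h1 := mv_mul ρ f (g * h * g⁻¹) h⁻¹
  have h2 := mv_mul ρ f (g * h) g⁻¹
  have h3 := mv_mul ρ f g h
  rw [mv_inv] at h1 h2
  linarith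

end mv

/-! ### window permutations -/

section win

variable {I I' N : Type*}

lemma act_emb (w : Win I N) (φ : I → Perm (Bool × Fin 6)) (i : I) (x : Bool × Fin 6) :
    w.act φ (w.emb (i, x)) = w.emb (i, φ i x) := by
  show (fib φ).viaEmbedding w.emb (w.emb (i, x)) = _
  rw [Perm.viaEmbedding_apply]
  rfl

lemma act_fix (w : Win I N) (φ : I → Perm (Bool × Fin 6)) (y : N × Fin 6)
    (hy : ∀ i x, φ i ≠ 1 → w.emb (i, x) ≠ y) : w.act φ y = y := by
  by_cases h : y ∈ Set.range w.emb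
  · obtain ⟨⟨i, x⟩, rfl⟩ := h
    rw [act_emb]
    by_cases h1 : φ i = 1
    · rw [h1]; rfl
    · exact absurd rfl (hy i x h1)
  · show (fib φ).viaEmbedding w.emb y = y
    exact Perm.viaEmbedding_apply_of_notMem _ _ _ h

lemma conj_reindex (w : Win I N) (w' : Win I' N) (ι : I' → I)
    (g : Perm (N × Fin 6)) (φ : I → Perm (Bool × Fin 6))
    (hφ : ∀ i, i ∉ Set.range ι → φ i = 1)
    (hg : ∀ i' x, φ (ι i') ≠ 1 → g (w.emb (ι i', x)) = w'.emb (i', x)) :
    g * w.act φ * g⁻¹ = w'.act (fun i' => φ (ι i')) := by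
  rw [mul_inv_eq_iff_eq_mul]
  ext1 y
  simp only [Perm.mul_apply]
  by_cases h : ∃ i x, φ i ≠ 1 ∧ w.emb (i, x) = y
  · obtain ⟨i, x, h1, rfl⟩ := h
    have h2 : i ∈ Set.range ι := by
      by_contra h3
      exact h1 (hφ i h3)
    obtain ⟨i', rfl⟩ := h2
    rw [act_emb, hg i' _ h1, hg i' _ h1, act_emb]
  · push Not at h
    rw [act_fix w φ y h, act_fix]
    intro i' x h1 h2
    have h3 := hg i' x h1
    rw [h2] at h3
    exact h (ι i') x h1 (g.injective h3)

lemma act_reindex (w : Win I N) (w' : Win I' N) (ι : I' → I) (φ : I → Perm (Bool × Fin 6))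
    (hφ : ∀ i, i ∉ Set.range ι → φ i = 1)
    (hg : ∀ i' x, φ (ι i') ≠ 1 → w.emb (ι i', x) = w'.emb (i', x)) :
    w.act φ = w'.act (fun i' => φ (ι i')) := by
  have := conj_reindex w w' ι 1 φ hφ (fun i' x h => by simpa using hg i' x h)
  simpa using this

lemma emb_false (w : Win I N) (i : I) (v : Fin 6) : w.emb (i, (false, v)) = (w.p i, v) := rfl
lemma emb_true (w : Win I N) (i : I) (v : Fin 6) : w.emb (i, (true, v)) = (w.q i, v) := rfl

end win

variable {B R : Type} {M : ℕ}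

lemma ext_J (β : B) (g : Perm (Node B R M × Fin 6)) (y : Node B R M × Fin 6) :
    ext β g (J β y) = J β (g y) := by
  show g.viaEmbedding (J β) (J β y) = _
  rw [Perm.viaEmbedding_apply]

lemma ext_fix (β : B) (g : Perm (Node B R M × Fin 6)) (y : Node B R M × Fin 6)
    (hy : y ∉ Set.range (J (R := R) (M := M) β)) : ext β g y = y :=
  Perm.viaEmbedding_apply_of_notMem _ _ _ hy

lemma ext_act {I : Type*} (β : B) (w w' : Win I (Node B R M)) (h : ∀ x, w'.emb x = J β (w.emb x))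
    (φ : I → Perm (Bool × Fin 6)) : ext β (w.act φ) = w'.act φ := by
  ext1 y
  by_cases hy : y ∈ Set.range (J (R := R) (M := M) β)
  · obtain ⟨z, rfl⟩ := hy
    rw [ext_J]
    by_cases hz : ∃ i x, φ i ≠ 1 ∧ w.emb (i, x) = z
    · obtain ⟨i, x, h1, rfl⟩ := hz
      rw [act_emb, ← h, ← h, act_emb]
    · push Not at hz
      rw [act_fix w φ z hz, act_fix]
      intro i x h1 h2
      rw [h] at h2
      exact hz i x h1 ((J β).injective h2)
  · rw [ext_fix β _ y hy, act_fix]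
    intro i x h1 h2
    exact hy ⟨w.emb (i, x), by rw [← h]; exact h2⟩

end Pool.Agent.Helper78.Zd
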