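import Pool.Agent.Helper78.Zd.Select
import Pool.Agent.Helper78.Zd.WinAlg

/-! Module SELECTION: choice of a typical colour. -/

set_option autoImplicit false

namespace Pool.Agent.Helper78.Zd

open Equiv

section avg

variable {X Q H : Type*} [Fintype X] [DecidableEq X] [Group Q] [Fintype Q]
  [NormedAddCommGroup H] [InnerProductSpace ℝ H]

/-- restriction of a product element to the coordinates in `A` -/
def selRes (A : Finset X) : (X → Q) →* (X → Q) where
  toFun Ψ := fun x => if x ∈ A then Ψ x else 1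
  map_one' := by
    funext x
    simp
  map_mul' Ψ Ψ' := by
    funext x
    by_cases h : x ∈ A <;> simp [h]

omit [Fintype X] [Fintype Q] in
lemma selRes_apply (A : Finset X) (Ψ : X → Q) (x : X) :
    selRes A Ψ x = if x ∈ A then Ψ x else 1 := rfl

/-- the average over the coordinates in `A` -/
noncomputable def selAvg (U : (X → Q) →* (H ≃ₗᵢ[ℝ] H)) (A : Finset X) : H →ₗ[ℝ] H :=
  ((Fintype.card (X → Q) : ℝ)⁻¹) •
    ∑ Ψ : X → Q, ((U (selRes A Ψ)).toLinearEquiv : H →ₗ[ℝ] H)

lemma selAvg_apply (U : (X → Q) →* (H ≃ₗᵢ[ℝ] H)) (A : Finset X) (v : H) :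
    selAvg U A v = ((Fintype.card (X → Q) : ℝ)⁻¹) • ∑ Ψ : X → Q, U (selRes A Ψ) v := by
  unfold selAvg
  rw [LinearMap.smul_apply, LinearMap.sum_apply]
  rfl

lemma selCard_pos : (0 : ℝ) < (Fintype.card (X → Q) : ℝ) := by
  have : 0 < Fintype.card (X → Q) := Fintype.card_pos
  exact_mod_cast this

omit [Fintype X] [DecidableEq X] [Fintype Q] in
lemma sel_inner (U : (X → Q) →* (H ≃ₗᵢ[ℝ] H)) (g : X → Q) (u v : H) :
    inner ℝ (U g u) v = inner ℝ u (U g⁻¹ v) := by
  have h1 : U g (U g⁻¹ v) = v := by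
    have h2 : (U g * U g⁻¹) v = v := by rw [← map_mul]; simp
    exact h2
  conv_lhs => rw [← h1]
  exact LinearIsometryEquiv.inner_map_map _ _ _

lemma selAvg_sym (U : (X → Q) →* (H ≃ₗᵢ[ℝ] H)) (A : Finset X) (u v : H) :
    inner ℝ (selAvg U A u) v = inner ℝ u (selAvg U A v) := by
  rw [selAvg_apply, selAvg_apply, real_inner_smul_left, real_inner_smul_right, sum_inner,
    inner_sum]
  congr 1
  rw [← Equiv.sum_comp (Equiv.inv (X → Q)) (fun Ψ => inner ℝ u (U (selRes A Ψ) v))]
  refine Finset.sum_congr rfl fun Ψ _ => ?_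
  rw [sel_inner, ← map_inv]
  rfl

lemma selAvg_inv (U : (X → Q) →* (H ≃ₗᵢ[ℝ] H)) (A : Finset X) (Φ : X → Q) (v : H) :
    U (selRes A Φ) (selAvg U A v) = selAvg U A v := by
  rw [selAvg_apply, map_smul, map_sum]
  congr 1
  rw [← Equiv.sum_comp (Equiv.mulLeft Φ) (fun Ψ => U (selRes A Ψ) v)]
  refine Finset.sum_congr rfl fun Ψ _ => ?_
  rw [Equiv.coe_mulLeft, map_mul, map_mul]
  rfl

/-- the change of variables for the product of two averages -/
def selEquiv (A B : Finset X) : ((X → Q) × (X → Q)) ≃ ((X → Q) × (X → Q)) where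
  toFun p := (fun x => if x ∈ B then (if x ∈ A then p.1 x else 1) * p.2 x else p.1 x,
    fun x => if x ∈ B then p.1 x else p.2 x)
  invFun p := (fun x => if x ∈ B then p.2 x else p.1 x,
    fun x => if x ∈ B then (if x ∈ A then p.2 x else 1)⁻¹ * p.1 x else p.2 x)
  left_inv p := by
    ext x
    · by_cases hB : x ∈ B <;> simp [hB]
    · by_cases hB : x ∈ B <;> by_cases hA : x ∈ A <;> simp [hB, hA]
  right_inv p := by
    ext x
    · by_cases hB : x ∈ B <;> by_cases hA : x ∈ A <;> simp [hB, hA]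
    · by_cases hB : x ∈ B <;> simp [hB]

omit [Fintype X] [Fintype Q] in
lemma selRes_mul (A B : Finset X) (p : (X → Q) × (X → Q)) :
    selRes A p.1 * selRes B p.2 = selRes (A ∪ B) (selEquiv A B p).1 := by
  funext x
  rw [Pi.mul_apply, selRes_apply, selRes_apply, selRes_apply]
  show _ = if x ∈ A ∪ B then
    (if x ∈ B then (if x ∈ A then p.1 x else 1) * p.2 x else p.1 x) else 1
  by_cases hA : x ∈ A <;> by_cases hB : x ∈ B <;> simp [hA, hB]

lemma selAvg_mul (U : (X → Q) →* (H ≃ₗᵢ[ℝ] H)) (A B : Finset X) (v : H) :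
    selAvg U A (selAvg U B v) = selAvg U (A ∪ B) v := by
  have hc := selCard_pos (X := X) (Q := Q)
  have h1 : ∀ Ψ : X → Q, U (selRes A Ψ) (selAvg U B v) =
      ((Fintype.card (X → Q) : ℝ)⁻¹) • ∑ Ψ' : X → Q, U (selRes A Ψ * selRes B Ψ') v := by
    intro Ψ
    rw [selAvg_apply, map_smul, map_sum]
    congr 1
    refine Finset.sum_congr rfl fun Ψ' _ => ?_
    rw [map_mul]
    rfl
  have h2 : ∑ Ψ : X → Q, ∑ Ψ' : X → Q, U (selRes A Ψ * selRes B Ψ') v =
      (Fintype.card (X → Q) : ℝ) • ∑ Ψ : X → Q, U (selRes (A ∪ B) Ψ) v := by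
    rw [← Finset.sum_product' (f := fun Ψ Ψ' => U (selRes A Ψ * selRes B Ψ') v),
      Finset.univ_product_univ]
    have h3 : ∀ p : (X → Q) × (X → Q), U (selRes A p.1 * selRes B p.2) v =
        (fun p : (X → Q) × (X → Q) => U (selRes (A ∪ B) p.1) v) (selEquiv A B p) := by
      intro p
      rw [selRes_mul]
    rw [Finset.sum_congr rfl fun p _ => h3 p]
    refine (Equiv.sum_comp (selEquiv A B)
      (fun p : (X → Q) × (X → Q) => U (selRes (A ∪ B) p.1) v)).trans ?_
    rw [← Finset.univ_product_univ, Finset.sum_product]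
    simp only [Finset.sum_const, Finset.card_univ]
    rw [← Finset.smul_sum, ← Nat.cast_smul_eq_nsmul ℝ]
  rw [selAvg_apply U A, Finset.sum_congr rfl fun Ψ _ => h1 Ψ, ← Finset.smul_sum, h2,
    selAvg_apply U (A ∪ B), smul_smul, smul_smul, mul_assoc, inv_mul_cancel₀ hc.ne', mul_one]

lemma selAvg_comm (U U' : (X → Q) →* (H ≃ₗᵢ[ℝ] H)) (A B : Finset X)
    (h : ∀ Ψ Ψ', ∀ v : H, U (selRes A Ψ) (U' (selRes B Ψ') v) =
      U' (selRes B Ψ') (U (selRes A Ψ) v)) (v : H) :
    selAvg U A (selAvg U' B v) = selAvg U' B (selAvg U A v) := by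
  rw [selAvg_apply U A, selAvg_apply U' B, selAvg_apply U' B, selAvg_apply U A]
  congr 1
  simp only [map_smul, map_sum]
  rw [← Finset.smul_sum, ← Finset.smul_sum, Finset.sum_comm]
  congr 1
  refine Finset.sum_congr rfl fun Ψ' _ => Finset.sum_congr rfl fun Ψ _ => ?_
  exact h Ψ Ψ' v

lemma selAvg_near (U : (X → Q) →* (H ≃ₗᵢ[ℝ] H)) (A : Finset X) (v : H) (η : ℝ)
    (h : ∀ Ψ, ‖U (selRes A Ψ) v - v‖ ≤ η) : ‖v - selAvg U A v‖ ≤ η := by
  have hc := selCard_pos (X := X) (Q := Q)
  have h1 : selAvg U A v - v =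
      ((Fintype.card (X → Q) : ℝ)⁻¹) • ∑ Ψ : X → Q, (U (selRes A Ψ) v - v) := by
    rw [selAvg_apply, Finset.sum_sub_distrib, smul_sub, Finset.sum_const, Finset.card_univ,
      ← Nat.cast_smul_eq_nsmul ℝ, smul_smul, inv_mul_cancel₀ hc.ne', one_smul]
  rw [norm_sub_rev, h1, norm_smul, norm_inv, Real.norm_of_nonneg hc.le, inv_mul_le_iff₀ hc]
  refine (norm_sum_le _ _).trans ?_
  refine (Finset.sum_le_card_nsmul _ _ η fun Ψ _ => h Ψ).trans ?_
  rw [Finset.card_univ, nsmul_eq_mul]

end avg

section sel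

variable {B R : Type} {M : ℕ} (D : BaseData B R)

/-- the family of window permutations with prescribed labels -/
noncomputable def selFam (h2 : 2 ∣ M) (e : Bool) (κ : ZMod 2) :
    ((B × ZMod M) → (Lab B M → A12)) →* Perm (Node B R M × Fin 6) where
  toFun Ψ := (preWin D h2 e κ).act
    (fun s => (Ψ (D.c0 s.1.1, s.1.2) (D.lab s.1)).1)
  map_one' := by
    rw [← map_one (preWin D h2 e κ).act]
    rfl
  map_mul' Ψ Ψ' := by
    rw [← map_mul (preWin D h2 e κ).act]
    rfl

lemma selFam_apply (h2 : 2 ∣ M) (e : Bool) (κ : ZMod 2)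
    (Ψ : (B × ZMod M) → (Lab B M → A12)) :
    selFam D h2 e κ Ψ = (preWin D h2 e κ).act
      (fun s => (Ψ (D.c0 s.1.1, s.1.2) (D.lab s.1)).1) := rfl

/-- points moved by a family restricted to `A` -/
lemma selFam_fix [DecidableEq (B × ZMod M)] (h2 : 2 ∣ M) (e : Bool) (κ : ZMod 2)
    (A : Finset (B × ZMod M)) (Ψ : (B × ZMod M) → (Lab B M → A12)) (t : Node B R M) (v : Fin 6)
    (h1 : (D.c0 t.1, t.2) ∉ A) (h3 : (D.c0 t.1, t.2 - 1) ∉ A) :
    selFam D h2 e κ (selRes A Ψ) (t, v) = (t, v) := by
  rw [selFam_apply]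
  refine act_fix _ _ _ ?_
  rintro ⟨s, hs⟩ ⟨b, v'⟩ hne heq
  have hmem : (D.c0 s.1, s.2) ∈ A := by
    by_contra hcon
    apply hne
    show ((selRes A Ψ (D.c0 s.1, s.2)) (D.lab s)).1 = 1
    rw [selRes_apply, if_neg hcon]
    rfl
  cases b with
  | false =>
    rw [emb_false] at heq
    have : s = t := congrArg Prod.fst heq
    rw [this] at hmem
    exact h1 hmem
  | true =>
    rw [emb_true] at heq
    have h4 : D.ns e s = t := congrArg Prod.fst heq
    apply h3
    rw [← h4, D.c0_ns, D.ns_snd, add_sub_cancel_right]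
    exact hmem

lemma selFam_comm [DecidableEq (B × ZMod M)] (h2 : 2 ∣ M) (e e' : Bool) (κ κ' : ZMod 2)
    (x : B × ZMod M) (A : Finset (B × ZMod M)) (Ψ Ψ' : (B × ZMod M) → (Lab B M → A12))
    (hA : ∀ y ∈ A, y ≠ x ∧ y ≠ (x.1, x.2 - 1) ∧ y ≠ (x.1, x.2 + 1)) :
    selFam D h2 e κ (selRes {x} Ψ) * selFam D h2 e' κ' (selRes A Ψ') =
      selFam D h2 e' κ' (selRes A Ψ') * selFam D h2 e κ (selRes {x} Ψ) := by
  apply Equiv.Perm.Disjoint.commute
  rintro ⟨t, v⟩
  by_cases h : (D.c0 t.1, t.2) = x ∨ (D.c0 t.1, t.2 - 1) = x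
  · right
    apply selFam_fix
    · intro hm
      obtain ⟨h1, h3, h4⟩ := hA _ hm
      rcases h with h | h
      · exact h1 h
      · apply h4
        rw [← h]
        simp
    · intro hm
      obtain ⟨h1, h3, h4⟩ := hA _ hm
      rcases h with h | h
      · apply h3
        rw [← h]
      · exact h1 h
  · push Not at h
    left
    apply selFam_fix
    · rw [Finset.mem_singleton]; exact h.1
    · rw [Finset.mem_singleton]; exact h.2

end sel

theorem selection {B R : Type} {M : ℕ} [Fintype B] [Nonempty B] [NeZero M]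
    (D : BaseData B R) (h2 : 2 ∣ M) (h3 : 3 ∣ M)
    {H : Type} [NormedAddCommGroup H] [InnerProductSpace ℝ H]
    (ρ : Perm (Node B R M × Fin 6) →* (H ≃ₗᵢ[ℝ] H)) (f : H) (η : ℝ) (h : Pre D h2 ρ f η) :
    ∃ (β : B) (f' : H) (err : ZMod M → ℝ), ‖f' - f‖ ≤ 3 * η ∧ (∀ i, 0 ≤ err i) ∧
      Post D h2 ρ β f' err ∧ ∑ i, err i ^ 2 ≤ 1000 * η ^ 2 / Fintype.card B := by
  classical
  let _ : Fintype (Lab B M → A12) := Fintype.ofFinite _
  set ej : Fin 3 → Bool := fun j => if j = 2 then true else false with hej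
  set κj : Fin 3 → ZMod 2 := fun j => if j = 0 then 0 else 1 with hκj
  set U : Fin 3 → (((B × ZMod M) → (Lab B M → A12)) →* (H ≃ₗᵢ[ℝ] H)) :=
    fun j => ρ.comp (selFam D h2 (ej j) (κj j)) with hU
  set N : B × ZMod M → Finset (B × ZMod M) :=
    fun x => {x, (x.1, x.2 - 1), (x.1, x.2 + 1)} with hN
  have hsel := select (fun j A => selAvg (U j) A) (fun j A u v => selAvg_sym (U j) A u v)
    (fun j A A' v => selAvg_mul (U j) A A' v) N
    (by
      intro j k x A v hd
      refine selAvg_comm (U j) (U k) {x} A ?_ v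
      intro Ψ Ψ' w
      have hc := selFam_comm D h2 (ej j) (ej k) (κj j) (κj k) x A Ψ Ψ' (by
        intro y hy
        have := Finset.disjoint_left.mp hd hy
        simpa [hN] using this)
      have h1 : (U j (selRes {x} Ψ) * U k (selRes A Ψ')) =
          (U k (selRes A Ψ') * U j (selRes {x} Ψ)) := by
        show ρ _ * ρ _ = ρ _ * ρ _
        rw [← map_mul, ← map_mul, hc]
      exact congrArg (fun T : H ≃ₗᵢ[ℝ] H => T w) h1)
    (fun x => (col x.2 : ZMod 3))
    (by
      rintro ⟨b, i⟩ ⟨b', i'⟩ hne hcol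
      simp only at hcol
      rw [Finset.disjoint_left]
      intro y hy hy'
      simp only [hN, Finset.mem_insert, Finset.mem_singleton] at hy hy'
      have e0 : ∀ j : ZMod M, col (j - 1) = col j - 1 := by
        intro j
        have := col_add_one h3 (j - 1)
        rw [sub_add_cancel] at this
        rw [this]; ring
      have e1 : ∀ j : ZMod M, col (j + 1) = col j + 1 := col_add_one h3
      have hcol' : (col i : ZMod 3) = col i' := hcol
      apply hne
      rcases hy with rfl | rfl | rfl <;> rcases hy' with hy' | hy' | hy' <;>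
        simp only [Prod.mk.injEq] at hy' <;> obtain ⟨hb, hi⟩ := hy' <;> subst hb <;>
        have hi2 := congrArg col hi <;> simp only [e0, e1, hcol'] at hi2 <;>
        first
        | (exfalso; revert hi2; generalize (col i' : ZMod 3) = c; revert c; decide)
        | (rw [hi])
        | (rw [sub_left_inj] at hi; rw [hi])
        | (rw [add_left_inj] at hi; rw [hi]))
    f η
    (by
      intro j
      refine selAvg_near (U j) _ f η fun Ψ => ?_
      have h1 : selRes Finset.univ Ψ = Ψ := by
        funext x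
        rw [selRes_apply, if_pos (Finset.mem_univ _)]
      rw [h1]
      exact h (ej j) (κj j) (fun t => Ψ (t.2.1, t.1) t.2.2))
  obtain ⟨f', hf', hsum⟩ := hsel
  have hcB : (0 : ℝ) < Fintype.card B := by
    have : 0 < Fintype.card B := Fintype.card_pos
    exact_mod_cast this
  set S : B → ZMod M → ℝ := fun b i =>
    ∑ j, ‖f' - selAvg (U j) {(b, i)} f'‖ ^ 2 with hS
  have hS0 : ∀ b i, 0 ≤ S b i := fun b i => Finset.sum_nonneg fun j _ => sq_nonneg _
  have htot : ∑ b, ∑ i, S b i ≤ ∑ _b : B, (225 * η ^ 2 / Fintype.card B) := by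
    rw [Finset.sum_const, Finset.card_univ, nsmul_eq_mul, mul_div_cancel₀ _ hcB.ne']
    have h1 : ∑ b, ∑ i, S b i = ∑ j, ∑ x : B × ZMod M, ‖f' - selAvg (U j) {x} f'‖ ^ 2 := by
      rw [← Finset.sum_product' (f := fun b i => S b i), Finset.univ_product_univ,
        Finset.sum_comm]
    rw [h1, Fin.sum_univ_three]
    have := hsum 0
    have := hsum 1
    have := hsum 2
    linarith
  obtain ⟨β, _, hβ⟩ := Finset.exists_le_of_sum_le Finset.univ_nonempty htot
  refine ⟨β, f', fun i => 2 * √(S β i), hf', fun i => by positivity, ?_, ?_⟩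
  · -- Post
    have hmv : ∀ (j : Fin 3) (i : ZMod M) (ψ : Lab B M → A12),
        mv ρ f' (selFam D h2 (ej j) (κj j) (selRes {(β, i)} (fun _ => ψ))) ≤ 2 * √(S β i) := by
      intro j i ψ
      have h1 := selAvg_inv (U j) {(β, i)} (fun _ => ψ) f'
      have h1' : ρ (selFam D h2 (ej j) (κj j) (selRes {(β, i)} (fun _ => ψ)))
          (selAvg (U j) {(β, i)} f') = selAvg (U j) {(β, i)} f' := h1
      unfold mv
      set g := selFam D h2 (ej j) (κj j) (selRes {(β, i)} (fun _ => ψ)) with hg
      have h4 : ρ g f' - f' = ρ g (f' - selAvg (U j) {(β, i)} f') -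
          (f' - selAvg (U j) {(β, i)} f') := by
        rw [map_sub, h1']; abel
      have h5 : ‖f' - selAvg (U j) {(β, i)} f'‖ ≤ √(S β i) := by
        apply Real.le_sqrt_of_sq_le
        exact Finset.single_le_sum (f := fun j => ‖f' - selAvg (U j) {(β, i)} f'‖ ^ 2)
          (fun j _ => sq_nonneg _) (Finset.mem_univ j)
      rw [h4]
      refine (norm_sub_le _ _).trans ?_
      rw [LinearIsometryEquiv.norm_map]
      linarith
    -- the window permutation of a single position and colour
    have hform : ∀ (e : Bool) (κ : ZMod 2) (i : ZMod M) (ψ : Lab B M → A12),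
        (preWin D h2 e κ).act
          (fun s => if s.1.2 = i ∧ D.c0 s.1.1 = β then (ψ (D.lab s.1)).1 else 1) =
        selFam D h2 e κ (selRes {(β, i)} (fun _ => ψ)) := by
      intro e κ i ψ
      rw [selFam_apply]
      congr 1
      funext s
      rw [selRes_apply]
      by_cases hs : s.1.2 = i ∧ D.c0 s.1.1 = β
      · rw [if_pos hs, if_pos]
        rw [Finset.mem_singleton, hs.1, hs.2]
      · rw [if_neg hs, if_neg]
        · rfl
        · rw [Finset.mem_singleton]
          intro hcon
          rw [Prod.mk.injEq] at hcon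
          exact hs ⟨hcon.2, hcon.1⟩
    intro e i ψ
    have hgoal : ∀ κ : ZMod 2, par i = κ →
        mv ρ f' ((preWin D h2 e κ).act
          (fun s => if s.1.2 = i ∧ D.c0 s.1.1 = β then (ψ (D.lab s.1)).1 else 1)) ≤
          2 * √(S β i) := by
      intro κ hκ
      have hk : κ = 0 ∨ κ = 1 := by
        have hall : ∀ k : ZMod 2, k = 0 ∨ k = 1 := by decide
        exact hall κ
      rcases hk with rfl | rfl
      · -- parity zero: the selector does not matter
        have hi1 : i + 1 ≠ 0 := by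
          intro hcon
          have h5 := par_add_one h2 i
          rw [hcon, hκ] at h5
          have h6 : par (0 : ZMod M) = 0 := by
            unfold par
            exact ZMod.cast_zero
          rw [h6] at h5
          revert h5
          decide
        have hsame : (preWin D h2 e 0).act
            (fun s => if s.1.2 = i ∧ D.c0 s.1.1 = β then (ψ (D.lab s.1)).1 else 1) =
            (preWin D h2 false 0).act
            (fun s => if s.1.2 = i ∧ D.c0 s.1.1 = β then (ψ (D.lab s.1)).1 else 1) := by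
          refine act_reindex (preWin D h2 e 0) (preWin D h2 false 0) id _ ?_ ?_
          · intro s hs
            exact absurd ⟨s, rfl⟩ hs
          · rintro s ⟨b, v⟩ hne
            have hsi : s.1.2 = i := by
              by_contra hcon
              apply hne
              simp only [id]
              rw [if_neg]
              intro hc
              exact hcon hc.1
            cases b with
            | false => rfl
            | true =>
              rw [emb_true, emb_true]
              show (D.ns e s.1, v) = (D.ns false s.1, v)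
              unfold BaseData.ns
              rw [hsi, if_neg hi1, if_neg hi1]
        rw [hsame, hform]
        exact hmv 0 i ψ
      · cases e with
        | false =>
          rw [hform]
          exact hmv 1 i ψ
        | true =>
          rw [hform]
          exact hmv 2 i ψ
    exact hgoal _ rfl
  · have h1 : ∀ i, (2 * √(S β i)) ^ 2 = 4 * S β i := by
      intro i
      rw [mul_pow, Real.sq_sqrt (hS0 β i)]
      norm_num
    rw [Finset.sum_congr rfl fun i _ => h1 i, ← Finset.mul_sum]
    have h5 : 225 * η ^ 2 / (Fintype.card B : ℝ) * 4 ≤ 1000 * η ^ 2 / Fintype.card B := by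
      rw [div_mul_eq_mul_div]
      apply div_le_div_of_nonneg_right _ hcB.le
      nlinarith [sq_nonneg η]
    linarith

end Pool.Agent.Helper78.Zd
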