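import Pool.Agent.Helper78.Zd.TransMain
import Pool.Agent.Helper78.Zd.Selection
import Pool.Agent.Helper78.Zd.DropLimit
import Pool.Agent.Helper78.Zd.Final

/-! The main theorem for graphs containing `Z^3`. -/

set_option autoImplicit false

namespace Pool.Agent.Helper78.Zd

theorem limitProp : LimitProp :=
  limit_of (fun _ _ _ _ _ _ D h2 h3 _ _ _ rho f eta h => selection D h2 h3 rho f eta h) transition

theorem main_coarse (X : Type) (G : SimpleGraph X) (hG : G.Connected)
    (F : (Fin 3 → ℤ) → X) (hF : Function.Injective F) (C : ℕ)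
    (hC : ∀ a b : Fin 3 → ℤ, (∀ i, |a i - b i| ≤ 1) → G.dist (F a) (F b) ≤ C) : ¬ ExtAm G :=
  final limitProp X G hG F hF C hC

theorem main_grid (d : ℕ) (hd : 3 ≤ d) : ¬ ExtAm (grid d) := final_grid limitProp d hd

end Pool.Agent.Helper78.Zd

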