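import Mathlib

/-! Permutation representation on `ℓ²(Ω)` and the Day/Namioka (Reiter) property of actions with an
invariant finitely additive probability. -/

set_option autoImplicit false

namespace Pool.Agent.Helper78.Zd

open Equiv

/-- `ℓ²(Ω)` -/
abbrev L2 (Ω : Type) : Type := lp (fun _ : Ω => ℝ) 2

theorem two_toReal_pos : (0 : ℝ) < (2 : ENNReal).toReal := by norm_num

theorem memℓp_comp {Ω : Type} (g : Perm Ω) {f : Ω → ℝ} (hf : Memℓp f 2) :
    Memℓp (fun ω => f (g ω)) 2 := by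
  rw [memℓp_gen_iff two_toReal_pos] at hf ⊢
  exact (Equiv.summable_iff g (f := fun i => ‖f i‖ ^ (2 : ENNReal).toReal)).2 hf

/-- composition with a permutation, as an isometry of `ℓ²(Ω)` -/
noncomputable def l2comp (Ω : Type) (g : Perm Ω) : L2 Ω ≃ₗᵢ[ℝ] L2 Ω where
  toFun f := ⟨fun ω => (f : Ω → ℝ) (g ω), memℓp_comp g f.2⟩
  invFun f := ⟨fun ω => (f : Ω → ℝ) (g⁻¹ ω), memℓp_comp g⁻¹ f.2⟩
  left_inv f := by
    apply lp.ext; funext ω
    show (f : Ω → ℝ) (g (g⁻¹ ω)) = f ω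
    simp
  right_inv f := by
    apply lp.ext; funext ω
    show (f : Ω → ℝ) (g⁻¹ (g ω)) = f ω
    simp
  map_add' f f' := by
    apply lp.ext; funext ω; rfl
  map_smul' c f := by
    apply lp.ext; funext ω; rfl
  norm_map' f := by
    show ‖(⟨fun ω => (f : Ω → ℝ) (g ω), memℓp_comp g f.2⟩ : L2 Ω)‖ = ‖f‖
    rw [lp.norm_eq_tsum_rpow two_toReal_pos, lp.norm_eq_tsum_rpow two_toReal_pos]
    congr 1
    exact Equiv.tsum_eq g (fun i => ‖(f : Ω → ℝ) i‖ ^ (2 : ENNReal).toReal)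

theorem l2comp_apply (Ω : Type) (g : Perm Ω) (f : L2 Ω) (ω : Ω) :
    (l2comp Ω g f : Ω → ℝ) ω = (f : Ω → ℝ) (g ω) := rfl

/-- the permutation representation on `ℓ²(Ω)` : `(l2rep Ω g f) ω = f (g⁻¹ ω)` -/
noncomputable def l2rep (Ω : Type) : Perm Ω →* (L2 Ω ≃ₗᵢ[ℝ] L2 Ω) where
  toFun g := l2comp Ω g⁻¹
  map_one' := by
    ext f ω
    rfl
  map_mul' g h := by
    ext f ω
    show (f : Ω → ℝ) ((g * h)⁻¹ ω) = (f : Ω → ℝ) (h⁻¹ (g⁻¹ ω))
    rw [mul_inv_rev]; rfl

theorem l2rep_apply (Ω : Type) (g : Perm Ω) (f : L2 Ω) (ω : Ω) :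
    (l2rep Ω g f : Ω → ℝ) ω = (f : Ω → ℝ) (g⁻¹ ω) := rfl

/-! ### finitely additive probabilities -/

theorem mu_empty {Ω : Type} (μ : Set Ω → ℝ)
    (hadd : ∀ A B, Disjoint A B → μ (A ∪ B) = μ A + μ B) : μ ∅ = 0 := by
  have := hadd ∅ ∅ (by simp)
  simp at this
  exact this

theorem mu_preimage {Ω α : Type} (μ : Set Ω → ℝ)
    (hadd : ∀ A B, Disjoint A B → μ (A ∪ B) = μ A + μ B) (J : Ω → α) (T : Finset α) :
    μ (J ⁻¹' (T : Set α)) = ∑ t ∈ T, μ (J ⁻¹' {t}) := by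
  classical
  induction T using Finset.induction_on with
  | empty => simp [mu_empty μ hadd]
  | insert a T ha ih =>
    rw [Finset.sum_insert ha, ← ih, ← hadd]
    · congr 1
      ext w; simp
    · rw [Set.disjoint_left]
      intro w h1 h2
      simp only [Set.mem_preimage, Set.mem_singleton_iff] at h1
      simp only [Set.mem_preimage, Finset.mem_coe] at h2
      rw [h1] at h2
      exact ha h2

/-- the integral of a function with values in a finite type -/
theorem mu_push {Ω α β : Type} [Fintype α] [Fintype β] [DecidableEq β] (μ : Set Ω → ℝ)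
    (hadd : ∀ A B, Disjoint A B → μ (A ∪ B) = μ A + μ B) (J : Ω → α) (p : α → β) (c : β → ℝ) :
    ∑ t, c (p t) * μ (J ⁻¹' {t}) = ∑ b, c b * μ ((fun w => p (J w)) ⁻¹' {b}) := by
  classical
  rw [← Finset.sum_fiberwise_of_maps_to (s := Finset.univ) (t := Finset.univ) (g := p)
    (fun _ _ => Finset.mem_univ _)]
  apply Finset.sum_congr rfl
  intro b _
  have h : (fun w => p (J w)) ⁻¹' {b} = J ⁻¹' ((Finset.univ.filter fun t => p t = b : Finset α) : Set α) := by
    ext w; simp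
  rw [h, mu_preimage μ hadd, Finset.mul_sum]
  apply Finset.sum_congr rfl
  intro t ht
  rw [(Finset.mem_filter.1 ht).2]

/-- no bounded coboundary is bounded below by a positive number -/
theorem no_coboundary (Ω : Type) (S : Finset (Perm Ω)) (μ : Set Ω → ℝ) (h0 : ∀ A, 0 ≤ μ A)
    (h1 : μ Set.univ = 1) (hadd : ∀ A B, Disjoint A B → μ (A ∪ B) = μ A + μ B)
    (hinv : ∀ g ∈ S, ∀ A : Set Ω, μ (g ⁻¹' A) = μ A) (φ : S → Ω → ℝ) (K : ℝ)
    (hK : ∀ g w, |φ g w| ≤ K) (u : ℝ) (hu : 0 < u)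
    (h : ∀ w, u ≤ ∑ g : S, (φ g (g.1 w) - φ g w)) : False := by
  classical
  -- discretisation
  set n : ℝ := (Fintype.card S : ℝ) + 1 with hn
  have hn0 : 0 < n := by positivity
  set m : ℝ := n / u with hm
  have hm0 : 0 < m := by positivity
  obtain ⟨N, hN⟩ := exists_nat_gt (2 * m * K)
  -- the nonnegative integer function
  let ψ : S → Ω → ℕ := fun g w => ⌊m * (φ g w + K)⌋₊
  have hpos : ∀ g w, 0 ≤ m * (φ g w + K) := fun g w => by
    have := (abs_le.1 (hK g w)).1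
    apply mul_nonneg hm0.le; linarith
  have hψN : ∀ g w, ψ g w < N := by
    intro g w
    have h1 : (ψ g w : ℝ) ≤ m * (φ g w + K) := Nat.floor_le (hpos g w)
    have h2 := (abs_le.1 (hK g w)).2
    have h3 : m * (φ g w + K) ≤ 2 * m * K := by nlinarith
    exact_mod_cast lt_of_le_of_lt (h1.trans h3) hN
  let J : Ω → (S → Fin N × Fin N) := fun w g => (⟨ψ g (g.1 w), hψN _ _⟩, ⟨ψ g w, hψN _ _⟩)
  -- each atom has a positive integer sum
  have hat : ∀ w, (1 : ℝ) ≤ ∑ g : S, (((J w g).1 : ℕ) : ℝ) - ∑ g : S, (((J w g).2 : ℕ) : ℝ) := by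
    intro w
    have key : (0 : ℝ) < ∑ g : S, ((ψ g (g.1 w) : ℝ) - (ψ g w : ℝ)) := by
      have e : ∀ g : S, m * (φ g (g.1 w) - φ g w) - 1 ≤ (ψ g (g.1 w) : ℝ) - (ψ g w : ℝ) := by
        intro g
        have a1 : (ψ g w : ℝ) ≤ m * (φ g w + K) := Nat.floor_le (hpos g w)
        have a2 : m * (φ g (g.1 w) + K) < (ψ g (g.1 w) : ℝ) + 1 := Nat.lt_floor_add_one _
        nlinarith
      have e2 := Finset.sum_le_sum (s := Finset.univ) (fun g _ => e g)
      rw [Finset.sum_sub_distrib, ← Finset.mul_sum] at e2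
      have e3 : m * u ≤ m * ∑ g : S, (φ g (g.1 w) - φ g w) :=
        mul_le_mul_of_nonneg_left (h w) hm0.le
      have e4 : m * u = n := by rw [hm]; field_simp
      have e5 : ∑ _g : S, (1 : ℝ) = n - 1 := by simp [hn]
      linarith
    rw [Finset.sum_sub_distrib] at key
    have key2 : ∑ g : S, (ψ g w) < ∑ g : S, ψ g (g.1 w) := by
      have := sub_pos.1 key
      exact_mod_cast this
    have key3 : ∑ g : S, (ψ g w) + 1 ≤ ∑ g : S, ψ g (g.1 w) := key2
    have key4 : (∑ g : S, (ψ g w : ℝ)) + 1 ≤ ∑ g : S, (ψ g (g.1 w) : ℝ) := by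
      exact_mod_cast key3
    show (1 : ℝ) ≤ ∑ g : S, (ψ g (g.1 w) : ℝ) - ∑ g : S, (ψ g w : ℝ)
    linarith
  -- the two evaluations of the integral
  have tot : ∑ t : (S → Fin N × Fin N), μ (J ⁻¹' {t}) = 1 := by
    rw [← mu_preimage μ hadd J Finset.univ]
    simpa using h1
  have low : (1 : ℝ) ≤ ∑ t : (S → Fin N × Fin N),
      (∑ g : S, (((t g).1 : ℕ) : ℝ) - ∑ g : S, (((t g).2 : ℕ) : ℝ)) * μ (J ⁻¹' {t}) := by
    rw [← tot]
    apply Finset.sum_le_sum
    intro t _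
    by_cases ht : ∃ w, J w = t
    · obtain ⟨w, rfl⟩ := ht
      have := hat w
      have h00 := h0 (J ⁻¹' {J w})
      nlinarith
    · have : J ⁻¹' {t} = ∅ := by
        ext w
        simp only [Set.mem_preimage, Set.mem_singleton_iff, Set.mem_empty_iff_false, iff_false]
        intro hw; exact ht ⟨w, hw⟩
      rw [this, mu_empty μ hadd]; simp
  have zero : ∑ t : (S → Fin N × Fin N),
      (∑ g : S, (((t g).1 : ℕ) : ℝ) - ∑ g : S, (((t g).2 : ℕ) : ℝ)) * μ (J ⁻¹' {t}) = 0 := by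
    simp_rw [← Finset.sum_sub_distrib, Finset.sum_mul]
    rw [Finset.sum_comm]
    apply Finset.sum_eq_zero
    intro g _
    simp_rw [sub_mul]
    rw [Finset.sum_sub_distrib]
    rw [mu_push μ hadd J (fun t => (t g).1) (fun b : Fin N => ((b : ℕ) : ℝ)),
      mu_push μ hadd J (fun t => (t g).2) (fun b : Fin N => ((b : ℕ) : ℝ)), sub_eq_zero]
    apply Finset.sum_congr rfl
    intro b _
    congr 1
    exact hinv g.1 g.2 ((fun w => (J w g).2) ⁻¹' {b})
  rw [zero] at low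
  linarith

/-! ### the `ℓ¹` side -/

/-- `ℓ¹(Ω)` -/
abbrev L1 (Ω : Type) : Type := lp (fun _ : Ω => ℝ) 1

open Classical in
/-- finitely supported functions in `ℓ¹` -/
noncomputable def toL1 (Ω : Type) : (Ω →₀ ℝ) →ₗ[ℝ] L1 Ω :=
  Finsupp.linearCombination ℝ (fun w => (lp.single 1 w (1 : ℝ) : L1 Ω))

theorem toL1_single (Ω : Type) [DecidableEq Ω] (w : Ω) :
    toL1 Ω (Finsupp.single w 1) = lp.single 1 w (1 : ℝ) := by
  classical
  unfold toL1
  rw [Finsupp.linearCombination_single, one_smul]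
  congr 1
  exact Subsingleton.elim _ _

theorem toL1_apply (Ω : Type) (ξ : Ω →₀ ℝ) (w : Ω) : (toL1 Ω ξ : Ω → ℝ) w = ξ w := by
  classical
  induction ξ using Finsupp.induction_linear with
  | zero => simp
  | add f g hf hg => rw [map_add, lp.coeFn_add, Pi.add_apply, hf, hg, Finsupp.add_apply]
  | single a b =>
    have : (Finsupp.single a b : Ω →₀ ℝ) = b • Finsupp.single a 1 := by simp
    rw [this, map_smul, toL1_single, lp.coeFn_smul, Pi.smul_apply, lp.single_apply,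
      Finsupp.smul_apply, Finsupp.single_apply, Pi.single_apply]
    simp [eq_comm]

theorem norm_toL1 (Ω : Type) (ξ : Ω →₀ ℝ) (T : Finset Ω) (hT : ξ.support ⊆ T) :
    ‖toL1 Ω ξ‖ = ∑ w ∈ T, |ξ w| := by
  classical
  rw [lp.norm_eq_tsum_rpow (by norm_num)]
  simp only [ENNReal.toReal_one, Real.rpow_one, div_one, toL1_apply, Real.norm_eq_abs]
  apply tsum_eq_sum
  intro w hw
  have : w ∉ ξ.support := fun h => hw (hT h)
  rw [Finsupp.notMem_support_iff] at this
  simp [this]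

/-- the set of finitely supported probability vectors -/
def prob (Ω : Type) : Set (Ω →₀ ℝ) := {ν | (∀ w, 0 ≤ ν w) ∧ ν.sum (fun _ c => c) = 1}

theorem prob_sum {Ω : Type} {ν : Ω →₀ ℝ} (hν : ν ∈ prob Ω) (T : Finset Ω) (hT : ν.support ⊆ T) :
    ∑ w ∈ T, ν w = 1 := by
  rw [← hν.2]
  exact (Finsupp.sum_of_support_subset ν hT (fun _ c => c) (by simp)).symm

theorem convex_prob (Ω : Type) : Convex ℝ (prob Ω) := by
  classical
  intro x hx y hy a b ha hb hab
  refine ⟨fun w => ?_, ?_⟩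
  · have h1 := hx.1 w
    have h2 := hy.1 w
    simp only [Finsupp.add_apply, Finsupp.smul_apply, smul_eq_mul]
    positivity
  · have h1 := prob_sum hx (x.support ∪ y.support) Finset.subset_union_left
    have h2 := prob_sum hy (x.support ∪ y.support) Finset.subset_union_right
    have h3 : (a • x + b • y).support ⊆ x.support ∪ y.support := by
      refine Finsupp.support_add.trans (Finset.union_subset_union ?_ ?_) <;>
        exact Finsupp.support_smul
    rw [Finsupp.sum_of_support_subset _ h3 (fun _ c => c) (by simp)]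
    simp only [Finsupp.add_apply, Finsupp.smul_apply, smul_eq_mul]
    rw [Finset.sum_add_distrib, ← Finset.mul_sum, ← Finset.mul_sum, h1, h2]
    linarith

/-- almost invariant finitely supported probability vectors -/
theorem almost_inv (Ω : Type) (S : Finset (Perm Ω)) (μ : Set Ω → ℝ) (h0 : ∀ A, 0 ≤ μ A)
    (h1 : μ Set.univ = 1) (hadd : ∀ A B, Disjoint A B → μ (A ∪ B) = μ A + μ B)
    (hinv : ∀ g ∈ S, ∀ A : Set Ω, μ (g ⁻¹' A) = μ A) (ε : ℝ) (hε : 0 < ε) :
    ∃ ν ∈ prob Ω, ∀ g ∈ S, ‖toL1 Ω (ν.mapDomain g - ν)‖ < ε := by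
  classical
  by_contra hcon
  push Not at hcon
  -- the linear map
  let D : (Ω →₀ ℝ) →ₗ[ℝ] (S → L1 Ω) :=
    LinearMap.pi (fun g : S => (toL1 Ω) ∘ₗ (Finsupp.lmapDomain ℝ ℝ g.1 - LinearMap.id))
  have hD : ∀ ν g, D ν g = toL1 Ω (ν.mapDomain g.1 - ν) := fun ν g => rfl
  have hconv : Convex ℝ (D '' prob Ω) := (convex_prob Ω).linear_image D
  have hdisj : Disjoint (Metric.ball (0 : S → L1 Ω) ε) (D '' prob Ω) := by
    rw [Set.disjoint_left]
    rintro x hx ⟨ν, hν, rfl⟩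
    obtain ⟨g, hg, hge⟩ := hcon ν hν
    rw [mem_ball_zero_iff] at hx
    have h2 : ‖D ν ⟨g, hg⟩‖ ≤ ‖D ν‖ := norm_le_pi_norm _ _
    rw [hD] at h2
    exact absurd (lt_of_le_of_lt h2 hx) (not_lt.2 hge)
  obtain ⟨F, u, hF1, hF2⟩ := geometric_hahn_banach_open (convex_ball (0 : S → L1 Ω) ε)
    Metric.isOpen_ball hconv hdisj
  have hu : 0 < u := by
    have := hF1 0 (Metric.mem_ball_self hε)
    simpa using this
  let φ : S → Ω → ℝ := fun g w => F (Pi.single g (lp.single 1 w (1 : ℝ) : L1 Ω))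
  have hK : ∀ g w, |φ g w| ≤ ‖F‖ := by
    intro g w
    have h2 := F.le_opNorm (Pi.single g (lp.single 1 w (1 : ℝ) : L1 Ω))
    have h3 : ‖(Pi.single g (lp.single 1 w (1 : ℝ)) : S → L1 Ω)‖ ≤ 1 := by
      rw [pi_norm_le_iff_of_nonneg zero_le_one]
      intro i
      by_cases hi : i = g
      · subst hi
        rw [Pi.single_eq_same, lp.norm_single (by norm_num)]
        simp
      · rw [Pi.single_eq_of_ne hi]; simp
    calc |φ g w| = ‖F (Pi.single g (lp.single 1 w (1 : ℝ) : L1 Ω))‖ := rfl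
      _ ≤ ‖F‖ * ‖(Pi.single g (lp.single 1 w (1 : ℝ)) : S → L1 Ω)‖ := h2
      _ ≤ ‖F‖ * 1 := mul_le_mul_of_nonneg_left h3 (norm_nonneg _)
      _ = ‖F‖ := mul_one _
  refine no_coboundary Ω S μ h0 h1 hadd hinv φ ‖F‖ hK u hu ?_
  intro w
  have hw : Finsupp.single w (1 : ℝ) ∈ prob Ω := by
    refine ⟨fun w' => ?_, by simp⟩
    rw [Finsupp.single_apply]; split_ifs <;> norm_num
  have h2 := hF2 _ ⟨_, hw, rfl⟩
  have h3 : D (Finsupp.single w (1 : ℝ)) = ∑ g : S, (Pi.single g (lp.single 1 (g.1 w) (1 : ℝ) : L1 Ω)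
      - Pi.single g (lp.single 1 w (1 : ℝ) : L1 Ω)) := by
    rw [← Finset.univ_sum_single (D (Finsupp.single w (1 : ℝ)))]
    apply Finset.sum_congr rfl
    intro g _
    rw [hD, Finsupp.mapDomain_single, map_sub, toL1_single, toL1_single, Pi.single_sub]
  rw [h3, map_sum] at h2
  simpa [φ] using h2

theorem sq_sqrt_sub_le (a b : ℝ) (ha : 0 ≤ a) (hb : 0 ≤ b) :
    (Real.sqrt a - Real.sqrt b) ^ 2 ≤ |a - b| := by
  have h1 := Real.sqrt_nonneg a
  have h2 := Real.sqrt_nonneg b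
  have h3 := Real.sq_sqrt ha
  have h4 := Real.sq_sqrt hb
  have h5 : a - b = (Real.sqrt a - Real.sqrt b) * (Real.sqrt a + Real.sqrt b) := by nlinarith
  rw [h5, abs_mul, abs_of_nonneg (add_nonneg h1 h2), ← sq_abs, sq]
  apply mul_le_mul_of_nonneg_left _ (abs_nonneg _)
  rw [abs_le]
  constructor <;> linarith

theorem norm_L2_sq (Ω : Type) (f : L2 Ω) (T : Finset Ω) (hT : ∀ w ∉ T, (f : Ω → ℝ) w = 0) :
    ‖f‖ ^ 2 = ∑ w ∈ T, ((f : Ω → ℝ) w) ^ 2 := by
  have h := lp.norm_rpow_eq_tsum two_toReal_pos f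
  have e : (2 : ENNReal).toReal = ((2 : ℕ) : ℝ) := by norm_num
  rw [e] at h
  simp only [Real.rpow_natCast] at h
  rw [h, tsum_eq_sum (s := T)]
  · apply Finset.sum_congr rfl
    intro w _
    rw [Real.norm_eq_abs, sq_abs]
  · intro w hw
    rw [hT w hw]; simp

theorem reiter (Ω : Type) (S : Finset (Perm Ω)) (μ : Set Ω → ℝ) (h0 : ∀ A, 0 ≤ μ A)
    (h1 : μ Set.univ = 1) (hadd : ∀ A B, Disjoint A B → μ (A ∪ B) = μ A + μ B)
    (hinv : ∀ g ∈ S, ∀ A : Set Ω, μ (g ⁻¹' A) = μ A) (ε : ℝ) (hε : 0 < ε) :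
    ∃ f : L2 Ω, ‖f‖ = 1 ∧ (Function.support (f : Ω → ℝ)).Finite ∧
      ∀ g ∈ S, ‖l2rep Ω g f - f‖ ≤ ε := by
  classical
  obtain ⟨ν, hν, hνS⟩ := almost_inv Ω S μ h0 h1 hadd hinv (ε ^ 2) (by positivity)
  have hsum : Summable fun w => ‖Real.sqrt (ν w)‖ ^ (2 : ENNReal).toReal := by
    apply summable_of_ne_finset_zero (s := ν.support)
    intro w hw
    rw [Finsupp.notMem_support_iff] at hw
    rw [hw]; simp
  let f : L2 Ω := ⟨fun w => Real.sqrt (ν w), memℓp_gen hsum⟩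
  have hf : ∀ w, (f : Ω → ℝ) w = Real.sqrt (ν w) := fun w => rfl
  refine ⟨f, ?_, ?_, ?_⟩
  · have h := norm_L2_sq Ω f ν.support (by
      intro w hw
      rw [Finsupp.notMem_support_iff] at hw
      rw [hf, hw]; simp)
    have h2 : ∑ w ∈ ν.support, ((f : Ω → ℝ) w) ^ 2 = 1 := by
      rw [← prob_sum hν ν.support (Finset.Subset.refl _)]
      apply Finset.sum_congr rfl
      intro w _
      rw [hf, Real.sq_sqrt (hν.1 w)]
    rw [h2] at h
    have h3 := norm_nonneg f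
    nlinarith
  · apply Set.Finite.subset ν.support.finite_toSet
    intro w hw
    rw [Function.mem_support, hf] at hw
    rw [Finset.mem_coe, Finsupp.mem_support_iff]
    intro h; apply hw; rw [h]; simp
  · intro g hg
    let T : Finset Ω := ν.support ∪ ν.support.image g
    have hmap : ∀ w, (ν.mapDomain g) w = ν (g⁻¹ w) := by
      intro w
      have := Finsupp.mapDomain_apply g.injective ν (g⁻¹ w)
      rw [← this]; simp
    have hz1 : ∀ w ∉ T, ν w = 0 := by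
      intro w hw
      rw [Finset.mem_union, not_or] at hw
      exact Finsupp.notMem_support_iff.1 hw.1
    have hz2 : ∀ w ∉ T, ν (g⁻¹ w) = 0 := by
      intro w hw
      rw [Finset.mem_union, not_or] at hw
      rw [← Finsupp.notMem_support_iff]
      intro h
      exact hw.2 (Finset.mem_image.2 ⟨g⁻¹ w, h, by simp⟩)
    have e1 := norm_L2_sq Ω (l2rep Ω g f - f) T (by
      intro w hw
      rw [lp.coeFn_sub, Pi.sub_apply, l2rep_apply, hf, hf, hz1 w hw, hz2 w hw]; simp)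
    have e2 := norm_toL1 Ω (ν.mapDomain g - ν) T (by
      intro w hw
      by_contra hwT
      rw [Finsupp.mem_support_iff, Finsupp.sub_apply, hmap, hz1 w hwT, hz2 w hwT] at hw
      simp at hw)
    have e3 := hνS g hg
    have e4 : ‖l2rep Ω g f - f‖ ^ 2 ≤ ε ^ 2 := by
      rw [e1]
      refine le_trans ?_ e3.le
      rw [e2]
      apply Finset.sum_le_sum
      intro w _
      rw [lp.coeFn_sub, Pi.sub_apply, l2rep_apply, hf, hf, Finsupp.sub_apply, hmap]
      exact sq_sqrt_sub_le _ _ (hν.1 _) (hν.1 _)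
    exact (sq_le_sq₀ (norm_nonneg _) hε.le).1 e4

end Pool.Agent.Helper78.Zd
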