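import Mathlib

/-! Module SELECT: three commuting families of orthogonal projections. -/

set_option autoImplicit false

namespace Pool.Agent.Helper78.Zd

section SelectAux

variable {H : Type*} [NormedAddCommGroup H] [InnerProductSpace ℝ H]

/-- Pythagoras for a symmetric idempotent. -/
theorem select_pyth (P : H →ₗ[ℝ] H) (hs : ∀ u v, inner ℝ (P u) v = inner ℝ u (P v))
    (hi : ∀ v, P (P v) = P v) (v : H) : ‖P v‖ ^ 2 + ‖v - P v‖ ^ 2 = ‖v‖ ^ 2 := by
  have h1 : inner ℝ v (P v) = ‖P v‖ ^ 2 := by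
    have := hs v (P v)
    rw [hi v] at this
    rw [← this, real_inner_self_eq_norm_sq]
  have h2 := norm_sub_sq_real v (P v)
  rw [h1] at h2
  linarith

theorem select_contr (P : H →ₗ[ℝ] H) (hs : ∀ u v, inner ℝ (P u) v = inner ℝ u (P v))
    (hi : ∀ v, P (P v) = P v) (v : H) : ‖P v‖ ≤ ‖v‖ := by
  have h := select_pyth P hs hi v
  have h2 : ‖P v‖ ^ 2 ≤ ‖v‖ ^ 2 := by nlinarith [sq_nonneg ‖v - P v‖]
  exact le_of_sq_le_sq h2 (norm_nonneg _)

theorem select_contr' (P : H →ₗ[ℝ] H) (hs : ∀ u v, inner ℝ (P u) v = inner ℝ u (P v))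
    (hi : ∀ v, P (P v) = P v) (v : H) : ‖v - P v‖ ≤ ‖v‖ := by
  have h := select_pyth P hs hi v
  have h2 : ‖v - P v‖ ^ 2 ≤ ‖v‖ ^ 2 := by nlinarith [sq_nonneg ‖P v‖]
  exact le_of_sq_le_sq h2 (norm_nonneg _)

/-- Bessel for pairwise orthogonal symmetric idempotents. -/
theorem select_bessel {X : Type*} (s : Finset X) (P : X → (H →ₗ[ℝ] H))
    (hs : ∀ x, ∀ u v, inner ℝ (P x u) v = inner ℝ u (P x v))
    (hi : ∀ x v, P x (P x v) = P x v)
    (ho : ∀ x ∈ s, ∀ y ∈ s, x ≠ y → ∀ v, P x (P y v) = 0) (w : H) :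
    ∑ x ∈ s, ‖P x w‖ ^ 2 ≤ ‖w‖ ^ 2 := by
  classical
  have h1 : inner ℝ w (∑ x ∈ s, P x w) = ∑ x ∈ s, ‖P x w‖ ^ 2 := by
    rw [inner_sum]
    refine Finset.sum_congr rfl fun x _ => ?_
    have := hs x w (P x w)
    rw [hi x w] at this
    rw [← this, real_inner_self_eq_norm_sq]
  have h2 : inner ℝ (∑ x ∈ s, P x w) (∑ x ∈ s, P x w) = ∑ x ∈ s, ‖P x w‖ ^ 2 := by
    rw [sum_inner]
    refine Finset.sum_congr rfl fun x hx => ?_
    rw [inner_sum]
    rw [Finset.sum_eq_single x]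
    · rw [real_inner_self_eq_norm_sq]
    · intro y hy hyx
      rw [hs x w (P y w), ho x hx y hy (Ne.symm hyx), inner_zero_right]
    · intro hx'
      exact absurd hx hx'
  have h3 := norm_sub_sq_real w (∑ x ∈ s, P x w)
  rw [h1, ← real_inner_self_eq_norm_sq (∑ x ∈ s, P x w), h2] at h3
  have h4 : 0 ≤ ‖w - ∑ x ∈ s, P x w‖ ^ 2 := sq_nonneg _
  linarith

end SelectAux

theorem select {H : Type*} [NormedAddCommGroup H] [InnerProductSpace ℝ H]
    {X : Type*} [Fintype X] [DecidableEq X]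
    (E : Fin 3 → Finset X → (H →ₗ[ℝ] H))
    (hsym : ∀ j A u v, inner ℝ (E j A u) v = inner ℝ u (E j A v))
    (hmul : ∀ j A B v, E j A (E j B v) = E j (A ∪ B) v)
    (N : X → Finset X)
    (hcomm : ∀ j k x A v, Disjoint A (N x) → E j {x} (E k A v) = E k A (E j {x} v))
    (col : X → Fin 3) (hcol : ∀ x y, x ≠ y → col x = col y → Disjoint (N x) (N y))
    (f : H) (η : ℝ) (hη : ∀ j, ‖f - E j Finset.univ f‖ ≤ η) :
    ∃ f' : H, ‖f' - f‖ ≤ 3 * η ∧ ∀ j, ∑ x, ‖f' - E j {x} f'‖ ^ 2 ≤ 75 * η ^ 2 := by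
  have hidem : ∀ j A v, E j A (E j A v) = E j A v := by
    intro j A v
    rw [hmul, Finset.union_self]
  have hc : ∀ j A v, ‖E j A v‖ ≤ ‖v‖ := fun j A v =>
    select_contr (E j A) (hsym j A) (hidem j A) v
  have hc' : ∀ j A v, ‖v - E j A v‖ ≤ ‖v‖ := fun j A v =>
    select_contr' (E j A) (hsym j A) (hidem j A) v
  have hη0 : 0 ≤ η := le_trans (norm_nonneg _) (hη 0)
  have huR : ∀ A : Finset X, A ∪ Finset.univ = Finset.univ := fun A =>
    Finset.union_eq_right.mpr (Finset.subset_univ A)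
  have huL : ∀ A : Finset X, Finset.univ ∪ A = Finset.univ := fun A =>
    Finset.union_eq_left.mpr (Finset.subset_univ A)
  set P : Fin 3 → X → (H →ₗ[ℝ] H) :=
    fun k x => E k (Finset.univ \ N x) - E k Finset.univ with hP
  have hPapp : ∀ k x v, P k x v = E k (Finset.univ \ N x) v - E k Finset.univ v := by
    intro k x v
    rfl
  have hPs : ∀ k x, ∀ u v, inner ℝ (P k x u) v = inner ℝ u (P k x v) := by
    intro k x u v
    rw [hPapp, hPapp, inner_sub_left, inner_sub_right, hsym, hsym]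
  have hPi : ∀ k x v, P k x (P k x v) = P k x v := by
    intro k x v
    rw [hPapp, hPapp, map_sub, map_sub, hmul, hmul, hmul, hmul]
    simp [huR, huL]
  have hPo : ∀ k x y, x ≠ y → col x = col y → ∀ v, P k x (P k y v) = 0 := by
    intro k x y hxy hcxy v
    have hd := hcol x y hxy hcxy
    have hu : (Finset.univ \ N x) ∪ (Finset.univ \ N y) = Finset.univ := by
      ext z
      simp only [Finset.mem_union, Finset.mem_sdiff, Finset.mem_univ, true_and, iff_true]
      by_contra hz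
      push Not at hz
      exact (Finset.disjoint_left.mp hd) hz.1 hz.2
    rw [hPapp, hPapp, map_sub, map_sub, hmul, hmul, hmul, hmul, hu]
    simp [huR, huL]
  have hPu : ∀ k x v, P k x v = P k x (v - E k Finset.univ v) := by
    intro k x v
    rw [map_sub, hPapp k x (E k Finset.univ v), hmul, hmul]
    simp [huR]
  have hB : ∀ k v, ∑ x, ‖P k x v‖ ^ 2 ≤ 3 * ‖v - E k Finset.univ v‖ ^ 2 := by
    intro k v
    have h1 : ∀ c : Fin 3, ∑ x ∈ Finset.univ.filter (fun x => col x = c), ‖P k x v‖ ^ 2 ≤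
        ‖v - E k Finset.univ v‖ ^ 2 := by
      intro c
      have h2 := select_bessel (Finset.univ.filter (fun x => col x = c)) (P k) (hPs k) (hPi k)
        (by
          intro x hx y hy hxy v
          rw [Finset.mem_filter] at hx hy
          exact hPo k x y hxy (hx.2.trans hy.2.symm) v) (v - E k Finset.univ v)
      refine le_trans (le_of_eq ?_) h2
      refine Finset.sum_congr rfl fun x _ => ?_
      rw [← hPu]
    have h3 : ∑ x, ‖P k x v‖ ^ 2 =
        ∑ c : Fin 3, ∑ x ∈ Finset.univ.filter (fun x => col x = c), ‖P k x v‖ ^ 2 := by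
      rw [Finset.sum_fiberwise]
    rw [h3, Fin.sum_univ_three]
    have := h1 0
    have := h1 1
    have := h1 2
    linarith
  have hstar : ∀ j k x v, ‖E k Finset.univ v - E j {x} (E k Finset.univ v)‖ ≤
      ‖v - E j {x} v‖ + ‖P k x v‖ := by
    intro j k x v
    have hE : E k Finset.univ v = E k (Finset.univ \ N x) v - P k x v := by
      rw [hPapp]; abel
    have h1 : E k Finset.univ v - E j {x} (E k Finset.univ v) =
        E k (Finset.univ \ N x) (v - E j {x} v) - (P k x v - E j {x} (P k x v)) := by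
      rw [hE, map_sub, map_sub, hcomm j k x (Finset.univ \ N x) v Finset.sdiff_disjoint]
      abel
    rw [h1]
    refine le_trans (norm_sub_le _ _) ?_
    exact add_le_add (hc _ _ _) (hc' _ _ _)
  -- the vectors
  set w : H := E 2 Finset.univ f with hw
  set v : H := E 1 Finset.univ w with hv
  have hwf : ‖w - f‖ ≤ η := by
    rw [norm_sub_rev]; exact hη 2
  have hvf : ‖v - f‖ ≤ 2 * η := by
    have h1 : v - f = E 1 Finset.univ (w - f) - (f - E 1 Finset.univ f) := by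
      rw [hv, map_sub]; abel
    rw [h1]
    refine le_trans (norm_sub_le _ _) ?_
    have := hc 1 Finset.univ (w - f)
    have := hη 1
    linarith
  have hff : ‖E 0 Finset.univ v - f‖ ≤ 3 * η := by
    have h1 : E 0 Finset.univ v - f = E 0 Finset.univ (v - f) - (f - E 0 Finset.univ f) := by
      rw [map_sub]; abel
    rw [h1]
    refine le_trans (norm_sub_le _ _) ?_
    have := hc 0 Finset.univ (v - f)
    have := hη 0
    linarith
  have hv0 : ‖v - E 0 Finset.univ v‖ ≤ 3 * η := by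
    have h1 : v - E 0 Finset.univ v =
        ((v - f) - E 0 Finset.univ (v - f)) + (f - E 0 Finset.univ f) := by
      rw [map_sub]; abel
    rw [h1]
    refine le_trans (norm_add_le _ _) ?_
    have := hc' 0 Finset.univ (v - f)
    have := hη 0
    linarith
  have hw1 : ‖w - E 1 Finset.univ w‖ ≤ 2 * η := by
    have h1 : w - E 1 Finset.univ w =
        ((w - f) - E 1 Finset.univ (w - f)) + (f - E 1 Finset.univ f) := by
      rw [map_sub]; abel
    rw [h1]
    refine le_trans (norm_add_le _ _) ?_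
    have := hc' 1 Finset.univ (w - f)
    have := hη 1
    linarith
  have hS0 : ∑ x, ‖P 0 x v‖ ^ 2 ≤ 27 * η ^ 2 := by
    refine le_trans (hB 0 v) ?_
    have : ‖v - E 0 Finset.univ v‖ ^ 2 ≤ (3 * η) ^ 2 :=
      pow_le_pow_left₀ (norm_nonneg _) hv0 2
    nlinarith
  have hS1 : ∑ x, ‖P 1 x w‖ ^ 2 ≤ 12 * η ^ 2 := by
    refine le_trans (hB 1 w) ?_
    have : ‖w - E 1 Finset.univ w‖ ^ 2 ≤ (2 * η) ^ 2 :=
      pow_le_pow_left₀ (norm_nonneg _) hw1 2
    nlinarith
  have hfix : ∀ j x u, E j {x} (E j Finset.univ u) = E j Finset.univ u := by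
    intro j x u
    rw [hmul]; simp
  refine ⟨E 0 Finset.univ v, hff, ?_⟩
  intro j
  fin_cases j
  · -- j = 0
    have h0 : ∀ x, ‖E 0 Finset.univ v - E 0 {x} (E 0 Finset.univ v)‖ ^ 2 = 0 := by
      intro x
      rw [hfix, sub_self, norm_zero]; simp
    have : ∑ x, ‖E 0 Finset.univ v - E 0 {x} (E 0 Finset.univ v)‖ ^ 2 = 0 := by
      simp [h0]
    show ∑ x, ‖E 0 Finset.univ v - E 0 {x} (E 0 Finset.univ v)‖ ^ 2 ≤ 75 * η ^ 2
    rw [this]
    positivity
  · -- j = 1
    show ∑ x, ‖E 0 Finset.univ v - E 1 {x} (E 0 Finset.univ v)‖ ^ 2 ≤ 75 * η ^ 2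
    have h1 : ∀ x, ‖E 0 Finset.univ v - E 1 {x} (E 0 Finset.univ v)‖ ^ 2 ≤ ‖P 0 x v‖ ^ 2 := by
      intro x
      refine pow_le_pow_left₀ (norm_nonneg _) ?_ 2
      have := hstar 1 0 x v
      rw [hv, hfix, sub_self, norm_zero, zero_add] at this
      exact this
    have h2 := Finset.sum_le_sum (fun x (_ : x ∈ (Finset.univ : Finset X)) => h1 x)
    nlinarith [sq_nonneg η]
  · -- j = 2
    show ∑ x, ‖E 0 Finset.univ v - E 2 {x} (E 0 Finset.univ v)‖ ^ 2 ≤ 75 * η ^ 2
    have h1 : ∀ x, ‖E 0 Finset.univ v - E 2 {x} (E 0 Finset.univ v)‖ ^ 2 ≤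
        (5 / 2) * ‖P 1 x w‖ ^ 2 + (5 / 3) * ‖P 0 x v‖ ^ 2 := by
      intro x
      have ha := hstar 2 0 x v
      have hb := hstar 2 1 x w
      have hz : ‖w - E 2 {x} w‖ = 0 := by
        rw [hw, hfix, sub_self, norm_zero]
      rw [hz, zero_add] at hb
      have hab : ‖E 0 Finset.univ v - E 2 {x} (E 0 Finset.univ v)‖ ≤
          ‖P 1 x w‖ + ‖P 0 x v‖ := by
        refine le_trans ha ?_
        have : ‖v - E 2 {x} v‖ ≤ ‖P 1 x w‖ := hb
        linarith
      have h3 : ‖E 0 Finset.univ v - E 2 {x} (E 0 Finset.univ v)‖ ^ 2 ≤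
          (‖P 1 x w‖ + ‖P 0 x v‖) ^ 2 := pow_le_pow_left₀ (norm_nonneg _) hab 2
      nlinarith [sq_nonneg (3 * ‖P 1 x w‖ - 2 * ‖P 0 x v‖)]
    have h2 := Finset.sum_le_sum (fun x (_ : x ∈ (Finset.univ : Finset X)) => h1 x)
    rw [Finset.sum_add_distrib, ← Finset.mul_sum, ← Finset.mul_sum] at h2
    nlinarith

end Pool.Agent.Helper78.Zd
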