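import Mathlib

/-! MODULE SPECTRAL: near-invariance under rank-one functions implies near-invariance. -/

set_option autoImplicit false

namespace Pool.Agent.Helper78.Zd

/-- the nontrivial character of `ZMod 2` -/
private noncomputable def sgn (x : ZMod 2) : ℝ := if x = 0 then 1 else -1

private lemma sgn_add (x y : ZMod 2) : sgn (x + y) = sgn x * sgn y := by
  have h11 : (1 : ZMod 2) + 1 = 0 := by decide
  have h10 : (1 : ZMod 2) ≠ 0 := by decide
  have hx : x = 0 ∨ x = 1 := by revert x; decide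
  have hy : y = 0 ∨ y = 1 := by revert y; decide
  rcases hx with rfl | rfl <;> rcases hy with rfl | rfl <;> simp [sgn, h11, h10]

private lemma sgn_zero : sgn 0 = 1 := by simp [sgn]

private lemma sgn_one : sgn 1 = -1 := by
  have h10 : (1 : ZMod 2) ≠ 0 := by decide
  simp [sgn, h10]

private lemma sgn_le (x : ZMod 2) : sgn x ≤ 1 := by
  unfold sgn; split_ifs <;> norm_num

private lemma neg_le_sgn (x : ZMod 2) : -1 ≤ sgn x := by
  unfold sgn; split_ifs <;> norm_num

private lemma sum_sgn {X : Type*} [Fintype X] [DecidableEq X] (r : X → ZMod 2) :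
    ∑ χ : X → ZMod 2, sgn (∑ x, χ x * r x) =
      if r = 0 then (Fintype.card (X → ZMod 2) : ℝ) else 0 := by
  split_ifs with hr
  · subst hr
    simp [sgn_zero]
  · obtain ⟨x0, hx0⟩ : ∃ x0, r x0 ≠ 0 := by
      by_contra hcon
      push Not at hcon
      exact hr (funext hcon)
    have hx1 : r x0 = 1 := by
      have : ∀ a : ZMod 2, a ≠ 0 → a = 1 := by decide
      exact this _ hx0
    have hshift : ∑ χ : X → ZMod 2, sgn (∑ x, χ x * r x) =
        ∑ χ : X → ZMod 2, sgn (∑ x, (χ + Pi.single x0 1 : X → ZMod 2) x * r x) :=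
      (Equiv.sum_comp (Equiv.addRight (Pi.single x0 (1 : ZMod 2)))
        (fun χ : X → ZMod 2 => sgn (∑ x, χ x * r x))).symm
    have hneg : ∀ χ : X → ZMod 2, sgn (∑ x, (χ + Pi.single x0 1 : X → ZMod 2) x * r x) =
        - sgn (∑ x, χ x * r x) := by
      intro χ
      have : ∑ x, (χ + Pi.single x0 1 : X → ZMod 2) x * r x = ∑ x, χ x * r x + 1 := by
        simp only [Pi.add_apply, add_mul, Finset.sum_add_distrib]
        congr 1
        rw [Finset.sum_eq_single x0]
        · simp [hx1]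
        · intro b _ hb
          simp [Pi.single_eq_of_ne hb]
        · intro h; exact absurd (Finset.mem_univ _) h
      rw [this, sgn_add, sgn_one]; ring
    rw [Finset.sum_congr rfl (fun χ _ => hneg χ), Finset.sum_neg_distrib] at hshift
    linarith

private lemma sum_tensor {I J : Type*} [Fintype I] [Fintype J] [DecidableEq I] [DecidableEq J]
    (χ : I × J → ZMod 2) (hχ : χ ≠ 0) :
    ∑ α : I → ZMod 2, ∑ β : J → ZMod 2, sgn (∑ x : I × J, χ x * (α x.1 * β x.2)) ≤
      (Fintype.card (I → ZMod 2) : ℝ) * Fintype.card (J → ZMod 2) / 2 := by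
  obtain ⟨⟨i0, j0⟩, h0⟩ : ∃ x0, χ x0 ≠ 0 := by
    by_contra hcon
    push Not at hcon
    exact hχ (funext hcon)
  have hinner : ∀ α : I → ZMod 2,
      ∑ β : J → ZMod 2, sgn (∑ x : I × J, χ x * (α x.1 * β x.2)) ≤
        (Fintype.card (J → ZMod 2) : ℝ) * ((1 + sgn (∑ i, α i * χ (i, j0))) / 2) := by
    intro α
    have h1 : ∀ β : J → ZMod 2, ∑ x : I × J, χ x * (α x.1 * β x.2) =
        ∑ j, β j * (∑ i, α i * χ (i, j)) := by
      intro β
      rw [Fintype.sum_prod_type_right]
      refine Finset.sum_congr rfl fun j _ => ?_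
      rw [Finset.mul_sum]
      refine Finset.sum_congr rfl fun i _ => ?_
      ring
    simp only [h1]
    rw [sum_sgn (fun j => ∑ i, α i * χ (i, j))]
    split_ifs with hz
    · have : ∑ i, α i * χ (i, j0) = 0 := congrFun hz j0
      rw [this, sgn_zero]
      norm_num
    · have := neg_le_sgn (∑ i, α i * χ (i, j0))
      have h2 : (0 : ℝ) ≤ Fintype.card (J → ZMod 2) := by positivity
      have h3 : (0 : ℝ) ≤ (1 + sgn (∑ i, α i * χ (i, j0))) / 2 := by linarith
      positivity
  refine (Finset.sum_le_sum fun α _ => hinner α).trans ?_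
  rw [← Finset.mul_sum, ← Finset.sum_div, Finset.sum_add_distrib,
    sum_sgn (fun i => χ (i, j0)), if_neg (fun h => h0 (congrFun h i0))]
  simp
  apply le_of_eq
  ring

theorem rank_one {H : Type*} [NormedAddCommGroup H] [InnerProductSpace ℝ H]
    {I J : Type*} [Fintype I] [Fintype J]
    (U : (I × J → ZMod 2) → (H ≃ₗᵢ[ℝ] H)) (hU : ∀ r s v, U (r + s) v = U r (U s v))
    (f : H) (δ : ℝ)
    (h : ∀ (α : I → ZMod 2) (β : J → ZMod 2), ‖U (fun x => α x.1 * β x.2) f - f‖ ≤ δ)
    (r : I × J → ZMod 2) : ‖U r f - f‖ ≤ 2 * δ := by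
  classical
  have hU0 : ∀ v, U 0 v = v := by
    intro v
    have := hU 0 0 v
    rw [add_zero] at this
    exact ((U 0).injective this).symm
  have hself : ∀ s : I × J → ZMod 2, s + s = 0 := fun s => by
    funext x; exact CharTwo.add_self_eq_zero (s x)
  have hin : ∀ r s, inner ℝ (U r f) (U s f) = inner ℝ (U (r + s) f) f := by
    intro r s
    rw [← (U s).inner_map_map (U r f) (U s f), ← hU, ← hU, hself, hU0, add_comm]
  have hnorm : ∀ r, ‖U r f - f‖ ^ 2 = 2 * (inner ℝ (U 0 f) f - inner ℝ (U r f) f) := by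
    intro r
    rw [norm_sub_sq_real, (U r).norm_map, hU0, real_inner_self_eq_norm_sq]
    ring
  set φ : (I × J → ZMod 2) → ℝ := fun r => inner ℝ (U r f) f with hφ
  set m : (I × J → ZMod 2) → ℝ := fun χ => ∑ r, sgn (∑ x, χ x * r x) * φ r with hm
  set N : ℝ := (Fintype.card (I × J → ZMod 2) : ℝ) with hN
  have hNpos : 0 < N := by rw [hN]; exact_mod_cast Fintype.card_pos
  have hpair : ∀ χ r s : I × J → ZMod 2, sgn (∑ x, χ x * r x) * sgn (∑ x, χ x * s x) =
      sgn (∑ x, χ x * (r + s) x) := by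
    intro χ r s
    rw [← sgn_add, ← Finset.sum_add_distrib]
    simp [mul_add]
  have hmnn : ∀ χ, 0 ≤ m χ := by
    intro χ
    have h1 : N * m χ = ‖∑ r, sgn (∑ x, χ x * r x) • U r f‖ ^ 2 := by
      rw [← real_inner_self_eq_norm_sq, sum_inner]
      have : ∀ r : I × J → ZMod 2, inner ℝ (sgn (∑ x, χ x * r x) • U r f)
          (∑ s, sgn (∑ x, χ x * s x) • U s f) = m χ := by
        intro r
        rw [inner_sum]
        have h2 : ∀ s : I × J → ZMod 2, inner ℝ (sgn (∑ x, χ x * r x) • U r f)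
            (sgn (∑ x, χ x * s x) • U s f) = sgn (∑ x, χ x * (r + s) x) * φ (r + s) := by
          intro s
          rw [real_inner_smul_left, real_inner_smul_right, hin, ← hpair]
          ring
        rw [Finset.sum_congr rfl (fun s _ => h2 s)]
        exact Equiv.sum_comp (Equiv.addLeft r)
          (fun t : I × J → ZMod 2 => sgn (∑ x, χ x * t x) * φ t)
      rw [Finset.sum_congr rfl (fun r _ => this r)]
      simp [hN]
    have h2 : 0 ≤ N * m χ := by rw [h1]; positivity
    exact nonneg_of_mul_nonneg_right h2 hNpos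
  have hinv : ∀ r, N * φ r = ∑ χ, sgn (∑ x, χ x * r x) * m χ := by
    intro r
    simp only [hm, Finset.mul_sum]
    rw [Finset.sum_comm]
    have h1 : ∀ s : I × J → ZMod 2,
        ∑ χ : I × J → ZMod 2, sgn (∑ x, χ x * r x) * (sgn (∑ x, χ x * s x) * φ s) =
          if s = r then N * φ r else 0 := by
      intro s
      have h2 : ∀ χ : I × J → ZMod 2,
          sgn (∑ x, χ x * r x) * (sgn (∑ x, χ x * s x) * φ s) =
            sgn (∑ x, χ x * (r + s) x) * φ s := by
        intro χ; rw [← mul_assoc, hpair]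
      rw [Finset.sum_congr rfl (fun χ _ => h2 χ), ← Finset.sum_mul, sum_sgn]
      by_cases hs : s = r
      · subst hs
        rw [if_pos (hself s), if_pos rfl]
      · rw [if_neg hs, if_neg, zero_mul]
        intro h3
        apply hs
        have : r + (r + s) = r + 0 := by rw [h3]
        rw [← add_assoc, hself, zero_add, add_zero] at this
        exact this
    rw [Finset.sum_congr rfl (fun s _ => h1 s)]
    simp
  have hdiff : ∀ r, N * (φ 0 - φ r) = ∑ χ, (1 - sgn (∑ x, χ x * r x)) * m χ := by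
    intro r
    rw [mul_sub, hinv 0, hinv r, ← Finset.sum_sub_distrib]
    refine Finset.sum_congr rfl fun χ _ => ?_
    simp [sgn_zero]
    ring
  set T : ℝ := ∑ χ ∈ Finset.univ.erase (0 : I × J → ZMod 2), m χ with hT
  have hup : ∀ r, N * (φ 0 - φ r) ≤ 2 * T := by
    intro r
    rw [hdiff r, ← Finset.sum_erase_add _ _ (Finset.mem_univ (0 : I × J → ZMod 2))]
    have : (1 - sgn (∑ x, (0 : I × J → ZMod 2) x * r x)) * m 0 = 0 := by simp [sgn_zero]
    rw [this, add_zero, hT, Finset.mul_sum]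
    refine Finset.sum_le_sum fun χ _ => ?_
    exact mul_le_mul_of_nonneg_right (by linarith [neg_le_sgn (∑ x, χ x * r x)]) (hmnn χ)
  have hδ : 0 ≤ δ := (norm_nonneg _).trans (h 0 0)
  set A : ℝ := (Fintype.card (I → ZMod 2) : ℝ) with hA
  set B : ℝ := (Fintype.card (J → ZMod 2) : ℝ) with hB
  have hApos : 0 < A := by rw [hA]; exact_mod_cast Fintype.card_pos
  have hBpos : 0 < B := by rw [hB]; exact_mod_cast Fintype.card_pos
  have hlow : A * B / 2 * T ≤
      ∑ α : I → ZMod 2, ∑ β : J → ZMod 2, N * (φ 0 - φ (fun x => α x.1 * β x.2)) := by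
    have h1 : ∑ α : I → ZMod 2, ∑ β : J → ZMod 2, N * (φ 0 - φ (fun x => α x.1 * β x.2)) =
        ∑ χ, (∑ α : I → ZMod 2, ∑ β : J → ZMod 2,
          (1 - sgn (∑ x : I × J, χ x * (α x.1 * β x.2)))) * m χ := by
      simp only [hdiff, Finset.sum_mul]
      rw [Finset.sum_congr rfl (fun α _ => Finset.sum_comm), Finset.sum_comm]
    rw [h1, ← Finset.sum_erase_add _ _ (Finset.mem_univ (0 : I × J → ZMod 2)), hT,
      Finset.mul_sum]
    have h0 : (∑ α : I → ZMod 2, ∑ β : J → ZMod 2,
          (1 - sgn (∑ x : I × J, (0 : I × J → ZMod 2) x * (α x.1 * β x.2)))) * m 0 = 0 := by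
      simp [sgn_zero]
    rw [h0, add_zero]
    refine Finset.sum_le_sum fun χ hχ => ?_
    refine mul_le_mul_of_nonneg_right ?_ (hmnn χ)
    have h2 := sum_tensor χ (Finset.ne_of_mem_erase hχ)
    have h3 : ∑ α : I → ZMod 2, ∑ β : J → ZMod 2,
        (1 - sgn (∑ x : I × J, χ x * (α x.1 * β x.2))) =
        A * B - ∑ α : I → ZMod 2, ∑ β : J → ZMod 2,
          sgn (∑ x : I × J, χ x * (α x.1 * β x.2)) := by
      simp only [Finset.sum_sub_distrib]
      simp [hA, hB]
    rw [h3]
    linarith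
  have hupp : ∑ α : I → ZMod 2, ∑ β : J → ZMod 2, N * (φ 0 - φ (fun x => α x.1 * β x.2)) ≤
      A * B * (N * (δ ^ 2 / 2)) := by
    have h1 : ∀ (α : I → ZMod 2) (β : J → ZMod 2),
        N * (φ 0 - φ (fun x => α x.1 * β x.2)) ≤ N * (δ ^ 2 / 2) := by
      intro α β
      refine mul_le_mul_of_nonneg_left ?_ hNpos.le
      have h2 := hnorm (fun x => α x.1 * β x.2)
      have h3 : ‖U (fun x => α x.1 * β x.2) f - f‖ ^ 2 ≤ δ ^ 2 :=
        pow_le_pow_left₀ (norm_nonneg _) (h α β) 2
      have h4 : 2 * (φ 0 - φ (fun x => α x.1 * β x.2)) ≤ δ ^ 2 := by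
        rw [← h2] ; exact h3
      linarith
    refine (Finset.sum_le_sum fun α _ => Finset.sum_le_sum fun β _ => h1 α β).trans ?_
    apply le_of_eq
    simp [hA, hB]
    ring
  have hTle : T ≤ N * δ ^ 2 := by
    have h1 := hlow.trans hupp
    have h2 : A * B * T ≤ A * B * (N * δ ^ 2) := by linarith
    exact le_of_mul_le_mul_left h2 (mul_pos hApos hBpos)
  have hfin : ‖U r f - f‖ ^ 2 ≤ (2 * δ) ^ 2 := by
    rw [hnorm r]
    have h1 : N * (φ 0 - φ r) ≤ N * (2 * δ ^ 2) := by
      have := hup r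
      linarith
    have h2 : φ 0 - φ r ≤ 2 * δ ^ 2 := le_of_mul_le_mul_left h1 hNpos
    have h3 : 2 * (φ 0 - φ r) ≤ (2 * δ) ^ 2 := by nlinarith
    exact h3
  exact abs_le_of_sq_le_sq' hfin (by linarith) |>.2

end Pool.Agent.Helper78.Zd
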