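import Pool.Agent.Helper78.Zd.Defs

set_option autoImplicit false

namespace Pool.Agent.Helper78.Zd

open Equiv

variable {B R : Type} {M : ℕ}

namespace BaseData

variable (D : BaseData B R)

lemma nx_ne_base_root (e : Bool) (c : Cell B R M) (b : B) :
    D.nx e c ≠ .base (D.root b) := by
  cases c with
  | base ρ =>
    rw [nx]
    cases h : D.next e ρ with
    | inl ρ' =>
      simp only [ne_eq, Cell.base.injEq]
      rintro rfl
      exact D.ne_root e ρ b h
    | inr c => simp
  | up β c i => rw [nx_up]; simp

lemma nx_inj (e : Bool) : Function.Injective (D.nx (M := M) e) := by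
  intro c
  induction c with
  | base ρ =>
    intro c' h
    cases c' with
    | base ρ' =>
      rw [nx, nx] at h
      cases h1 : D.next e ρ with
      | inl r =>
        cases h2 : D.next e ρ' with
        | inl r' =>
          simp only [h1, h2, Cell.base.injEq] at h
          subst h
          rw [D.inl_inj e ρ ρ' r h1 h2]
        | inr b' => simp [h1, h2] at h
      | inr b =>
        cases h2 : D.next e ρ' with
        | inl r' => simp [h1, h2] at h
        | inr b' =>
          simp only [h1, h2, Cell.up.injEq, Cell.base.injEq, and_true] at h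
          obtain ⟨h3, h4⟩ := h
          have h5 : b = b' := by rw [← D.a0_root b, ← D.a0_root b', h4]
          subst h5
          rw [D.inr_inj e ρ ρ' b h1 h2 h3]
    | up β' c' i' =>
      rw [nx_up] at h
      rw [nx] at h
      cases h1 : D.next e ρ with
      | inl r => simp [h1] at h
      | inr b =>
        simp only [h1, Cell.up.injEq] at h
        obtain ⟨_, h3, h4⟩ := h
        exfalso
        unfold ns at h3 h4
        by_cases hi : i' + 1 = 0
        · rw [if_pos hi] at h3
          exact D.nx_ne_base_root e c' b h3.symm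
        · rw [if_neg hi] at h4
          exact hi h4.symm
  | up β c i ih =>
    intro c' h
    cases c' with
    | base ρ' =>
      rw [nx_up] at h
      rw [nx] at h
      cases h1 : D.next e ρ' with
      | inl r => simp [h1] at h
      | inr b =>
        simp only [h1, Cell.up.injEq] at h
        obtain ⟨_, h3, h4⟩ := h
        exfalso
        unfold ns at h3 h4
        by_cases hi : i + 1 = 0
        · rw [if_pos hi] at h3
          exact D.nx_ne_base_root e c b h3
        · rw [if_neg hi] at h4
          exact hi h4
    | up β' c' i' =>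
      rw [nx_up, nx_up] at h
      simp only [Cell.up.injEq] at h
      obtain ⟨rfl, h3, h4⟩ := h
      unfold ns at h3 h4
      by_cases hi : i + 1 = 0 <;> by_cases hi' : i' + 1 = 0
      · rw [if_pos hi, if_pos hi'] at h3
        rw [ih h3]
        have : i = i' := by
          have : i + 1 = i' + 1 := by rw [hi, hi']
          exact add_right_cancel this
        rw [this]
      · rw [if_pos hi, if_neg hi'] at h4
        exact absurd h4.symm hi'
      · rw [if_neg hi, if_pos hi'] at h4
        exact absurd h4 hi
      · rw [if_neg hi, if_neg hi'] at h3 h4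
        have h5 : i = i' := add_right_cancel h4
        have h6 : c = c' := h3
        rw [h5, h6]

lemma ns_inj (e : Bool) : Function.Injective (D.ns (M := M) e) := by
  rintro ⟨c, i⟩ ⟨c', i'⟩ h
  unfold ns at h
  by_cases hi : i + 1 = 0 <;> by_cases hi' : i' + 1 = 0
  · simp only [if_pos hi, if_pos hi', Prod.mk.injEq, and_true] at h
    have h5 : i = i' := by
      have : i + 1 = i' + 1 := by rw [hi, hi']
      exact add_right_cancel this
    rw [h5, D.nx_inj e h]
  · simp only [if_pos hi, if_neg hi', Prod.mk.injEq] at h
    exact absurd h.2.symm hi'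
  · simp only [if_neg hi, if_pos hi', Prod.mk.injEq] at h
    exact absurd h.2 hi
  · simp only [if_neg hi, if_neg hi', Prod.mk.injEq] at h
    rw [h.1, add_right_cancel h.2]

lemma ns_snd (e : Bool) (s : Node B R M) : (D.ns e s).2 = s.2 + 1 := by
  unfold ns
  split_ifs with h
  · exact h.symm
  · rfl

lemma c0_ns (e : Bool) (s : Node B R M) : D.c0 (D.ns e s).1 = D.c0 s.1 := by
  unfold ns
  split_ifs with h
  · exact D.c0_nx e s.1
  · rfl

end BaseData

lemma par_add_one (h2 : 2 ∣ M) (i : ZMod M) : par (i + 1) = par i + 1 := by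
  unfold par
  rw [ZMod.cast_add h2, ZMod.cast_one h2]

lemma col_add_one (h3 : 3 ∣ M) (i : ZMod M) : col (i + 1) = col i + 1 := by
  unfold col
  rw [ZMod.cast_add h3, ZMod.cast_one h3]

/-- the window family of parity `κ` with selector `e` -/
noncomputable def preWin (D : BaseData B R) (h2 : 2 ∣ M) (e : Bool) (κ : ZMod 2) :
    Win {s : Node B R M // par s.2 = κ} (Node B R M) where
  p s := s.1
  q s := D.ns e s.1
  hp := Subtype.val_injective
  hq := fun s t h => Subtype.ext (D.ns_inj e h)
  hpq := fun s t h => by
    have h1 : par s.1.2 = par (D.ns e t.1).2 := by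
      show par s.1.2 = par (D.ns e t.1).2
      have : s.1 = D.ns e t.1 := h
      rw [this]
    rw [D.ns_snd, par_add_one h2, s.2, t.2] at h1
    revert h1
    generalize κ = k
    revert k
    decide

variable {H : Type*} [NormedAddCommGroup H] [InnerProductSpace ℝ H]

/-- near invariance of all typed window families -/
def Pre (D : BaseData B R) (h2 : 2 ∣ M) (ρ : Perm (Node B R M × Fin 6) →* (H ≃ₗᵢ[ℝ] H))
    (f : H) (η : ℝ) : Prop :=
  ∀ (e : Bool) (κ : ZMod 2) (ψ : Typ B M → A12),
    mv ρ f ((preWin D h2 e κ).act (fun s => (ψ (D.typ s.1)).1)) ≤ η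

open Classical in
/-- near invariance after the selection of the colour `β`, position by position -/
def Post (D : BaseData B R) (h2 : 2 ∣ M) (ρ : Perm (Node B R M × Fin 6) →* (H ≃ₗᵢ[ℝ] H))
    (β : B) (f : H) (err : ZMod M → ℝ) : Prop :=
  ∀ (e : Bool) (i : ZMod M) (ψ : Lab B M → A12),
    mv ρ f ((preWin D h2 e (par i)).act
      (fun s => if s.1.2 = i ∧ D.c0 s.1.1 = β then (ψ (D.lab s.1)).1 else 1)) ≤ err i

/-- the embedding of the next level -/
def J (β : B) : (Node B R M × Fin 6) ↪ (Node B R M × Fin 6) where
  toFun x := ((.up β x.1.1 x.1.2, 0), x.2)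
  inj' := by
    rintro ⟨⟨c, i⟩, v⟩ ⟨⟨c', i'⟩, v'⟩ h
    simp only [Prod.mk.injEq, Cell.up.injEq, true_and, and_true] at h
    obtain ⟨⟨h1, h2⟩, h3⟩ := h
    rw [h1, h2, h3]

/-- extension of permutations along `J β` -/
noncomputable def ext (β : B) :
    Perm (Node B R M × Fin 6) →* Perm (Node B R M × Fin 6) :=
  Equiv.Perm.viaEmbeddingHom (J β)

end Pool.Agent.Helper78.Zd
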