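import Pool.Agent.Helper78.Zd.WinAlg
import Pool.Agent.Helper78.Zd.Alt

/-! Windows on cells. -/

set_option autoImplicit false

namespace Pool.Agent.Helper78.Zd

open Equiv

section arith
variable {M : ℕ}

lemma one_ne_zero' (hM : 6 ≤ M) : (1 : ZMod M) ≠ 0 := by
  have : Fact (1 < M) := ⟨by omega⟩
  exact one_ne_zero

lemma natCast_ne_zero' {n : ℕ} (h1 : 1 ≤ n) (h2 : n < M) : (n : ZMod M) ≠ 0 := by
  intro h
  rw [ZMod.natCast_eq_zero_iff] at h
  exact absurd (Nat.le_of_dvd (by omega) h) (by omega)

lemma two_ne_zero' (hM : 6 ≤ M) : (2 : ZMod M) ≠ 0 := by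
  have := natCast_ne_zero' (M := M) (n := 2) (by omega) (by omega)
  simpa using this

lemma neg_one_ne_zero' (hM : 6 ≤ M) : (-1 : ZMod M) ≠ 0 := neg_ne_zero.2 (one_ne_zero' hM)

lemma pred_cast (hM : 6 ≤ M) : ((M - 1 : ℕ) : ZMod M) = -1 := by
  rw [Nat.cast_sub (by omega)]
  simp

lemma sum_range_eq [NeZero M] (err : ZMod M → ℝ) :
    ∑ k ∈ Finset.range M, err (k : ZMod M) = ∑ i, err i := by
  obtain ⟨m, rfl⟩ : ∃ m, M = m + 1 := ⟨M - 1, by have := NeZero.ne M; omega⟩
  rw [Finset.sum_range]
  refine Finset.sum_congr rfl fun i _ => ?_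
  congr 1
  exact Fin.cast_val_eq_self i

end arith

variable {B R : Type} {M : ℕ}

/-- windows inside a cell -/
def cw (hM : 6 ≤ M) (i : ZMod M) : Win (Cell B R M) (Node B R M) where
  p c := (c, i)
  q c := (c, i + 1)
  hp c c' h := (Prod.mk.inj h).1
  hq c c' h := (Prod.mk.inj h).1
  hpq c c' h := by
    have := (Prod.mk.inj h).2
    exact one_ne_zero' hM (by simpa using this.symm)

/-- windows between the first block and block `j` -/
def zeroW (j : ZMod M) (hj : j ≠ 0) : Win (Cell B R M) (Node B R M) where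
  p c := (c, 0)
  q c := (c, j)
  hp c c' h := (Prod.mk.inj h).1
  hq c c' h := (Prod.mk.inj h).1
  hpq c c' h := hj (Prod.mk.inj h).2.symm

/-- windows between consecutive cells -/
noncomputable def crossW (D : BaseData B R) (hM : 6 ≤ M) (e : Bool) :
    Win (Cell B R M) (Node B R M) where
  p c := (c, -1)
  q c := (D.nx e c, 0)
  hp c c' h := (Prod.mk.inj h).1
  hq c c' h := D.nx_inj e (Prod.mk.inj h).1
  hpq c c' h := neg_one_ne_zero' hM (Prod.mk.inj h).2

/-- the far windows -/
abbrev farW (hM : 6 ≤ M) : Win (Cell B R M) (Node B R M) := zeroW (-1) (neg_one_ne_zero' hM)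

open Classical in
/-- restriction to the colour `β` -/
noncomputable def ind (D : BaseData B R) (β : B) (Φ : Cell B R M → A12) :
    Cell B R M → Perm (Bool × Fin 6) :=
  fun c => if D.c0 c = β then (Φ c).1 else 1

variable (D : BaseData B R) (β : B)

lemma ind_mul (Φ Ψ : Cell B R M → A12) : ind D β (fun c => Φ c * Ψ c) = ind D β Φ * ind D β Ψ := by
  funext c
  unfold ind
  rw [Pi.mul_apply]
  split_ifs
  · rfl
  · rw [one_mul]

lemma ind_inv (Φ : Cell B R M → A12) : ind D β (fun c => (Φ c)⁻¹) = (ind D β Φ)⁻¹ := by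
  funext c
  unfold ind
  rw [Pi.inv_apply]
  split_ifs
  · rfl
  · rw [inv_one]

lemma ind_one : ind D β (fun _ : Cell B R M => (1 : A12)) = 1 := by
  funext c
  unfold ind
  split_ifs <;> rfl

/-- the action of a typed family on windows over cells -/
noncomputable def wa (w : Win (Cell B R M) (Node B R M)) (Φ : Cell B R M → A12) :
    Perm (Node B R M × Fin 6) := w.act (ind D β Φ)

lemma wa_mul (w : Win (Cell B R M) (Node B R M)) (Φ Ψ : Cell B R M → A12) :
    wa D β w (fun c => Φ c * Ψ c) = wa D β w Φ * wa D β w Ψ := by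
  unfold wa
  rw [ind_mul, map_mul]

lemma wa_inv (w : Win (Cell B R M) (Node B R M)) (Φ : Cell B R M → A12) :
    wa D β w (fun c => (Φ c)⁻¹) = (wa D β w Φ)⁻¹ := by
  unfold wa
  rw [ind_inv, map_inv]

lemma wa_one (w : Win (Cell B R M) (Node B R M)) :
    wa D β w (fun _ => (1 : A12)) = 1 := by
  unfold wa
  rw [ind_one, map_one]

variable {H : Type*} [NormedAddCommGroup H] [InnerProductSpace ℝ H]
variable (h2 : 2 ∣ M) (hM : 6 ≤ M)
variable (ρ : Perm (Node B R M × Fin 6) →* (H ≃ₗᵢ[ℝ] H)) (f : H) (err : ZMod M → ℝ)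

lemma post_cw (hP : Post D h2 ρ β f err) (i : ZMod M) (hi : i + 1 ≠ 0) (ψ : Lab B M → A12) :
    mv ρ f (wa D β (cw hM i) (fun c => ψ (D.lab (c, i)))) ≤ err i := by
  classical
  have h := hP false i ψ
  have h1 : (preWin D h2 false (par i)).act
      (fun s => if s.1.2 = i ∧ D.c0 s.1.1 = β then (ψ (D.lab s.1)).1 else 1) =
      wa D β (cw hM i) (fun c => ψ (D.lab (c, i))) := by
    rw [act_reindex (preWin D h2 false (par i)) (cw hM i)
      (fun c : Cell B R M => (⟨(c, i), rfl⟩ : {s : Node B R M // par s.2 = par i}))]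
    · unfold wa ind
      congr 1
      funext c
      simp
    · rintro ⟨⟨c, j⟩, hj⟩ hs
      rw [if_neg]
      rintro ⟨h3, _⟩
      have h3' : j = i := h3
      subst h3'
      exact hs ⟨c, rfl⟩
    · rintro c ⟨b, v⟩ _
      cases b
      · rfl
      · show (D.ns false (c, i), v) = ((c, i + 1), v)
        unfold BaseData.ns
        rw [if_neg hi]
  rw [← h1]
  exact h

lemma post_cross (hP : Post D h2 ρ β f err) (e : Bool) (ψ : Lab B M → A12) :
    mv ρ f (wa D β (crossW D hM e) (fun c => ψ (D.lab (c, -1)))) ≤ err (-1 : ZMod M) := by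
  classical
  have h := hP e (-1 : ZMod M) ψ
  have h1 : (preWin D h2 e (par (-1 : ZMod M))).act
      (fun s => if s.1.2 = -1 ∧ D.c0 s.1.1 = β then (ψ (D.lab s.1)).1 else 1) =
      wa D β (crossW D hM e) (fun c => ψ (D.lab (c, -1))) := by
    rw [act_reindex (preWin D h2 e (par (-1 : ZMod M))) (crossW D hM e)
      (fun c : Cell B R M => (⟨(c, -1), rfl⟩ : {s : Node B R M // par s.2 = par (-1 : ZMod M)}))]
    · unfold wa ind
      congr 1
      funext c
      simp
    · rintro ⟨⟨c, j⟩, hj⟩ hs
      rw [if_neg]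
      rintro ⟨h3, _⟩
      have h3' : j = -1 := h3
      subst h3'
      exact hs ⟨c, rfl⟩
    · rintro c ⟨b, v⟩ _
      cases b
      · rfl
      · show (D.ns e (c, -1), v) = ((D.nx e c, 0), v)
        unfold BaseData.ns
        rw [if_pos (by simp)]
  rw [← h1]
  exact h

include hM in
/-- the transport along a cell -/
lemma zero_bound (hP : Post D h2 ρ β f err) (n : ℕ) :
    ∀ (h1 : 1 ≤ n) (hn : n < M) (hj : (n : ZMod M) ≠ 0) (ψ : Lab B M → A12),
    mv ρ f (wa D β (zeroW (n : ZMod M) hj) (fun c => ψ (D.labC c))) ≤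
      err 0 + 2 * ∑ k ∈ Finset.Ico 1 n, err (k : ZMod M) := by
  classical
  induction n with
  | zero => intro h1; omega
  | succ n ih =>
    intro h1 hn hj ψ
    rcases Nat.eq_zero_or_pos n with rfl | hpos
    · have h3 := post_cw D β h2 hM ρ f err hP 0 (by simpa using one_ne_zero' hM) ψ
      have h4 : wa D β (cw hM 0) (fun c : Cell B R M => ψ (D.lab (c, 0))) =
          wa D β (zeroW ((0 + 1 : ℕ) : ZMod M) hj) (fun c => ψ (D.labC c)) := by
        unfold wa
        rw [act_reindex (cw hM 0) (zeroW ((0 + 1 : ℕ) : ZMod M) hj) (fun c : Cell B R M => c)]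
        · congr 1
          funext c
          unfold ind BaseData.lab
          simp
        · intro c hc
          exact absurd ⟨c, rfl⟩ hc
        · rintro c ⟨b, v⟩ _
          cases b
          · rfl
          · show ((c, (0 : ZMod M) + 1), v) = ((c, ((0 + 1 : ℕ) : ZMod M)), v)
            simp
      rw [← h4]
      simpa using h3
    · have hn0 : (n : ZMod M) ≠ 0 := natCast_ne_zero' hpos (by omega)
      have h3 := ih hpos (by omega) hn0 ψ
      have hn1 : (n : ZMod M) + 1 ≠ 0 := by
        have := hj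
        push_cast at this
        exact this
      have h4 := post_cw D β h2 hM ρ f err hP (n : ZMod M) hn1 (fun _ => bs)
      set g := wa D β (cw hM (n : ZMod M)) (fun _ : Cell B R M => bs) with hg
      have h5 : g * wa D β (zeroW (n : ZMod M) hn0) (fun c => ψ (D.labC c)) * g⁻¹ =
          wa D β (zeroW ((n + 1 : ℕ) : ZMod M) hj) (fun c => ψ (D.labC c)) := by
        unfold wa
        rw [conj_reindex (zeroW (n : ZMod M) hn0) (zeroW ((n + 1 : ℕ) : ZMod M) hj)
          (fun c : Cell B R M => c)]
        · intro c hc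
          exact absurd ⟨c, rfl⟩ hc
        · rintro c ⟨b, v⟩ hc
          have hcβ : D.c0 c = β := by
            by_contra hcon
            apply hc
            unfold ind
            rw [if_neg hcon]
          cases b
          · show g ((c, (0 : ZMod M)), v) = ((c, (0 : ZMod M)), v)
            rw [hg]
            unfold wa
            apply act_fix
            rintro c' ⟨b', v'⟩ _ h6
            cases b'
            · have h7 : (n : ZMod M) = 0 := (Prod.mk.inj (Prod.mk.inj h6).1).2
              exact hn0 h7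
            · have h7 : (n : ZMod M) + 1 = 0 := (Prod.mk.inj (Prod.mk.inj h6).1).2
              exact hn1 h7
          · show g ((c, (n : ZMod M)), v) = ((c, ((n + 1 : ℕ) : ZMod M)), v)
            have h6 : ((c, (n : ZMod M)), v) = (cw hM (n : ZMod M)).emb (c, (false, v)) := rfl
            rw [h6, hg]
            unfold wa
            rw [act_emb]
            have h7 : ind D β (fun _ : Cell B R M => bs) c = bsw := by
              unfold ind
              rw [if_pos hcβ]
              rfl
            rw [h7, bsw_apply]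
            show ((c, (n : ZMod M) + 1), v) = _
            push_cast
            rfl
      rw [← h5]
      refine (mv_conj ρ f _ g).trans ?_
      rw [Finset.sum_Ico_succ_top hpos]
      linarith

end Pool.Agent.Helper78.Zd
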