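import Pool.Agent.Helper78.Zd.Trans1
import Pool.Agent.Helper78.Zd.Spectral

/-! The logical AND of labels of consecutive cells. -/

set_option autoImplicit false

namespace Pool.Agent.Helper78.Zd

open Equiv

section gen

variable {I N : Type*}

lemma act_node (w : Win I N) (φ : I → Perm (Bool × Fin 6)) (hφ : ∀ i, φ i = 1 ∨ φ i = bsw)
    (s : N) : ∃ t, ∀ v, w.act φ (s, v) = (t, v) := by
  by_cases h : ∃ (i : I) (b : Bool), (if b = true then w.q i else w.p i) = s
  · obtain ⟨i, b, rfl⟩ := h
    rcases hφ i with h1 | h1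
    · refine ⟨if b = true then w.q i else w.p i, fun v => ?_⟩
      have h2 : ((if b = true then w.q i else w.p i), v) = w.emb (i, (b, v)) := by
        cases b <;> rfl
      rw [h2, act_emb, h1]
      cases b <;> rfl
    · refine ⟨if b = true then w.p i else w.q i, fun v => ?_⟩
      have h2 : ((if b = true then w.q i else w.p i), v) = w.emb (i, (b, v)) := by
        cases b <;> rfl
      rw [h2, act_emb, h1, bsw_apply]
      cases b <;> rfl
  · refine ⟨s, fun v => act_fix w φ _ ?_⟩
    rintro i ⟨b, u⟩ _ h2
    refine h ⟨i, b, ?_⟩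
    have h3 := (Prod.mk.inj h2).1
    cases b <;> exact h3

lemma conj_fib (g : Perm (N × Fin 6)) (τ : N → N) (hg : ∀ s v, g (s, v) = (τ s, v))
    (hgg : g * g = 1) (φ : N → Perm (Fin 6)) : g * fib φ * g⁻¹ = fib (fun s => φ (τ s)) := by
  have h1 : g⁻¹ = g := by
    rw [inv_eq_iff_mul_eq_one]; exact hgg
  have h2 : ∀ s, τ (τ s) = s := by
    intro s
    have h3 : (g * g) (s, (0 : Fin 6)) = (s, 0) := by rw [hgg]; rfl
    rw [Perm.mul_apply, hg, hg] at h3
    exact (Prod.mk.inj h3).1
  rw [h1]
  ext1 ⟨s, v⟩
  have h4 : (g * fib φ * g) (s, v) = g (fib φ (g (s, v))) := rfl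
  rw [h4, hg s v]
  have h5 : fib φ (τ s, v) = (τ s, φ (τ s) v) := rfl
  rw [h5, hg, h2]
  rfl

end gen

variable {B R : Type} {M : ℕ} (D : BaseData B R) (β : B)

lemma ind_cases (c : Cell B R M) : ind D β (fun _ => bs) c = 1 ∨ ind D β (fun _ => bs) c = bsw := by
  unfold ind
  split_ifs
  · right; rfl
  · left; rfl

open Classical in
lemma far_true (hM : 6 ≤ M) (P : Cell B R M → Prop) [∀ c, Decidable (P c)] (x : Perm (Fin 6))
    (X : A12) (hX : (X : Perm (Bool × Fin 6)) = blk true x) :
    wa D β (farW hM) (fun c => if P c then X else 1) =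
      fib (fun s => if s.2 = -1 ∧ D.c0 s.1 = β ∧ P s.1 then x else 1) := by
  ext1 ⟨⟨c, j⟩, v⟩
  rw [fib_apply]
  show wa D β (farW hM) _ ((c, j), v) =
    ((c, j), (if j = -1 ∧ D.c0 c = β ∧ P c then x else 1) v)
  have h0 : (-1 : ZMod M) ≠ 0 := neg_one_ne_zero' hM
  by_cases hj : j = -1
  · subst hj
    have h2 : (((c, (-1 : ZMod M)) : Node B R M), v) = (farW hM).emb (c, (true, v)) := rfl
    have h3 : wa D β (farW hM) (fun c => if P c then X else 1) ((c, -1), v) =
        (farW hM).emb (c, ind D β (fun c => if P c then X else 1) c (true, v)) := by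
      rw [h2]; unfold wa; rw [act_emb]
    rw [h3]
    unfold ind
    by_cases hc : D.c0 c = β
    · by_cases hP : P c
      · simp only [hc, hP, if_true, hX, blk_apply, and_self]
        rfl
      · simp only [hc, hP, if_true, if_false, and_false]
        rfl
    · simp only [hc, if_false, false_and, and_false]
      rfl
  · rw [if_neg (fun h => hj h.1)]
    by_cases hj0 : j = 0
    · subst hj0
      have h2 : (((c, (0 : ZMod M)) : Node B R M), v) = (farW hM).emb (c, (false, v)) := rfl
      have h3 : wa D β (farW hM) (fun c => if P c then X else 1) ((c, 0), v) =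
          (farW hM).emb (c, ind D β (fun c => if P c then X else 1) c (false, v)) := by
        rw [h2]; unfold wa; rw [act_emb]
      rw [h3]
      unfold ind
      by_cases hc : D.c0 c = β
      · by_cases hP : P c
        · simp only [hc, hP, if_true, hX, blk_apply]
          rfl
        · simp only [hc, hP, if_true, if_false]
          rfl
      · simp only [hc, if_false]
        rfl
    · unfold wa
      apply act_fix
      rintro c' ⟨b, u⟩ h1 h2
      cases b
      · exact hj0 (Prod.mk.inj (Prod.mk.inj h2).1).2.symm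
      · exact hj (Prod.mk.inj (Prod.mk.inj h2).1).2.symm

open Classical in
lemma far_false (hM : 6 ≤ M) (P : Cell B R M → Prop) [∀ c, Decidable (P c)] (x : Perm (Fin 6))
    (X : A12) (hX : (X : Perm (Bool × Fin 6)) = blk false x) :
    wa D β (farW hM) (fun c => if P c then X else 1) =
      fib (fun s => if s.2 = 0 ∧ D.c0 s.1 = β ∧ P s.1 then x else 1) := by
  ext1 ⟨⟨c, j⟩, v⟩
  rw [fib_apply]
  show wa D β (farW hM) _ ((c, j), v) =
    ((c, j), (if j = 0 ∧ D.c0 c = β ∧ P c then x else 1) v)
  have h0 : (-1 : ZMod M) ≠ 0 := neg_one_ne_zero' hM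
  by_cases hj : j = 0
  · subst hj
    have h2 : (((c, (0 : ZMod M)) : Node B R M), v) = (farW hM).emb (c, (false, v)) := rfl
    have h3 : wa D β (farW hM) (fun c => if P c then X else 1) ((c, 0), v) =
        (farW hM).emb (c, ind D β (fun c => if P c then X else 1) c (false, v)) := by
      rw [h2]; unfold wa; rw [act_emb]
    rw [h3]
    unfold ind
    by_cases hc : D.c0 c = β
    · by_cases hP : P c
      · simp only [hc, hP, if_true, hX, blk_apply, and_self]
        rfl
      · simp only [hc, hP, if_true, if_false, and_false]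
        rfl
    · simp only [hc, if_false, false_and, and_false]
      rfl
  · rw [if_neg (fun h => hj h.1)]
    by_cases hj0 : j = -1
    · subst hj0
      have h2 : (((c, (-1 : ZMod M)) : Node B R M), v) = (farW hM).emb (c, (true, v)) := rfl
      have h3 : wa D β (farW hM) (fun c => if P c then X else 1) ((c, -1), v) =
          (farW hM).emb (c, ind D β (fun c => if P c then X else 1) c (true, v)) := by
        rw [h2]; unfold wa; rw [act_emb]
      rw [h3]
      unfold ind
      by_cases hc : D.c0 c = β
      · by_cases hP : P c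
        · simp only [hc, hP, if_true, hX, blk_apply]
          rfl
        · simp only [hc, hP, if_true, if_false]
          rfl
      · simp only [hc, if_false]
        rfl
    · unfold wa
      apply act_fix
      rintro c' ⟨b, u⟩ h1 h2
      cases b
      · exact hj (Prod.mk.inj (Prod.mk.inj h2).1).2.symm
      · exact hj0 (Prod.mk.inj (Prod.mk.inj h2).1).2.symm

section main

variable {H : Type} [NormedAddCommGroup H] [InnerProductSpace ℝ H]
  (ρ : Perm (Node B R M × Fin 6) →* (H ≃ₗᵢ[ℝ] H)) (f : H)

theorem far_bound [NeZero M] (h2 : 2 ∣ M) (hM : 6 ≤ M) (err : ZMod M → ℝ) (h0 : ∀ i, 0 ≤ err i)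
    (hP : Post D h2 ρ β f err) (ψ : Lab B M → A12) :
    mv ρ f (wa D β (farW hM) (fun c => ψ (D.labC c))) ≤ 2 * ∑ i, err i := by
  have hj : ((M - 1 : ℕ) : ZMod M) ≠ 0 := by rw [pred_cast hM]; exact neg_one_ne_zero' hM
  have h := zero_bound D β h2 hM ρ f err hP (M - 1) (by omega) (by omega) hj ψ
  have hw : (zeroW ((M - 1 : ℕ) : ZMod M) hj : Win (Cell B R M) (Node B R M)) = farW hM := by
    unfold farW
    congr 1
    exact pred_cast hM
  rw [hw] at h
  refine h.trans ?_
  rw [← sum_range_eq]
  obtain ⟨m, rfl⟩ : ∃ m, M = m + 2 := ⟨M - 2, by omega⟩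
  have h3 : Finset.range (m + 2) = insert 0 (insert (m + 1) (Finset.Ico 1 (m + 1))) := by
    ext k
    simp only [Finset.mem_range, Finset.mem_insert, Finset.mem_Ico]
    omega
  rw [h3, Finset.sum_insert (by simp), Finset.sum_insert (by simp)]
  have h4 : 0 ≤ err ((m + 1 : ℕ) : ZMod (m + 2)) := h0 _
  have h5 : 0 ≤ err 0 := h0 0
  have h6 : m + 2 - 1 = m + 1 := rfl
  rw [h6]
  push_cast at *
  linarith

theorem and_far {I J : Type} [Fintype I] [Fintype J] (hM : 6 ≤ M) (e : Bool)
    (T1 : Cell B R M → I) (T2 : Cell B R M → J) (δ1 δ2 δ3 : ℝ)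
    (h1 : ∀ ψ : I → A12, mv ρ f (wa D β (farW hM) (fun c => ψ (T1 c))) ≤ δ1)
    (h2 : ∀ ψ : J → A12, mv ρ f (wa D β (farW hM) (fun c => ψ (T2 c))) ≤ δ2)
    (h3 : mv ρ f (wa D β (crossW D hM e) (fun _ => bs)) ≤ δ3) (r : I × J → ZMod 2) :
    mv ρ f (wa D β (farW hM) (fun c => if r (T1 c, T2 (D.nx e c)) = 1 then aa true else 1)) ≤
      4 * (δ1 + δ2 + 2 * δ3) := by
  classical
  set G := wa D β (crossW D hM e) (fun _ => bs) with hG
  -- the node map of `G`
  have hτ : ∀ s : Node B R M, ∃ t, ∀ v, G (s, v) = (t, v) := by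
    intro s
    rw [hG]
    unfold wa
    exact act_node _ _ (ind_cases D β) s
  choose τ hτ using hτ
  have hGG : G * G = 1 := by
    rw [hG, ← wa_mul, ← wa_one D β (crossW D hM e)]
    congr 1
    funext c
    apply Subtype.ext
    show bsw * bsw = 1
    ext1 x
    rw [Perm.mul_apply, bsw_apply, bsw_apply]
    simp
  have hτc : ∀ c, D.c0 c = β → τ (c, -1) = (D.nx e c, 0) := by
    intro c hc
    have h4 : G ((c, -1), (0 : Fin 6)) = ((D.nx e c, 0), 0) := by
      have h5 : (((c, (-1 : ZMod M)) : Node B R M), (0 : Fin 6)) =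
        (crossW D hM e).emb (c, (false, 0)) := rfl
      rw [h5, hG]
      unfold wa
      rw [act_emb]
      have h7 : ind D β (fun _ : Cell B R M => bs) c = bsw := by
        unfold ind
        rw [if_pos hc]
        rfl
      rw [h7, bsw_apply]
      rfl
    rw [hτ] at h4
    exact (Prod.mk.inj h4).1
  -- products of rank one
  have hrank : ∀ (α : I → ZMod 2) (γ : J → ZMod 2),
      mv ρ f (wa D β (farW hM)
        (fun c => if α (T1 c) * γ (T2 (D.nx e c)) = 1 then aa true else 1)) ≤
        2 * (δ1 + (δ2 + 2 * δ3)) := by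
    intro α γ
    set A := wa D β (farW hM) (fun c => if α (T1 c) = 1 then gg true else 1) with hA
    set Q := wa D β (farW hM) (fun c => if γ (T2 c) = 1 then hh false else 1) with hQ
    have hA1 : mv ρ f A ≤ δ1 := h1 (fun i => if α i = 1 then gg true else 1)
    have hQ1 : mv ρ f Q ≤ δ2 := h2 (fun i => if γ i = 1 then hh false else 1)
    have hA2 : A = fib (fun s => if s.2 = -1 ∧ D.c0 s.1 = β ∧ α (T1 s.1) = 1 then g6 else 1) :=
      far_true D β hM (fun c => α (T1 c) = 1) g6 (gg true) rfl
    have hQ2 : Q = fib (fun s => if s.2 = 0 ∧ D.c0 s.1 = β ∧ γ (T2 s.1) = 1 then h6 else 1) :=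
      far_false D β hM (fun c => γ (T2 c) = 1) h6 (hh false) rfl
    have hC : wa D β (farW hM)
        (fun c => if α (T1 c) * γ (T2 (D.nx e c)) = 1 then aa true else 1) =
        A * (G * Q * G⁻¹) * A⁻¹ * (G * Q * G⁻¹)⁻¹ := by
      rw [far_true D β hM (fun c => α (T1 c) * γ (T2 (D.nx e c)) = 1) a6 (aa true) rfl,
        hA2, hQ2, conj_fib G τ hτ hGG, ← map_inv, ← map_inv, ← map_mul, ← map_mul, ← map_mul]
      congr 1
      funext ⟨c, j⟩
      simp only [Pi.mul_apply, Pi.inv_apply]
      by_cases hj : j = -1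
      · subst hj
        by_cases hc : D.c0 c = β
        · rw [hτc c hc]
          have hc' : D.c0 (D.nx e c) = β := by rw [D.c0_nx, hc]
          by_cases ha : α (T1 c) = 1
          · by_cases hg : γ (T2 (D.nx e c)) = 1
            · simp only [hc, hc', ha, hg, mul_one, and_self, if_true]
              rfl
            · have hg0 : (1 : ZMod 2) * γ (T2 (D.nx e c)) ≠ 1 := by rwa [one_mul]
              simp only [hc, hc', ha, hg, hg0, and_self, and_false, if_true, if_false]
              simp
          · have hg0 : α (T1 c) * γ (T2 (D.nx e c)) ≠ 1 := by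
              revert ha
              generalize α (T1 c) = x
              generalize γ (T2 (D.nx e c)) = y
              revert x y
              decide
            simp only [ha, hg0, and_false, if_false]
            simp
        · simp only [hc, false_and, and_false, if_false]
          simp
      · simp only [hj, false_and, if_false]
        simp
    rw [hC]
    refine (mv_comm ρ f A (G * Q * G⁻¹)).trans ?_
    have h4 := mv_conj ρ f Q G
    linarith
  -- all functions
  let U : (I × J → ZMod 2) → (H ≃ₗᵢ[ℝ] H) := fun r =>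
    ρ (wa D β (farW hM) (fun c => if r (T1 c, T2 (D.nx e c)) = 1 then aa true else 1))
  have hU : ∀ r s v, U (r + s) v = U r (U s v) := by
    intro r s v
    have h4 : wa D β (farW hM)
        (fun c => if (r + s) (T1 c, T2 (D.nx e c)) = 1 then aa true else 1) =
        wa D β (farW hM) (fun c => if r (T1 c, T2 (D.nx e c)) = 1 then aa true else 1) *
        wa D β (farW hM) (fun c => if s (T1 c, T2 (D.nx e c)) = 1 then aa true else 1) := by
      rw [← wa_mul]
      congr 1
      funext c
      rw [Pi.add_apply]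
      generalize r (T1 c, T2 (D.nx e c)) = x
      generalize s (T1 c, T2 (D.nx e c)) = y
      have hx : x = 0 ∨ x = 1 := by revert x; decide
      have hy : y = 0 ∨ y = 1 := by revert y; decide
      rcases hx with rfl | rfl <;> rcases hy with rfl | rfl
      · simp
      · simp
      · simp
      · have : (1 : ZMod 2) + 1 ≠ 1 := by decide
        rw [if_neg this, if_pos rfl, aa_sq]
    show ρ _ v = ρ _ (ρ _ v)
    rw [h4, map_mul]
    rfl
  have h5 := rank_one U hU f (2 * (δ1 + (δ2 + 2 * δ3))) (fun α γ => hrank α γ) r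
  have h6 : mv ρ f (wa D β (farW hM)
      (fun c => if r (T1 c, T2 (D.nx e c)) = 1 then aa true else 1)) = ‖U r f - f‖ := rfl
  rw [h6]
  linarith

end main

end Pool.Agent.Helper78.Zd
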