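import Pool.Agent.Helper78.Zd.Trans1

/-! MODULE TDEC: decoding of the types of the next level from three consecutive labels. -/

set_option autoImplicit false

namespace Pool.Agent.Helper78.Zd

open Equiv

section trans

variable {B R : Type} {M : ℕ} (D : BaseData B R) (β : B)
  {H : Type} [NormedAddCommGroup H] [InnerProductSpace ℝ H]
  (ρ : Perm (Node B R M × Fin 6) →* (H ≃ₗᵢ[ℝ] H)) (f : H)

/-- the labels of three consecutive cells -/
noncomputable def T3 (e : Bool) (c : Cell B R M) : Lab B M × (Lab B M × Lab B M) :=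
  (D.labC c, (D.labC (D.nx e c), D.labC (D.nx e (D.nx e c))))

/-- position `0` -/
def dec1 (t : Lab B M × (Lab B M × Lab B M)) : Option (Typ B M) :=
  t.2.1.bind fun y => t.2.2.bind fun z => if y.1 = 1 ∧ z.1 = 2 then some (0, y.2, t.1) else none

/-- positions different from `0`, `-1` -/
def dec2 (t : Lab B M × (Lab B M × Lab B M)) : Option (Typ B M) :=
  t.1.bind fun x => t.2.1.bind fun y =>
    if x.1 ≠ -1 ∧ y.1 = x.1 + 1 then some (x.1, x.2, t.1) else none

/-- position `-1` -/
def dec3 (t : Lab B M × (Lab B M × Lab B M)) : Option (Typ B M) :=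
  t.1.bind fun x => t.2.2.bind fun z => if x.1 = -1 ∧ z.1 = 1 then some (-1, x.2, t.1) else none

/-- the decoding map -/
def dec (t : Lab B M × (Lab B M × Lab B M)) : Option (Typ B M) :=
  (dec1 t).or ((dec2 t).or (dec3 t))

lemma labC_up (b : B) (c : Cell B R M) (i : ZMod M) : D.labC (.up b c i) = D.lab (c, i) := rfl

lemma lab_of_ne (s : Node B R M) (h : s.2 ≠ 0) : D.lab s = some (s.2, D.c0 s.1) := by
  unfold BaseData.lab
  rw [if_neg h]

lemma T3_up (e : Bool) (b : B) (s : Node B R M) :
    T3 D e (.up b s.1 s.2) = (D.lab s, (D.lab (D.ns e s), D.lab (D.ns e (D.ns e s)))) := by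
  unfold T3
  rw [BaseData.nx_up, BaseData.nx_up]
  rfl

lemma dec_up (hM : 6 ≤ M) (e : Bool) (b : B) (s : Node B R M) :
    dec (T3 D e (.up b s.1 s.2)) = some (D.typ s) := by
  rw [T3_up]
  have h10 := one_ne_zero' (M := M) hM
  have h20 := two_ne_zero' (M := M) hM
  have h1 : (D.ns e s).2 = s.2 + 1 := D.ns_snd e s
  have h2 : (D.ns e (D.ns e s)).2 = s.2 + 2 := by
    rw [D.ns_snd, h1]; ring
  have c1 : D.c0 (D.ns e s).1 = D.c0 s.1 := D.c0_ns e s
  have c2 : D.c0 (D.ns e (D.ns e s)).1 = D.c0 s.1 := by rw [D.c0_ns, c1]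
  by_cases hs0 : s.2 = 0
  · have hy : D.lab (D.ns e s) = some (1, D.c0 s.1) := by
      rw [lab_of_ne D _ (by rw [h1, hs0, zero_add]; exact h10), h1, c1, hs0, zero_add]
    have hz : D.lab (D.ns e (D.ns e s)) = some (2, D.c0 s.1) := by
      rw [lab_of_ne D _ (by rw [h2, hs0, zero_add]; exact h20), h2, c2, hs0, zero_add]
    rw [hy, hz]
    simp [dec, dec1, BaseData.typ, hs0]
  · have hx : D.lab s = some (s.2, D.c0 s.1) := lab_of_ne D s hs0
    by_cases hs1 : s.2 = -1
    · have hz : D.lab (D.ns e (D.ns e s)) = some (1, D.c0 s.1) := by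
        have h3 : s.2 + 2 = 1 := by rw [hs1]; ring
        rw [lab_of_ne D _ (by rw [h2, h3]; exact h10), h2, c2, h3]
      have h12 : (1 : ZMod M) ≠ 2 := by
        intro h
        apply h10
        have h4 : (2 : ZMod M) - 1 = 0 := by rw [← h]; ring
        have h5 : (2 : ZMod M) - 1 = 1 := by ring
        rw [← h5]; exact h4
      rw [hz, hx]
      cases hy : D.lab (D.ns e s) with
      | none => simp [dec, dec1, dec2, dec3, BaseData.typ, hs1, hx]
      | some y => simp [dec, dec1, dec2, dec3, BaseData.typ, hs1, hx, h12]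
    · have h3 : s.2 + 1 ≠ 0 := fun h => hs1 (eq_neg_of_add_eq_zero_left h)
      have hy : D.lab (D.ns e s) = some (s.2 + 1, D.c0 s.1) := by
        rw [lab_of_ne D _ (by rw [h1]; exact h3), h1, c1]
      rw [hy, hx]
      have h4 : s.2 + 1 ≠ 1 := by simpa using hs0
      have h5 : dec1 ((some (s.2, D.c0 s.1), (some (s.2 + 1, D.c0 s.1),
          D.lab (D.ns e (D.ns e s)))) : Lab B M × (Lab B M × Lab B M)) = none := by
        cases hz : D.lab (D.ns e (D.ns e s)) with
        | none => simp [dec1]
        | some z => simp [dec1, hs0]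
      rw [dec, h5]
      simp [dec2, BaseData.typ, hs1, hx]

lemma dec_base (e : Bool) (r : R) : dec (T3 (M := M) D e (.base r)) = none := by
  have hx : D.labC (.base r : Cell B R M) = none := rfl
  have hy : D.labC (D.nx e (.base r : Cell B R M)) = none := by
    rw [BaseData.nx]
    cases D.next e r with
    | inl r' => rfl
    | inr c =>
      show D.labC (.up (D.a0 r) (.base (D.root c)) 0) = none
      rw [labC_up]
      unfold BaseData.lab
      rw [if_pos rfl]
      rfl
  unfold T3
  rw [hx, hy]
  simp [dec, dec1, dec2, dec3]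

/-- a function of the decoded type, restricted to the parity `κ` -/
noncomputable def dfun (κ : ZMod 2) (ψ : Typ B M → A12) (t : Lab B M × (Lab B M × Lab B M)) :
    A12 :=
  match dec t with
  | some t' => if par t'.1 = κ then ψ t' else 1
  | none => 1

lemma dfun_up (hM : 6 ≤ M) (e : Bool) (κ : ZMod 2) (ψ : Typ B M → A12) (b : B)
    (s : Node B R M) :
    dfun κ ψ (T3 D e (.up b s.1 s.2)) = if par s.2 = κ then ψ (D.typ s) else 1 := by
  unfold dfun
  rw [dec_up D hM]
  rfl

lemma dfun_base (e : Bool) (κ : ZMod 2) (ψ : Typ B M → A12) (r : R) :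
    dfun κ ψ (T3 D e (.base r)) = 1 := by
  unfold dfun
  rw [dec_base D]

/-- the windows of the next level -/
noncomputable def nextWin (h2 : 2 ∣ M) (e : Bool) (κ : ZMod 2) :
    Win {s : Node B R M // par s.2 = κ} (Node B R M) where
  p s := (.up β s.1.1 s.1.2, 0)
  q s := (.up β (D.ns e s.1).1 (D.ns e s.1).2, 0)
  hp := fun s t h => by
    simp only [Prod.mk.injEq, Cell.up.injEq, true_and, and_true] at h
    exact Subtype.ext (Prod.ext h.1 h.2)
  hq := fun s t h => by
    simp only [Prod.mk.injEq, Cell.up.injEq, true_and, and_true] at h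
    exact Subtype.ext (D.ns_inj e (Prod.ext h.1 h.2))
  hpq := fun s t h => by
    simp only [Prod.mk.injEq, Cell.up.injEq, true_and, and_true] at h
    exact (preWin D h2 e κ).hpq s t (Prod.ext h.1 h.2)

lemma nextWin_emb (h2 : 2 ∣ M) (e : Bool) (κ : ZMod 2)
    (x : {s : Node B R M // par s.2 = κ} × (Bool × Fin 6)) :
    (nextWin D β h2 e κ).emb x = J β ((preWin D h2 e κ).emb x) := by
  obtain ⟨s, b, v⟩ := x
  cases b <;> rfl

theorem dec_final (h2 : 2 ∣ M) (hM : 6 ≤ M) (e : Bool) (κ : ZMod 2) (δ δ' : ℝ)
    (hfar : ∀ ψ : Lab B M × (Lab B M × Lab B M) → A12,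
      mv ρ f (wa D β (farW hM) (fun c => ψ (T3 D e c))) ≤ δ)
    (hcross : ∀ ψ : Lab B M × (Lab B M × Lab B M) → A12,
      mv ρ f (wa D β (crossW D hM e) (fun c => ψ (T3 D e c))) ≤ δ')
    (ψ : Typ B M → A12) :
    mv (ρ.comp (ext β)) f ((preWin D h2 e κ).act (fun s => (ψ (D.typ s.1)).1)) ≤
      δ + 2 * δ' := by
  classical
  set X := wa D β (crossW D hM e) (fun c => dfun κ (fun _ => bs) (T3 D e c)) with hX
  have hXb : mv ρ f X ≤ δ' := hcross (dfun κ (fun _ => bs))
  have hFb := hfar (dfun κ ψ)
  have hnt : bsw ≠ 1 := by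
    intro h
    have h1 := bsw_apply (false, 0)
    rw [h] at h1
    simp at h1
  -- the indicator of the cross windows
  have hind : ∀ c : Cell B R M, ind D β (fun c => dfun κ (fun _ => bs) (T3 D e c)) c ≠ 1 →
      ∃ s : Node B R M, par s.2 = κ ∧ c = .up β s.1 s.2 := by
    intro c hc
    cases c with
    | base r =>
      exfalso
      apply hc
      unfold ind
      beta_reduce
      rw [dfun_base]
      split_ifs <;> rfl
    | up b c i =>
      unfold ind at hc
      beta_reduce at hc
      by_cases hb : b = β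
      · subst hb
        have h1 := dfun_up D hM e κ (fun _ => bs) b (c, i)
        by_cases hi : par i = κ
        · exact ⟨(c, i), hi, rfl⟩
        · exfalso
          apply hc
          have h1' : dfun κ (fun _ => bs) (T3 D e (.up b c i)) = 1 := by
            rw [if_neg hi] at h1
            exact h1
          rw [h1']
          split_ifs <;> rfl
      · exfalso
        apply hc
        rw [if_neg]
        exact hb
  have key : X * wa D β (farW hM) (fun c => dfun κ ψ (T3 D e c)) * X⁻¹ =
      ext β ((preWin D h2 e κ).act (fun s => (ψ (D.typ s.1)).1)) := by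
    rw [ext_act β (preWin D h2 e κ) (nextWin D β h2 e κ) (nextWin_emb D β h2 e κ)]
    have hval : ∀ s : {s : Node B R M // par s.2 = κ},
        ind D β (fun c => dfun κ ψ (T3 D e c)) (.up β s.1.1 s.1.2) = (ψ (D.typ s.1)).1 := by
      intro s
      unfold ind
      beta_reduce
      rw [if_pos (show D.c0 (.up β s.1.1 s.1.2) = β from rfl), dfun_up D hM, if_pos s.2]
    unfold wa at hX ⊢
    rw [conj_reindex (farW hM) (nextWin D β h2 e κ)
      (fun s : {s : Node B R M // par s.2 = κ} => (.up β s.1.1 s.1.2 : Cell B R M)) X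
      (ind D β (fun c => dfun κ ψ (T3 D e c)))]
    · congr 1
      funext s
      exact hval s
    · intro c hc
      cases c with
      | base r =>
        unfold ind
        beta_reduce
        rw [dfun_base]
        split_ifs <;> rfl
      | up b c i =>
        unfold ind
        beta_reduce
        by_cases hb : b = β
        · subst hb
          by_cases hi : par i = κ
          · exact absurd ⟨⟨(c, i), hi⟩, rfl⟩ hc
          · have h1 := dfun_up D hM e κ ψ b (c, i)
            rw [if_neg hi] at h1
            have h1' : dfun κ ψ (T3 D e (.up b c i)) = 1 := h1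
            rw [h1']
            split_ifs <;> rfl
        · rw [if_neg]
          exact hb
    · rintro s ⟨b, v⟩ _
      cases b
      · show X ((.up β s.1.1 s.1.2, 0), v) = ((.up β s.1.1 s.1.2, 0), v)
        rw [hX]
        apply act_fix
        rintro c' ⟨b', v'⟩ hc' h6
        cases b'
        · have h7 : (-1 : ZMod M) = 0 := (Prod.mk.inj (Prod.mk.inj h6).1).2
          exact neg_one_ne_zero' hM h7
        · have h7 : D.nx e c' = .up β s.1.1 s.1.2 := (Prod.mk.inj (Prod.mk.inj h6).1).1
          obtain ⟨s', hs', rfl⟩ := hind c' hc'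
          rw [BaseData.nx_up] at h7
          simp only [Cell.up.injEq, true_and] at h7
          have h8 : (D.ns e s').2 = s.1.2 := h7.2
          rw [D.ns_snd] at h8
          have h9 : par (s'.2 + 1) = κ := by rw [h8]; exact s.2
          rw [par_add_one h2, hs'] at h9
          revert h9
          generalize κ = k
          revert k
          decide
      · show X ((.up β s.1.1 s.1.2, -1), v) =
          ((.up β (D.ns e s.1).1 (D.ns e s.1).2, 0), v)
        have h6 : (((.up β s.1.1 s.1.2 : Cell B R M), (-1 : ZMod M)), v) =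
            (crossW D hM e).emb (.up β s.1.1 s.1.2, (false, v)) := rfl
        rw [h6, hX, act_emb]
        have h7 : ind D β (fun c => dfun κ (fun _ => bs) (T3 D e c)) (.up β s.1.1 s.1.2) =
            bsw := by
          unfold ind
          beta_reduce
          rw [if_pos (show D.c0 (.up β s.1.1 s.1.2) = β from rfl), dfun_up D hM, if_pos s.2]
          rfl
        rw [h7, bsw_apply]
        show ((D.nx e (.up β s.1.1 s.1.2), 0), v) = _
        rw [BaseData.nx_up]
  show mv ρ f (ext β ((preWin D h2 e κ).act (fun s => (ψ (D.typ s.1)).1))) ≤ δ + 2 * δ'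
  rw [← key]
  refine (mv_conj ρ f _ X).trans ?_
  linarith

end trans

end Pool.Agent.Helper78.Zd
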