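import Pool.Agent.Helper78.Zd.Trans1

/-! Module TLIFT. -/

set_option autoImplicit false

namespace Pool.Agent.Helper78.Zd

open Equiv

lemma subProd_cons_inv {a x : A12} {l : List A12} {y : A12} (h : SubProd a (x :: l) y) :
    ∃ (r : ZMod 2) (y' : A12), SubProd a l y' ∧
      y = (x * (if r = 1 then a else 1) * x⁻¹) * y' := by
  cases h with
  | skip _ _ _ h => exact ⟨0, y, h, by simp⟩
  | take _ _ y' h => exact ⟨1, y', h, by simp⟩

lemma subProd_nil_inv {a : A12} {y : A12} (h : SubProd a [] y) : y = 1 := by
  cases h with
  | nil => rfl

lemma act_of_fix {I N : Type*} (w : Win I N) (φ : I → Perm (Bool × Fin 6)) (y : N × Fin 6)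
    (h : ∀ i x, w.emb (i, x) = y → φ i x = x) : w.act φ y = y := by
  by_cases hy : ∃ i x, w.emb (i, x) = y
  · obtain ⟨i, x, rfl⟩ := hy
    rw [act_emb, h i x rfl]
  · push Not at hy
    exact act_fix w φ y fun i x _ => hy i x

section trans

variable {B R : Type} {M : ℕ} (D : BaseData B R) (β : B)
  {H : Type} [NormedAddCommGroup H] [InnerProductSpace ℝ H]
  (ρ : Perm (Node B R M × Fin 6) →* (H ≃ₗᵢ[ℝ] H)) (f : H)

theorem lift_gen {K : Type} (w : Win (Cell B R M) (Node B R M)) (b : Bool) (l : List A12)
    (T : Cell B R M → K) (δ κ : ℝ)
    (hc : ∀ x : A12, mv ρ f (wa D β w (fun _ => x)) ≤ κ)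
    (hr : ∀ r : K → ZMod 2, mv ρ f (wa D β w (fun c => if r (T c) = 1 then aa b else 1)) ≤ δ)
    (ψ : K → A12) (hl : ∀ k, SubProd (aa b) l (ψ k)) :
    mv ρ f (wa D β w (fun c => ψ (T c))) ≤ l.length * (δ + 2 * κ) := by
  induction l generalizing ψ with
  | nil =>
    have h1 : (fun c : Cell B R M => ψ (T c)) = fun _ => (1 : A12) := by
      funext c
      exact subProd_nil_inv (hl (T c))
    rw [h1, wa_one, mv_one]
    simp
  | cons x l ih =>
    choose r y' hy' hψ using fun k => subProd_cons_inv (hl k)
    have h1 : (fun c : Cell B R M => ψ (T c)) =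
        fun c => (x * (if r (T c) = 1 then aa b else 1) * x⁻¹) * y' (T c) := by
      funext c
      exact hψ (T c)
    have h2 : wa D β w (fun c : Cell B R M => ψ (T c)) =
        (wa D β w (fun _ => x) * wa D β w (fun c => if r (T c) = 1 then aa b else 1) *
          (wa D β w (fun _ => x))⁻¹) * wa D β w (fun c => y' (T c)) := by
      rw [h1, wa_mul D β w (fun c => x * (if r (T c) = 1 then aa b else 1) * x⁻¹)
        (fun c => y' (T c)),
        wa_mul D β w (fun c => x * (if r (T c) = 1 then aa b else 1)) (fun _ => x⁻¹),
        wa_mul D β w (fun _ => x) (fun c => if r (T c) = 1 then aa b else 1),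
        wa_inv D β w (fun _ => x)]
    rw [h2]
    have h3 := mv_mul ρ f (wa D β w (fun _ => x) *
      wa D β w (fun c => if r (T c) = 1 then aa b else 1) * (wa D β w (fun _ => x))⁻¹)
      (wa D β w (fun c => y' (T c)))
    have h4 := mv_conj ρ f (wa D β w (fun c => if r (T c) = 1 then aa b else 1))
      (wa D β w (fun _ => x))
    have h5 := hc x
    have h6 := hr r
    have h7 := ih y' hy'
    have h8 : ((x :: l).length : ℝ) = l.length + 1 := by simp
    rw [h8]
    linarith

theorem cross_eq_far (hM : 6 ≤ M) (e : Bool) (r : Cell B R M → ZMod 2) :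
    wa D β (crossW D hM e) (fun c => if r c = 1 then aa false else 1) =
      wa D β (farW hM) (fun c => if r c = 1 then aa true else 1) := by
  ext1 y
  obtain ⟨⟨c, j⟩, v⟩ := y
  by_cases hj : j = -1
  · subst hj
    have h1 : ((c, (-1 : ZMod M)), v) = (crossW D hM e).emb (c, (false, v)) := rfl
    have h2 : ((c, (-1 : ZMod M)), v) = (farW (B := B) (R := R) hM).emb (c, (true, v)) := rfl
    have h3 : wa D β (crossW D hM e) (fun c => if r c = 1 then aa false else 1)
        ((c, (-1 : ZMod M)), v) =
        (crossW D hM e).emb (c, ind D β (fun c => if r c = 1 then aa false else 1) c (false, v)) := by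
      rw [h1]
      exact act_emb _ _ _ _
    have h4 : wa D β (farW hM) (fun c => if r c = 1 then aa true else 1)
        ((c, (-1 : ZMod M)), v) =
        (farW (B := B) (R := R) hM).emb
          (c, ind D β (fun c => if r c = 1 then aa true else 1) c (true, v)) := by
      rw [h2]
      exact act_emb _ _ _ _
    rw [h3, h4]
    unfold ind
    by_cases hβ : D.c0 c = β
    · by_cases hr : r c = 1
      · simp only [if_pos hβ, if_pos hr]
        have h5 : (aa false).1 (false, v) = (false, a6 v) := by
          show blk false a6 (false, v) = _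
          rw [blk_apply]
          simp
        have h6 : (aa true).1 (true, v) = (true, a6 v) := by
          show blk true a6 (true, v) = _
          rw [blk_apply]
          simp
        rw [h5, h6]
        rfl
      · simp only [if_pos hβ, if_neg hr]
        rfl
    · simp only [if_neg hβ]
      rfl
  · have h1 : wa D β (crossW D hM e) (fun c => if r c = 1 then aa false else 1) ((c, j), v) =
        ((c, j), v) := by
      apply act_of_fix
      rintro c' ⟨b', v'⟩ h
      cases b'
      · exfalso
        have h2 : (-1 : ZMod M) = j := (Prod.mk.inj (Prod.mk.inj h).1).2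
        exact hj h2.symm
      · unfold ind
        by_cases hβ : D.c0 c' = β
        · by_cases hr : r c' = 1
          · simp only [if_pos hβ, if_pos hr]
            show blk false a6 (true, v') = _
            rw [blk_apply]
            simp
          · simp only [if_pos hβ, if_neg hr]
            rfl
        · simp only [if_neg hβ]
          rfl
    have h2 : wa D β (farW hM) (fun c => if r c = 1 then aa true else 1) ((c, j), v) =
        ((c, j), v) := by
      apply act_of_fix
      rintro c' ⟨b', v'⟩ h
      cases b'
      · unfold ind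
        by_cases hβ : D.c0 c' = β
        · by_cases hr : r c' = 1
          · simp only [if_pos hβ, if_pos hr]
            show blk true a6 (false, v') = _
            rw [blk_apply]
            simp
          · simp only [if_pos hβ, if_neg hr]
            rfl
        · simp only [if_neg hβ]
          rfl
      · exfalso
        have h2 : (-1 : ZMod M) = j := (Prod.mk.inj (Prod.mk.inj h).1).2
        exact hj h2.symm
    rw [h1, h2]

end trans

end Pool.Agent.Helper78.Zd
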