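import Pool.Agent.Helper78.Zd.TransAnd
import Pool.Agent.Helper78.Zd.TransLift
import Pool.Agent.Helper78.Zd.TransDec

/-! The transition from one level to the next. -/

set_option autoImplicit false

namespace Pool.Agent.Helper78.Zd

open Equiv

/-- the constant of the transition -/
noncomputable def CT (a b : ℝ) : ℝ := a * (20 + 112 * a) + 2 * (b * (18 + 112 * a)) + 1

theorem transition : ∃ C : ℝ, 1 ≤ C ∧ ∀ (B R : Type) (M : ℕ) [Fintype B] [NeZero M]
    (D : BaseData B R) (h2 : 2 ∣ M) (_ : 6 ≤ M)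
    (H : Type) [NormedAddCommGroup H] [InnerProductSpace ℝ H]
    (ρ : Perm (Node B R M × Fin 6) →* (H ≃ₗᵢ[ℝ] H)) (β : B) (f : H) (err : ZMod M → ℝ),
    (∀ i, 0 ≤ err i) → Post D h2 ρ β f err →
      Pre D h2 (ρ.comp (ext β)) f (C * ∑ i, err i) := by
  obtain ⟨l1, hl1⟩ := exists_list true
  obtain ⟨l2, hl2⟩ := exists_list false
  have ha : (0 : ℝ) ≤ l1.length := Nat.cast_nonneg _
  have hb : (0 : ℝ) ≤ l2.length := Nat.cast_nonneg _
  refine ⟨CT l1.length l2.length, ?_, ?_⟩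
  · unfold CT
    have h1 : (0 : ℝ) ≤ l1.length * (20 + 112 * l1.length) := by positivity
    have h2 : (0 : ℝ) ≤ 2 * (l2.length * (18 + 112 * l1.length)) := by positivity
    linarith
  intro B R M _ _ D h2 hM H _ _ ρ β f err h0 hP e κ ψ
  set τ : ℝ := ∑ i, err i with hτ
  have hτ0 : 0 ≤ τ := Finset.sum_nonneg fun i _ => h0 i
  have herr : err (-1 : ZMod M) ≤ τ := Finset.single_le_sum (fun i _ => h0 i) (Finset.mem_univ _)
  have far1 : ∀ ψ : Lab B M → A12, mv ρ f (wa D β (farW hM) (fun c => ψ (D.labC c))) ≤ 2 * τ :=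
    fun ψ => far_bound D β ρ f h2 hM err h0 hP ψ
  have crossC : ∀ x : A12, mv ρ f (wa D β (crossW D hM e) (fun _ => x)) ≤ τ :=
    fun x => (post_cross D β h2 hM ρ f err hP e (fun _ => x)).trans herr
  have farC : ∀ x : A12, mv ρ f (wa D β (farW hM) (fun _ => x)) ≤ 2 * τ :=
    fun x => far1 (fun _ => x)
  have and1 := and_far D β ρ f hM e D.labC D.labC (2 * τ) (2 * τ) τ far1 far1 (crossC bs)
  have far2 : ∀ ψ : Lab B M × Lab B M → A12,
      mv ρ f (wa D β (farW hM) (fun c => ψ (D.labC c, D.labC (D.nx e c)))) ≤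
        l1.length * (4 * (2 * τ + 2 * τ + 2 * τ) + 2 * (2 * τ)) := fun ψ =>
    lift_gen D β ρ f (farW hM) true l1 (fun c => (D.labC c, D.labC (D.nx e c))) _ _ farC and1 ψ
      (fun k => hl1 _)
  have and2 := and_far D β ρ f hM e D.labC (fun c => (D.labC c, D.labC (D.nx e c))) (2 * τ) _ τ
    far1 far2 (crossC bs)
  have far3 : ∀ ψ : Lab B M × (Lab B M × Lab B M) → A12,
      mv ρ f (wa D β (farW hM) (fun c => ψ (T3 D e c))) ≤ _ := fun ψ =>
    lift_gen D β ρ f (farW hM) true l1 (T3 D e) _ _ farC and2 ψ (fun k => hl1 _)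
  have cross3 : ∀ ψ : Lab B M × (Lab B M × Lab B M) → A12,
      mv ρ f (wa D β (crossW D hM e) (fun c => ψ (T3 D e c))) ≤ _ := fun ψ =>
    lift_gen D β ρ f (crossW D hM e) false l2 (T3 D e) _ _ crossC
      (fun r => by
        rw [cross_eq_far]
        exact and2 r) ψ (fun k => hl2 _)
  refine (dec_final D β ρ f h2 hM e κ _ _ far3 cross3 ψ).trans ?_
  unfold CT
  have h1 : (0 : ℝ) ≤ τ * 1 := by positivity
  linarith

end Pool.Agent.Helper78.Zd
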