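import Pool.Agent.Helper78.Zd.EmbedWedge
import Pool.Agent.Helper78.Zd.Final

/-! # The wedge version -/

set_option autoImplicit false

namespace Pool.Agent.Helper78.Zd

open Equiv

theorem final_wedge (hlim : LimitProp) (q : ℕ) (X : Type) (G : SimpleGraph X)
    (F : (Fin 3 → ℤ) → X) (hF : Set.InjOn F (wedge q))
    (hC : ∀ K : ℕ, ∃ C : ℕ, ∀ a ∈ wedge q, ∀ b ∈ wedge q, (∀ i, |a i - b i| ≤ K) →
      G.dist (F a) (F b) ≤ C) : ¬ ExtAm G := by
  obtain ⟨C0, _, hlim⟩ := hlim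
  obtain ⟨B, R, iB, iN, M, iM, D, Φ, K, h2, h3, h6, hB, hΦ, hW, hK1, hK2⟩ := embed_wedge C0 q
  obtain ⟨η, hη, hH⟩ := hlim B R M D h2 h3 h6 hB
  obtain ⟨C, hC⟩ := hC K.toNat
  refine final_tree B R M D h2 η hη hH X G (fun y => F (Φ y)) ?_ C ?_ ?_
  · intro y y' h
    exact hΦ (hF (hW y) (hW y') h)
  · intro s v v'
    exact hC _ (hW _) _ (hW _) fun i => (hK1 s v v' i).trans (Int.self_le_toNat K)
  · intro e s v v'
    exact hC _ (hW _) _ (hW _) fun i => (hK2 e s v v' i).trans (Int.self_le_toNat K)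

/-- the wedge as an induced subgraph of the lattice graph `Z^3` -/
def wedgeGraph (q : ℕ) : SimpleGraph (wedge q) := (grid 3).induce (wedge q)

lemma wedge_between (q : ℕ) {u v w : Fin 3 → ℤ} (i : Fin 3) (hu : u ∈ wedge q) (hv : v ∈ wedge q)
    (h1 : ∀ j, j ≠ i → v j = u j) (h2 : ∀ j, j ≠ i → w j = u j)
    (h3 : (u i ≤ w i ∧ w i ≤ v i) ∨ (v i ≤ w i ∧ w i ≤ u i)) : w ∈ wedge q := by
  obtain ⟨u1, u2, u3, u4⟩ := hu
  obtain ⟨v1, v2, v3, v4⟩ := hv
  fin_cases i
  · have a1 := h1 1 (by decide)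
    have a2 := h1 2 (by decide)
    have b1 := h2 1 (by decide)
    have b2 := h2 2 (by decide)
    simp only [Fin.zero_eta, Fin.isValue] at h3
    rw [a1] at v1 v2
    rw [a2] at v3 v4
    refine ⟨by rw [b1]; exact u1, ?_, by rw [b2]; exact u3, ?_⟩
    · rw [b1]
      rcases h3 with h | h <;> omega
    · rw [b2]
      rcases h3 with h | h
      · exact u4.trans h.1
      · exact v4.trans h.1
  · have a0 := h1 0 (by decide)
    have a2 := h1 2 (by decide)
    have b0 := h2 0 (by decide)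
    have b2 := h2 2 (by decide)
    simp only [Fin.mk_one, Fin.isValue] at h3
    rw [a0] at v2
    refine ⟨?_, ?_, by rw [b2]; exact u3, by rw [b2, b0]; exact u4⟩
    · rcases h3 with h | h <;> omega
    · rw [b0]
      rcases h3 with h | h <;> omega
  · have a0 := h1 0 (by decide)
    have a1 := h1 1 (by decide)
    have b0 := h2 0 (by decide)
    have b1 := h2 1 (by decide)
    simp only [Fin.reduceFinMk, Fin.isValue] at h3
    rw [a0] at v4
    refine ⟨by rw [b1]; exact u1, by rw [b1, b0]; exact u2, ?_, ?_⟩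
    · rcases h3 with h | h <;> omega
    · rw [b0]
      rcases h3 with h | h
      · exact (pow_le_pow_left₀ (by omega) h.2 q).trans v4
      · exact (pow_le_pow_left₀ (by omega) h.2 q).trans u4

/-- a straight walk in a coordinate direction -/
lemma wedge_axis (q : ℕ) (i : Fin 3) (n : ℕ) : ∀ u v : wedge q, (∀ j, j ≠ i → v.1 j = u.1 j) →
    |v.1 i - u.1 i| = n → ∃ p : (wedgeGraph q).Walk u v, p.length = n := by
  induction n with
  | zero =>
    intro u v h1 h2
    have : u = v := by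
      apply Subtype.ext
      funext j
      by_cases hj : j = i
      · subst hj
        have h3 : v.1 j - u.1 j = 0 := abs_eq_zero.1 (by simpa using h2)
        omega
      · exact (h1 j hj).symm
    subst this
    exact ⟨SimpleGraph.Walk.nil, rfl⟩
  | succ n ih =>
    intro u v h1 h2
    have hne : v.1 i ≠ u.1 i := by
      intro h
      rw [h, sub_self, abs_zero] at h2
      push_cast at h2
      omega
    obtain ⟨s, hs1, hs2, hs3⟩ : ∃ s : ℤ, |s| = 1 ∧ |v.1 i - (u.1 i + s)| = |v.1 i - u.1 i| - 1 ∧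
        ((u.1 i ≤ u.1 i + s ∧ u.1 i + s ≤ v.1 i) ∨ (v.1 i ≤ u.1 i + s ∧ u.1 i + s ≤ u.1 i)) := by
      rcases lt_or_gt_of_ne hne with h3 | h3
      · refine ⟨-1, by simp, ?_, Or.inr ⟨by omega, by omega⟩⟩
        rw [abs_of_nonpos (by omega), abs_of_neg (by omega)]
        ring
      · refine ⟨1, by simp, ?_, Or.inl ⟨by omega, by omega⟩⟩
        rw [abs_of_nonneg (by omega), abs_of_pos (by omega)]
        ring
    set w : Fin 3 → ℤ := Function.update u.1 i (u.1 i + s) with hw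
    have hwi : w i = u.1 i + s := by rw [hw, Function.update_self]
    have hwj : ∀ j, j ≠ i → w j = u.1 j := fun j hj => by rw [hw, Function.update_of_ne hj]
    have hwm : w ∈ wedge q := wedge_between q i u.2 v.2 h1 hwj (by rw [hwi]; exact hs3)
    have hadj : (wedgeGraph q).Adj u ⟨w, hwm⟩ := by
      show ∑ j, |u.1 j - w j| = 1
      rw [← Finset.add_sum_erase _ _ (Finset.mem_univ i), Finset.sum_eq_zero]
      · rw [hwi, add_zero]
        have : u.1 i - (u.1 i + s) = -s := by ring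
        rw [this, abs_neg, hs1]
      · intro j hj
        rw [hwj j (Finset.ne_of_mem_erase hj)]
        simp
    obtain ⟨p, hp⟩ := ih ⟨w, hwm⟩ v (fun j hj => by
        show v.1 j = w j
        rw [hwj j hj, h1 j hj]) (by
        show |v.1 i - w i| = n
        rw [hwi, hs2, h2]
        push_cast
        ring)
    exact ⟨SimpleGraph.Walk.cons hadj p, by rw [SimpleGraph.Walk.length_cons, hp]⟩

lemma wedge_axis' (q : ℕ) (i : Fin 3) (u v : wedge q) (h : ∀ j, j ≠ i → v.1 j = u.1 j) :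
    ∃ p : (wedgeGraph q).Walk u v, (p.length : ℤ) = |v.1 i - u.1 i| := by
  obtain ⟨n, hn⟩ := Int.eq_ofNat_of_zero_le (abs_nonneg (v.1 i - u.1 i))
  obtain ⟨p, hp⟩ := wedge_axis q i n u v h hn
  exact ⟨p, by rw [hp, hn]⟩

lemma wedge_walk (q : ℕ) (a b : wedge q) :
    ∃ p : (wedgeGraph q).Walk a b, (p.length : ℤ) ≤ 5 * ∑ i, |a.1 i - b.1 i| := by
  obtain ⟨a, ha⟩ := a
  obtain ⟨b, hb⟩ := b
  obtain ⟨a1, a2, a3, a4⟩ := ha
  obtain ⟨b1, b2, b3, b4⟩ := hb
  set m : ℤ := max (a 0) (b 0) with hm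
  have hma : a 0 ≤ m := le_max_left _ _
  have hmb : b 0 ≤ m := le_max_right _ _
  let u1 : wedge q := ⟨![m, a 1, a 2], ⟨a1, a2.trans hma, a3, a4.trans hma⟩⟩
  let u2 : wedge q := ⟨![m, b 1, a 2], ⟨b1, b2.trans hmb, a3, a4.trans hma⟩⟩
  let u3 : wedge q := ⟨![m, b 1, b 2], ⟨b1, b2.trans hmb, b3, b4.trans hmb⟩⟩
  obtain ⟨p1, h1⟩ := wedge_axis' q 0 ⟨a, ⟨a1, a2, a3, a4⟩⟩ u1 (by
    intro j hj
    fin_cases j
    · exact absurd rfl hj
    · rfl
    · rfl)
  obtain ⟨p2, h2⟩ := wedge_axis' q 1 u1 u2 (by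
    intro j hj
    fin_cases j
    · rfl
    · exact absurd rfl hj
    · rfl)
  obtain ⟨p3, h3⟩ := wedge_axis' q 2 u2 u3 (by
    intro j hj
    fin_cases j
    · rfl
    · rfl
    · exact absurd rfl hj)
  obtain ⟨p4, h4⟩ := wedge_axis' q 0 u3 ⟨b, ⟨b1, b2, b3, b4⟩⟩ (by
    intro j hj
    fin_cases j
    · exact absurd rfl hj
    · rfl
    · rfl)
  refine ⟨((p1.append p2).append p3).append p4, ?_⟩
  rw [SimpleGraph.Walk.length_append, SimpleGraph.Walk.length_append,
    SimpleGraph.Walk.length_append]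
  push_cast
  rw [h1, h2, h3, h4, Fin.sum_univ_three]
  have e1 : |u1.1 0 - a 0| ≤ |a 0 - b 0| := by
    show |m - a 0| ≤ _
    rw [abs_of_nonneg (by omega)]
    rcases le_total (a 0) (b 0) with h | h
    · rw [hm, max_eq_right h, abs_sub_comm]; exact le_abs_self _
    · rw [hm, max_eq_left h, sub_self]; exact abs_nonneg _
  have e2 : |u2.1 1 - u1.1 1| = |a 1 - b 1| := by
    show |b 1 - a 1| = _
    exact abs_sub_comm _ _
  have e3 : |u3.1 2 - u2.1 2| = |a 2 - b 2| := by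
    show |b 2 - a 2| = _
    exact abs_sub_comm _ _
  have e4 : |b 0 - u3.1 0| ≤ |a 0 - b 0| := by
    show |b 0 - m| ≤ _
    rw [abs_sub_comm, abs_of_nonneg (by omega)]
    rcases le_total (a 0) (b 0) with h | h
    · rw [hm, max_eq_right h, sub_self]; exact abs_nonneg _
    · rw [hm, max_eq_left h]; exact le_abs_self _
  have n0 := abs_nonneg (a 0 - b 0)
  have n1 := abs_nonneg (a 1 - b 1)
  have n2 := abs_nonneg (a 2 - b 2)
  show |u1.1 0 - a 0| + |u2.1 1 - u1.1 1| + |u3.1 2 - u2.1 2| + |b 0 - u3.1 0| ≤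
    5 * (|a 0 - b 0| + |a 1 - b 1| + |a 2 - b 2|)
  linarith

/-- the point `(1, 0, 0)` -/
def wedgePt (q : ℕ) : wedge q := ⟨![1, 0, 0], ⟨le_refl _, by norm_num, le_refl _, by
  show (0 : ℤ) ^ q ≤ 1
  rcases q with _ | q
  · simp
  · simp⟩⟩

theorem wedgeGraph_connected (q : ℕ) : (wedgeGraph q).Connected := by
  have : Nonempty (wedge q) := ⟨wedgePt q⟩
  refine ⟨fun a b => ?_⟩
  obtain ⟨p, _⟩ := wedge_walk q a b
  exact ⟨p⟩

theorem wedgeGraph_dist (q : ℕ) (a b : wedge q) :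
    ((wedgeGraph q).dist a b : ℤ) ≤ 5 * ∑ i, |a.1 i - b.1 i| := by
  obtain ⟨p, hp⟩ := wedge_walk q a b
  exact le_trans (by exact_mod_cast SimpleGraph.dist_le p) hp

theorem final_wedgeGraph (hlim : LimitProp) (q : ℕ) : ¬ ExtAm (wedgeGraph q) := by
  classical
  let F : (Fin 3 → ℤ) → wedge q := fun a => if h : a ∈ wedge q then ⟨a, h⟩ else wedgePt q
  have hF : ∀ a (h : a ∈ wedge q), F a = ⟨a, h⟩ := fun a h => dif_pos h
  refine final_wedge hlim q (wedge q) (wedgeGraph q) F ?_ ?_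
  · intro a ha b hb hab
    rw [hF a ha, hF b hb] at hab
    exact congrArg Subtype.val hab
  · intro K
    refine ⟨15 * K, fun a ha b hb hab => ?_⟩
    rw [hF a ha, hF b hb]
    have h1 := wedgeGraph_dist q ⟨a, ha⟩ ⟨b, hb⟩
    rw [Fin.sum_univ_three] at h1
    have h2 := hab 0
    have h3 := hab 1
    have h4 := hab 2
    simp only at h1
    have h5 : ((wedgeGraph q).dist ⟨a, ha⟩ ⟨b, hb⟩ : ℤ) ≤ ((15 * K : ℕ) : ℤ) := by
      push_cast
      linarith
    exact_mod_cast h5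

end Pool.Agent.Helper78.Zd
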